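import Pool.Agent.H238R3.Fam

set_option autoImplicit false

/-!
# Counting the line threats
-/

namespace Pool.Agent.H238R3.Fam

open Pool.Agent.H238R3.Lines Pool.Agent.H238R3.Game

lemma factsD {ζ ρ A e ε : ℝ} (hρ : 0 < ρ) (he : 1 ≤ e) (heA : e ≤ A) (hε0 : 0 < ε)
    {w : ℤ × ℤ × ℤ} (hw : okD ρ A e w) :
    ρ * (2^24 * A^2 * e^2 * w.1) < 1 ∧ 1 ≤ 2^40 * ρ * A^2 * e^2 * w.1 ∧
    0 < (thD ζ ε A e w).2 ∧ (thD ζ ε A e w).2 / ρ ≤ 2^40 * ε * (e/A) := by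
  obtain ⟨h1, h2, h3, h4, h5, h6, h7⟩ := hw
  have hb : (0:ℝ) < (w.1:ℝ) := by exact_mod_cast h2
  have hA : 0 < A := by linarith
  have hden : 0 < 2^24 * A^2 * e^2 * (w.1:ℝ) := by positivity
  have f5 : 1 ≤ 2^40 * ρ * A^2 * e^2 * w.1 := by
    rw [div_le_iff₀ hden] at h7
    nlinarith
  have hth : (thD ζ ε A e w).2 = ε/(A^3 * e * w.1) := rfl
  refine ⟨?_, f5, ?_, ?_⟩
  · rw [lt_div_iff₀ hden] at h6
    linarith
  · rw [hth]; positivity
  · rw [hth, div_div, div_le_iff₀ (by positivity)]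
    have e1 : 2^40 * ε * (e/A) * (A^3 * e * w.1 * ρ) = ε * (2^40 * ρ * A^2 * e^2 * w.1) := by
      field_simp
    rw [e1]
    nlinarith

lemma norm_point (ζ : ℝ) (w : ℤ × ℤ × ℤ) (hw : Prim w) (h3 : w.2.2 ≠ 0) :
    ∃ v : ℤ × ℤ × ℤ, Prim v ∧ 0 < v.1 ∧ (v.1:ℝ) = |(w.2.2:ℝ)| ∧
      |(v.2.1:ℝ) - ζ * v.1| = |(w.2.1:ℝ) + ζ * w.2.2| ∧
      ∀ x' : ℝ, |(v.1:ℝ) * x' - v.2.2| = |(w.1:ℝ) + x' * w.2.2| := by
  obtain ⟨a, b, c, habc⟩ := hw
  rcases lt_or_gt_of_ne h3 with h | h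
  · refine ⟨(-w.2.2, w.2.1, w.1), ⟨-c, b, a, by simp only; linear_combination habc⟩, by simpa using h,
      ?_, ?_, ?_⟩
    · have : ((w.2.2:ℤ):ℝ) < 0 := by exact_mod_cast h
      rw [abs_of_neg this]; simp
    · congr 1
      push_cast
      ring
    · intro x'
      rw [← abs_neg]
      congr 1
      push_cast
      ring
  · refine ⟨(w.2.2, -w.2.1, -w.1), ⟨c, -b, -a, by simp only; linear_combination habc⟩, h,
      ?_, ?_, ?_⟩
    · have : (0:ℝ) < ((w.2.2:ℤ):ℝ) := by exact_mod_cast h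
      rw [abs_of_pos this]
    · rw [← abs_neg]
      congr 1
      push_cast
      ring
    · intro x'
      congr 1
      push_cast
      ring

theorem cardD (ζ ρ x A e δ ε : ℝ) (N : ℕ) (hρ : 0 < ρ) (he : 1 ≤ e) (heA : e ≤ A)
    (hδ : 0 < δ) (hbad : ∀ q p : ℤ, q ≠ 0 → δ ≤ |(q:ℝ)| * |(q:ℝ)*ζ - p|)
    (hN : 2^47 ≤ (N:ℝ)) (hε : ε = 1/(N:ℝ)^12)
    (HP : ∀ (i : ℕ) (v : ℤ × ℤ × ℤ), Prim v → 0 < v.1 → ((2:ℝ)^i)^4 ≤ (v.1:ℝ) →
      (v.1:ℝ) < 16 * ((2:ℝ)^i)^4 → (v.1:ℝ) ≤ A^4 → |(v.2.1:ℝ) - ζ * v.1| < 1 →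
      65536 * ρ < 1/(2^24 * A^3 * ((2:ℝ)^i)^5 * |(v.2.1:ℝ) - ζ * v.1|) →
      ¬ (|x - (thP ζ ε A v).1| + ρ ≤ (thP ζ ε A v).2))
    (T : Finset (ℤ × ℤ × ℤ))
    (hT : ∀ w ∈ T, okD ρ A e w ∧ |(thD ζ ε A e w).1 - x| < (thD ζ ε A e w).2 + ρ) :
    T.card ≤ N^6 := by
  have hA : 0 < A := by linarith
  have he0 : 0 < e := by linarith
  have hN0 : (0:ℝ) < N := by linarith [show (0:ℝ) < 2^47 by positivity]
  have hN1 : (1:ℝ) ≤ N := by linarith [show (1:ℝ) ≤ 2^47 by norm_num]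
  have hε0 : 0 < ε := by rw [hε]; positivity
  have hεs : 2^40 * ε ≤ 1 := by
    rw [hε, mul_one_div, div_le_one (by positivity)]
    calc (2:ℝ)^40 ≤ (2:ℝ)^47 := by norm_num
      _ ≤ (N:ℝ) := hN
      _ = (N:ℝ)^1 := (pow_one _).symm
      _ ≤ (N:ℝ)^12 := pow_le_pow_right₀ hN1 (by norm_num)
  by_contra hcon
  push Not at hcon
  obtain ⟨T', hT', hcard⟩ := Finset.exists_subset_card_eq (show N^6 + 1 ≤ T.card by omega)
  set B : ℝ := 1/(2^24*A^2*e^2*ρ) with hB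
  have hB0 : 0 < B := by rw [hB]; positivity
  have hBe : B * ρ * (2^24*A^2*e^2) = 1 := by rw [hB]; field_simp
  clear_value B
  have hMr : ((N^6 : ℕ):ℝ) = (N:ℝ)^6 := by push_cast; ring
  set M : ℝ := (N:ℝ)^6 with hM
  have hM0 : 0 < M := by rw [hM]; positivity
  have hNM : (N:ℝ) ≤ M := by
    calc (N:ℝ) = (N:ℝ)^1 := (pow_one _).symm
      _ ≤ (N:ℝ)^6 := pow_le_pow_right₀ hN1 (by norm_num)
  have hM47 : 2^47 ≤ M := hN.trans hNM
  have heA2 : e^2 ≤ A^2 := pow_le_pow_left₀ he0.le heA 2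
  have heA4 : e^4 ≤ A^4 := pow_le_pow_left₀ he0.le heA 4
  have hfacts : ∀ w ∈ T', B/65536 ≤ (w.1:ℝ) ∧ (w.1:ℝ) ≤ B ∧
      |(w.2.1:ℝ) - 0 * w.1| ≤ 16*e^4*65536/B ∧
      |(w.2.2:ℝ) - ζ * w.2.1 - x * w.1| ≤ 2 * ρ * w.1 ∧ Prim w ∧ (w.1:ℝ) ≤ 16 * e^4 := by
    intro w hw
    obtain ⟨h1, h2⟩ := hT w (hT' hw)
    obtain ⟨f1, f2, f3, f4⟩ := factsD (ζ := ζ) hρ he heA hε0 h1
    obtain ⟨g1, g2, g3, g4, g5, g6, g7⟩ := h1
    have hb : (0:ℝ) < (w.1:ℝ) := by exact_mod_cast g2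
    have hb1 : (1:ℝ) ≤ (w.1:ℝ) := by exact_mod_cast g2
    have hBb : B ≤ 65536 * (w.1:ℝ) := by
      have h3 : B * 1 ≤ B * (2^40 * ρ * A^2 * e^2 * w.1) := mul_le_mul_of_nonneg_left f2 hB0.le
      have h4 : B * (2^40 * ρ * A^2 * e^2 * w.1) = (B * ρ * (2^24*A^2*e^2)) * (65536 * w.1) := by
        ring
      rw [h4, hBe, one_mul, mul_one] at h3
      exact h3
    have hthle : (thD ζ ε A e w).2 ≤ ρ := by
      rw [div_le_iff₀ hρ] at f4
      have h3 : e/A ≤ 1 := (div_le_one hA).2 heA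
      have h4 : 0 ≤ e/A := by positivity
      have h5 : 2^40 * ε * (e/A) ≤ 1 := by nlinarith
      nlinarith
    refine ⟨?_, ?_, ?_, ?_, g1, ?_⟩
    · rw [div_le_iff₀ (by norm_num)]; linarith
    · by_contra hlt
      push Not at hlt
      have : B * (ρ * (2^24*A^2*e^2)) < w.1 * (ρ * (2^24*A^2*e^2)) :=
        mul_lt_mul_of_pos_right hlt (by positivity)
      nlinarith
    · rw [zero_mul, sub_zero, le_div_iff₀ hB0]
      have h3 : 0 ≤ |(w.2.1:ℝ)| := abs_nonneg _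
      nlinarith
    · have h3 : |((w.2.2:ℝ) - ζ * w.2.1)/w.1 - x| < 2 * ρ := by
        have : (thD ζ ε A e w).1 = ((w.2.2:ℝ) - ζ * w.2.1)/w.1 := rfl
        rw [this] at h2
        linarith
      have e1 : (w.2.2:ℝ) - ζ * w.2.1 - x * w.1 = (((w.2.2:ℝ) - ζ * w.2.1)/w.1 - x) * w.1 := by
        field_simp
      rw [e1, abs_mul, abs_of_pos hb]
      exact mul_le_mul_of_nonneg_right h3.le hb.le
    · have h3 : 0 < |(w.2.1:ℝ)| := by
        by_contra hneg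
        push Not at hneg
        have h4 : 0 < e^4 := by positivity
        nlinarith
      have h4 : (1:ℝ) ≤ |(w.2.1:ℝ)| := by
        have h5 : w.2.1 ≠ 0 := by
          intro h0
          rw [h0] at h3
          simp at h3
        have := Int.one_le_abs h5
        exact_mod_cast this
      nlinarith
  obtain ⟨w0, hw0⟩ : T'.Nonempty := by
    rw [← Finset.card_pos]; omega
  -- bounds for B
  have hB16 : B ≤ 65536 * (16 * e^4) := by
    have h1 := (hfacts w0 hw0).1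
    have h2 := (hfacts w0 hw0).2.2.2.2.2
    rw [div_le_iff₀ (by norm_num)] at h1
    linarith
  have hρB : ρ * B * e^4 * 2^24 ≤ e^2 / A^2 := by
    rw [le_div_iff₀ (by positivity)]
    calc ρ * B * e^4 * 2^24 * A^2 = (B * ρ * (2^24*A^2*e^2)) * e^2 := by ring
      _ ≤ e^2 := by rw [hBe, one_mul]
  have heA1 : e^2/A^2 ≤ 1 := (div_le_one (by positivity)).2 heA2
  have hdet : 12 * ρ * B^2 * (16*e^4*65536/B) < 1 := by
    have e1 : 12 * ρ * B^2 * (16*e^4*65536/B) = 12 * 16 * 65536 * (ρ * B * e^4) := by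
      field_simp
    rw [e1]
    nlinarith
  obtain ⟨w, hw, hort, hb1, hb2, hb3⟩ := lines x ρ 0 ζ (16*e^4*65536/B) (B/65536) B hρ.le
    (by positivity) (by positivity) hdet T' (N^6) (pow_pos (by exact_mod_cast hN0) 6) hcard
    (fun z hz => (hfacts z hz).2.2.2.2.1)
    (fun z hz => ⟨(hfacts z hz).1, (hfacts z hz).2.1⟩) (fun z hz => (hfacts z hz).2.2.1)
    (fun z hz => (hfacts z hz).2.2.2.1)
  rw [hMr] at hb1 hb2 hb3
  have hb1' : M * |(w.2.2:ℝ)| ≤ 2^37 * e^4 := by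
    refine hb1.trans (le_of_eq ?_); field_simp; norm_num
  have hb3' : ∀ x' : ℝ, |x' - x| ≤ ρ →
      M * |(w.1:ℝ) + x' * w.2.2| ≤ 160 * 2^32 * e^4 * ρ := by
    intro x' hx'
    have := hb3 x' hx'
    rw [zero_mul, zero_mul, add_zero, add_zero] at this
    refine this.trans (le_of_eq ?_); field_simp; norm_num
  clear hb1 hb3
  have h4ρB : 4 * ρ * B^2 < 1 := by
    have h1 : 4 * ρ * B^2 ≤ 4 * ρ * B * (65536 * (16 * e^4)) := by
      calc 4 * ρ * B^2 = 4 * ρ * B * B := by ring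
        _ ≤ 4 * ρ * B * (65536 * (16 * e^4)) := by gcongr
    nlinarith
  have hM1 : 1 ≤ M := by linarith [show (1:ℝ) ≤ 2^47 by norm_num]
  have hw3 : w.2.2 ≠ 0 := by
    intro h3
    have hw2 : w.2.1 = 0 := by
      by_contra h2
      rw [h3] at hb2
      have h4 : (1:ℝ) ≤ |(w.2.1:ℝ)| := by
        have := Int.one_le_abs h2
        exact_mod_cast this
      rw [Int.cast_zero, mul_zero, add_zero] at hb2
      nlinarith
    have h1 := hort w0 hw0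
    rw [h3, hw2] at h1
    have hv1 : w0.1 ≠ 0 := by
      have := (hT w0 (hT' hw0)).1.2.1
      omega
    have : w.1 = 0 := by
      have h4 : w.1 * w0.1 = 0 := by linarith
      rcases mul_eq_zero.1 h4 with h | h
      · exact h
      · exact absurd h hv1
    exact hw.ne_zero ⟨this, hw2, h3⟩
  obtain ⟨v, hv, hv1, hvq, hvy, hvx⟩ := norm_point ζ w hw hw3
  have hq0 : (0:ℝ) < (v.1:ℝ) := by exact_mod_cast hv1
  have hq1 : (1:ℝ) ≤ (v.1:ℝ) := by exact_mod_cast hv1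
  set y := |(v.2.1:ℝ) - ζ * v.1| with hy
  have F1 : M * (v.1:ℝ) ≤ 2^37 * e^4 := by rw [hvq]; exact hb1'
  have F2 : M * y ≤ 4 * ρ * B^2 := by rw [hvy]; exact hb2
  have F3 : ∀ x' : ℝ, |x' - x| ≤ ρ → M * |(v.1:ℝ) * x' - v.2.2| ≤ 160 * 2^32 * e^4 * ρ := by
    intro x' hx'; rw [hvx]; exact hb3' x' hx'
  have hy0 : 0 < y := by
    have h1 := hbad v.1 v.2.1 (by omega)
    rw [abs_of_pos hq0, show (v.1:ℝ)*ζ - v.2.1 = -((v.2.1:ℝ) - ζ * v.1) by ring, abs_neg] at h1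
    by_contra hneg
    push Not at hneg
    nlinarith
  clear hb1' hb2 hb3' hvx hvq hvy hw3 hort hw
  clear_value y
  have hqe : (v.1:ℝ) ≤ e^4 := by
    have h1 : (2:ℝ)^37 * (v.1:ℝ) ≤ 2^37 * e^4 := by
      have : (2:ℝ)^37 * (v.1:ℝ) ≤ M * (v.1:ℝ) := by
        have : (2:ℝ)^37 ≤ M := by linarith [show (2:ℝ)^37 ≤ 2^47 by norm_num]
        gcongr
      linarith
    linarith
  have hy1 : y < 1 := by nlinarith
  obtain ⟨i, hi1, hi2⟩ := exists_pow16 _ hq1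
  set f := (2:ℝ)^i with hf
  have hf0 : 0 < f := by rw [hf]; positivity
  have hfe : f ≤ e := by
    have : f^4 ≤ e^4 := hi1.trans hqe
    exact le_of_pow_le_pow_left₀ (by norm_num) he0.le this
  refine HP i v hv hv1 hi1 hi2 (hqe.trans heA4) (by rw [← hy]; exact hy1) ?_ ?_
  · rw [← hy, ← hf, lt_div_iff₀ (by positivity)]
    have h1 : M * (65536 * ρ * (2^24 * A^3 * f^5 * y)) < M * 1 := by
      calc M * (65536 * ρ * (2^24 * A^3 * f^5 * y))
          = (M * y) * (2^40 * ρ * A^3 * f^5) := by ring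
        _ ≤ (4 * ρ * B^2) * (2^40 * ρ * A^3 * e^5) := by gcongr
        _ = (B * ρ * (2^24*A^2*e^2))^2 * (e / A) * (1/2^6) := by field_simp; norm_num
        _ = (e / A) * (1/2^6) := by rw [hBe]; ring
        _ ≤ 1 * (1/2^6) := by
            have : e / A ≤ 1 := (div_le_one hA).2 heA
            gcongr
        _ < M * 1 := by nlinarith
    exact lt_of_mul_lt_mul_left h1 hM0.le
  · refine contains_of hρ.le (fun x' hx' => ?_)
    have h1 := F3 x' hx'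
    have h2 : x' - (thP ζ ε A v).1 = ((v.1:ℝ) * x' - v.2.2)/v.1 := by
      simp only [thP]; field_simp
    rw [h2, abs_div, abs_of_pos hq0]
    have h3 : (thP ζ ε A v).2 = ε/(A^4 * v.1 * y) := by rw [hy]; rfl
    rw [h3, div_le_div_iff₀ hq0 (by positivity)]
    set z := |(v.1:ℝ) * x' - v.2.2| with hz
    have hz0 : 0 ≤ z := abs_nonneg _
    have h4 : z * (A^4 * y) ≤ ε := by
      have h5 : M^2 * (z * (A^4 * y)) ≤ M^2 * ε := by
        calc M^2 * (z * (A^4 * y)) = (M * z) * (M * y) * A^4 := by ring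
          _ ≤ (160 * 2^32 * e^4 * ρ) * (4 * ρ * B^2) * A^4 := by gcongr
          _ = (B * ρ * (2^24*A^2*e^2))^2 * (640/2^16) := by field_simp; norm_num
          _ = 640/2^16 := by rw [hBe]; ring
          _ ≤ 1 := by norm_num
          _ = M^2 * ε := by rw [hM, hε]; field_simp
      exact le_of_mul_le_mul_left h5 (by positivity)
    calc z * (A^4 * (v.1:ℝ) * y) = z * (A^4 * y) * (v.1:ℝ) := by ring
      _ ≤ ε * (v.1:ℝ) := mul_le_mul_of_nonneg_right h4 hq0.le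

end Pool.Agent.H238R3.Fam
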