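import Pool.Agent.H238R3.FamP
import Pool.Agent.H238R3.FamD

set_option autoImplicit false

/-!
# The number ξ
-/

namespace Pool.Agent.H238R3.Fam

open Pool.Agent.H238R3.Lines Pool.Agent.H238R3.Game

lemma W_mul {s t : ℝ} (hs : 0 ≤ s) (ht : 0 ≤ t) : W (s * t) = W s * W t :=
  Real.mul_rpow hs ht

lemma W_pow4 {s : ℝ} (hs : 0 ≤ s) : W (s^4) = s^3 := by
  unfold W
  rw [← Real.rpow_natCast s 4, ← Real.rpow_mul hs, ← Real.rpow_natCast s 3]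
  norm_num

lemma W_half : W (1/2) ≤ 3/5 := by
  have h : W (1/2) ^ 4 = (1/2)^3 := by
    unfold W
    rw [← Real.rpow_natCast, ← Real.rpow_mul (by norm_num)]
    rw [show (3/4:ℝ) * ((4:ℕ):ℝ) = ((3:ℕ):ℝ) by norm_num, Real.rpow_natCast]
  by_contra hlt
  push Not at hlt
  have h2 : (3/5:ℝ)^4 < W (1/2)^4 := pow_lt_pow_left₀ hlt (by norm_num) (by norm_num)
  rw [h] at h2
  norm_num at h2

lemma sumW (K : ℕ) : ∑ i ∈ Finset.range (K+1), W ((2:ℝ)^i/2^K) ≤ 5/2 := by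
  induction K with
  | zero => simp [W_one]; norm_num
  | succ K ih =>
    rw [Finset.sum_range_succ, div_self (by positivity), W_one]
    have h : ∀ i ∈ Finset.range (K+1), W ((2:ℝ)^i/2^(K+1)) = W (1/2) * W ((2:ℝ)^i/2^K) := by
      intro i _
      rw [← W_mul (by norm_num) (by positivity)]
      congr 1
      rw [pow_succ]; field_simp
    rw [Finset.sum_congr rfl h, ← Finset.mul_sum]
    have h1 : 0 ≤ ∑ i ∈ Finset.range (K+1), W ((2:ℝ)^i/2^K) :=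
      Finset.sum_nonneg (fun i _ => W_nonneg (by positivity))
    have := W_half
    have h0 : 0 ≤ W (1/2) := W_nonneg (by norm_num)
    nlinarith

lemma exists_stage (τ : ℝ) (h0 : 0 < τ) (h1 : τ ≤ 1) : ∃ n, rho n < τ ∧ τ ≤ 65536 * rho n := by
  obtain ⟨n, hn1, hn2⟩ := exists_nat_pow_near_of_lt_one h0 h1 (show (0:ℝ) < 1/65536 by norm_num)
    (by norm_num)
  refine ⟨n+1, hn1, ?_⟩
  rw [rho_succ]
  unfold rho
  linarith

lemma stage_lt {m n : ℕ} {τ : ℝ} (h1 : τ ≤ 65536 * rho m) (h2 : 65536 * rho n < τ) : m < n := by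
  by_contra h
  push Not at h
  have : rho m ≤ rho n := by
    unfold rho
    exact pow_le_pow_of_le_one (by norm_num) (by norm_num) h
  linarith

/-- total weight of the dyadic classes of one level -/
lemma level_sum (N K : ℕ) (k : ℕ) (hk : k ≤ 8) (hN : 2^47 ≤ (N:ℝ)) (ε : ℝ) (hε : ε = 1/(N:ℝ)^12) :
    ∑ i ∈ Finset.range (K+1), ((N^k : ℕ):ℝ) * W (2^40 * ε * ((2:ℝ)^i/2^K)) ≤ 1/2^15 := by
  have hN0 : (0:ℝ) < N := by linarith [show (0:ℝ) < 2^47 by positivity]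
  have hN1 : (1:ℝ) ≤ N := by linarith [show (1:ℝ) ≤ 2^47 by norm_num]
  have h1 : ∀ i ∈ Finset.range (K+1), ((N^k : ℕ):ℝ) * W (2^40 * ε * ((2:ℝ)^i/2^K)) ≤
      (2^30/N) * W ((2:ℝ)^i/2^K) := by
    intro i _
    have e1 : 2^40 * ε = (2^10/(N:ℝ)^3)^4 := by rw [hε]; field_simp
    have e2 : W (2^40 * ε) = 2^30/(N:ℝ)^9 := by
      rw [e1, W_pow4 (by positivity)]; field_simp
    rw [W_mul (by rw [e1]; positivity) (by positivity), e2, ← mul_assoc]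
    refine mul_le_mul_of_nonneg_right ?_ (W_nonneg (by positivity))
    rw [← mul_div_assoc, div_le_div_iff₀ (by positivity) hN0]
    push_cast
    calc (N:ℝ)^k * 2^30 * N ≤ (N:ℝ)^8 * 2^30 * N := by
          have : (N:ℝ)^k ≤ (N:ℝ)^8 := pow_le_pow_right₀ hN1 hk
          gcongr
      _ = 2^30 * (N:ℝ)^9 := by ring
  refine (Finset.sum_le_sum h1).trans ?_
  rw [← Finset.mul_sum]
  have h2 := sumW K
  have h3 : (2^30/N : ℝ) ≤ 1/2^17 := by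
    rw [div_le_div_iff₀ hN0 (by norm_num)]
    calc (2:ℝ)^30 * 2^17 = (2:ℝ)^47 := by norm_num
      _ ≤ 1 * (N:ℝ) := by linarith
  have h4 : (0:ℝ) ≤ 2^30/N := by positivity
  calc (2^30/N : ℝ) * ∑ i ∈ Finset.range (K+1), W ((2:ℝ)^i/2^K) ≤ (2^30/N : ℝ) * (5/2) := by gcongr
    _ ≤ (1/2^17) * (5/2) := by gcongr
    _ ≤ 1/2^15 := by norm_num

theorem exists_xi (ζ δ : ℝ) (hδ : 0 < δ) (hδ1 : δ ≤ 1)
    (hbad : ∀ q p : ℤ, q ≠ 0 → δ ≤ |(q:ℝ)| * |(q:ℝ)*ζ - p|) :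
    ∃ (ξ ε : ℝ) (C : ℕ), 0 < ε ∧ 1 ≤ C ∧
      (∀ v : ℤ × ℤ, IsCoprime v.1 v.2 → 0 < v.1 → (thB v).2 ≤ |ξ - (thB v).1|) ∧
      ∀ (m : ℕ) (v : ℤ × ℤ × ℤ), Prim v → 0 < v.1 → (v.1:ℝ) ≤ ((2:ℝ)^(C*5^m))^4 →
        |(v.2.1:ℝ) - ζ * v.1| < 1 →
        (thP ζ ε ((2:ℝ)^(C*5^m)) v).2 ≤ |ξ - (thP ζ ε ((2:ℝ)^(C*5^m)) v).1| := by
  classical
  obtain ⟨N, hN⟩ := exists_nat_ge (max (2^47) (1/δ))
  have hN47 : 2^47 ≤ (N:ℝ) := (le_max_left _ _).trans hN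
  have hNδ : 1 ≤ (N:ℝ) * δ := by
    have := (le_max_right _ _).trans hN
    rwa [div_le_iff₀ hδ] at this
  have hN0 : (0:ℝ) < N := by linarith [show (0:ℝ) < 2^47 by positivity]
  obtain ⟨ε, hε⟩ : ∃ ε : ℝ, ε = 1/(N:ℝ)^12 := ⟨_, rfl⟩
  have hε0 : 0 < ε := by rw [hε]; positivity
  obtain ⟨C, hC⟩ := pow_unbounded_of_one_lt (2^20/δ) (show (1:ℝ) < 2 by norm_num)
  have hC1 : 1 ≤ C := by
    rcases Nat.eq_zero_or_pos C with h | h
    · rw [h, pow_zero, div_lt_one hδ] at hC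
      linarith [show (1:ℝ) ≤ 2^20 by norm_num]
    · exact h
  set A : ℕ → ℝ := fun m => (2:ℝ)^(C*5^m) with hA
  have hAC : ∀ m, 2^20/δ ≤ A m := by
    intro m
    refine hC.le.trans ?_
    refine pow_le_pow_right₀ (by norm_num) ?_
    exact Nat.le_mul_of_pos_right C (by positivity)
  have hA1 : ∀ m, 1 ≤ A m := fun m => one_le_pow₀ (by norm_num)
  have hAδ : ∀ m, 2^20 ≤ A m * δ := by
    intro m
    have := hAC m
    rwa [div_le_iff₀ hδ] at this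
  let Thr : ℕ → Set (ℝ × ℝ) := fun n =>
    {t | (∃ v, okB (rho n) v ∧ t = thB v) ∨
      (∃ m i v, okP ζ (rho n) (A m) (2^i) v ∧ t = thP ζ ε (A m) v) ∨
      (∃ m j w, okD (rho n) (A m) (2^j) w ∧ t = thD ζ ε (A m) (2^j) w)}
  -- stages of the threats
  have stB : ∀ v : ℤ × ℤ, IsCoprime v.1 v.2 → 0 < v.1 → ∃ n, thB v ∈ Thr n ∧
      1/(8 * (v.1:ℝ)^2) ≤ 65536 * rho n := by
    intro v hv hv0
    have h1 : (1:ℝ) ≤ (v.1:ℝ) := by exact_mod_cast hv0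
    have h2 : (1:ℝ) ≤ (v.1:ℝ)^2 := one_le_pow₀ h1
    obtain ⟨n, hn1, hn2⟩ := exists_stage (1/(8 * (v.1:ℝ)^2)) (by positivity)
      ((div_le_one (by positivity)).2 (by linarith))
    exact ⟨n, Or.inl ⟨v, ⟨hv, hv0, hn1, hn2⟩, rfl⟩, hn2⟩
  have stP : ∀ (m i : ℕ) (v : ℤ × ℤ × ℤ), Prim v → 0 < v.1 → ((2:ℝ)^i)^4 ≤ (v.1:ℝ) →
      (v.1:ℝ) < 16 * ((2:ℝ)^i)^4 → (v.1:ℝ) ≤ (A m)^4 → |(v.2.1:ℝ) - ζ * v.1| < 1 →
      ∃ n, thP ζ ε (A m) v ∈ Thr n ∧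
        1/(2^24 * (A m)^3 * ((2:ℝ)^i)^5 * |(v.2.1:ℝ) - ζ * v.1|) ≤ 65536 * rho n := by
    intro m i v hv hv0 h1 h2 h3 h4
    have hq : (0:ℝ) < (v.1:ℝ) := by exact_mod_cast hv0
    have hb := hbad v.1 v.2.1 (by omega)
    rw [abs_of_pos hq, show (v.1:ℝ)*ζ - v.2.1 = -((v.2.1:ℝ) - ζ * v.1) by ring, abs_neg] at hb
    set y := |(v.2.1:ℝ) - ζ * v.1| with hy
    have hy0 : 0 < y := by
      by_contra hneg
      push Not at hneg
      nlinarith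
    have hAm := hA1 m
    have hi1 : (1:ℝ) ≤ (2:ℝ)^i := one_le_pow₀ (by norm_num)
    set f := (2:ℝ)^i with hf
    have h5 : δ ≤ 16 * f^4 * y := hb.trans (mul_le_mul_of_nonneg_right h2.le hy0.le)
    have h6 : 1 ≤ 2^24 * (A m)^3 * f^5 * y := by
      have h7 : 1 ≤ A m * δ := le_trans (by norm_num) (hAδ m)
      have h8 : 1 ≤ (A m)^2 := one_le_pow₀ hAm
      calc (1:ℝ) ≤ A m * δ := h7
        _ ≤ A m * (16 * f^4 * y) := by gcongr
        _ = (16 * 1 * A m) * 1 * f^4 * y := by ring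
        _ ≤ (2^24 * (A m)^2 * A m) * f * f^4 * y := by gcongr; norm_num
        _ = 2^24 * (A m)^3 * f^5 * y := by ring
    obtain ⟨n, hn1, hn2⟩ := exists_stage (1/(2^24 * (A m)^3 * f^5 * y)) (by positivity)
      ((div_le_one (by positivity)).2 h6)
    exact ⟨n, Or.inr (Or.inl ⟨m, i, v, ⟨hv, h1, h2, h3, h4, hn1, hn2⟩, rfl⟩), hn2⟩
  have stD : ∀ (m j : ℕ) (w : ℤ × ℤ × ℤ), Prim w → 0 < w.1 → ((2:ℝ)^j)^4 ≤ (w.1:ℝ) * |(w.2.1:ℝ)| →
      (w.1:ℝ) * |(w.2.1:ℝ)| < 16 * ((2:ℝ)^j)^4 → (w.1:ℝ) * |(w.2.1:ℝ)| ≤ (A m)^4 →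
      ∃ n, thD ζ ε (A m) (2^j) w ∈ Thr n ∧
        1/(2^24 * (A m)^2 * ((2:ℝ)^j)^2 * w.1) ≤ 65536 * rho n := by
    intro m j w hw hw0 h1 h2 h3
    have hb : (1:ℝ) ≤ (w.1:ℝ) := by exact_mod_cast hw0
    have hAm := hA1 m
    have hi1 : (1:ℝ) ≤ (2:ℝ)^j := one_le_pow₀ (by norm_num)
    have h6 : 1 ≤ 2^24 * (A m)^2 * ((2:ℝ)^j)^2 * w.1 := by
      have h7 : (1:ℝ) ≤ (A m)^2 := one_le_pow₀ hAm
      have h8 : (1:ℝ) ≤ ((2:ℝ)^j)^2 := one_le_pow₀ hi1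
      calc (1:ℝ) ≤ 2^24 * 1 * 1 * 1 := by norm_num
        _ ≤ 2^24 * (A m)^2 * ((2:ℝ)^j)^2 * w.1 := by gcongr
    obtain ⟨n, hn1, hn2⟩ := exists_stage (1/(2^24 * (A m)^2 * ((2:ℝ)^j)^2 * w.1)) (by positivity)
      ((div_le_one (by positivity)).2 h6)
    exact ⟨n, Or.inr (Or.inr ⟨m, j, w, ⟨hw, hw0, h1, h2, h3, hn1, hn2⟩, rfl⟩), hn2⟩
  have hfin : ∀ (n : ℕ) (x : ℝ),
      (∀ m < n, ∀ t ∈ Thr m, ¬ (|x - t.1| + rho n ≤ t.2)) →
      Small (rho n) {t | t ∈ Thr n ∧ |t.1 - x| < t.2 + rho n} (1/8192) := by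
    intro n x hno
    have hρ := rho_pos n
    set ρ := rho n with hρdef
    -- the active level
    let act : ℕ → Prop := fun m => 1 ≤ 2^40 * ρ * (A m)^8 ∧ ρ * δ * (2^20 * (A m)^2) < 1
    have hlt : ∀ m m', act m → act m' → ¬ (m < m') := by
      intro m m' h h' hmm
      have h1 := h.1
      have h2 := h'.2
      have h3 : (A m)^5 ≤ A m' := by
        simp only [hA]
        rw [← pow_mul]
        refine pow_le_pow_right₀ (by norm_num) ?_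
        rw [mul_assoc, ← pow_succ]
        exact Nat.mul_le_mul_left C (Nat.pow_le_pow_right (by norm_num) hmm)
      have hAm := hA1 m
      have h4 : (A m)^10 ≤ (A m')^2 := by
        calc (A m)^10 = ((A m)^5)^2 := by ring
          _ ≤ (A m')^2 := by gcongr
      have h5 : ρ * δ * (2^20 * (A m)^10) < 1 := by
        refine lt_of_le_of_lt ?_ h2
        gcongr
      have h6 : 2^20 ≤ A m ^ 2 * δ := by
        have := hAδ m
        nlinarith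
      have h7 : (1:ℝ) ≤ ρ * δ * (2^20 * (A m)^10) := by
        calc (1:ℝ) ≤ 2^40 * ρ * (A m)^8 := h1
          _ = (2^20 * ρ * (A m)^8) * 2^20 := by ring
          _ ≤ (2^20 * ρ * (A m)^8) * (A m ^ 2 * δ) := by gcongr
          _ = ρ * δ * (2^20 * (A m)^10) := by ring
      linarith
    obtain ⟨m0, hm0⟩ : ∃ m0, ∀ m, act m → m = m0 := by
      by_cases h : ∃ m, act m
      · obtain ⟨m0, hm0⟩ := h
        refine ⟨m0, fun m hm => ?_⟩
        have h1 := hlt m m0 hm hm0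
        have h2 := hlt m0 m hm0 hm
        omega
      · push Not at h
        exact ⟨0, fun m hm => absurd hm (h m)⟩
    have hAm := hA1 m0
    have actP : ∀ m i v, okP ζ ρ (A m) (2^i) v → act m ∧ i ∈ Finset.range (C*5^m+1) := by
      intro m i v hv
      have hAm := hA1 m
      have hi1 : (1:ℝ) ≤ (2:ℝ)^i := one_le_pow₀ (by norm_num)
      obtain ⟨g1, g2, g3, g4, g5, g6, g7⟩ := id hv
      have hiA : (2:ℝ)^i ≤ A m :=
        le_of_pow_le_pow_left₀ (by norm_num) (by linarith) (g2.trans g4)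
      obtain ⟨f1, f2, f3, f4, f5, f6, f7⟩ := factsP hρ hi1 hiA hδ hbad hε0 hv
      set y := |(v.2.1:ℝ) - ζ * v.1| with hy
      set f := (2:ℝ)^i with hf
      refine ⟨⟨?_, ?_⟩, ?_⟩
      · calc (1:ℝ) ≤ 2^40 * ρ * (A m)^3 * f^5 * y := f5
          _ ≤ 2^40 * ρ * (A m)^3 * (A m)^5 * 1 := by gcongr
          _ = 2^40 * ρ * (A m)^8 := by ring
      · have h5 : δ ≤ 16 * f^4 * y := f3.trans (mul_le_mul_of_nonneg_right g3.le f2.le)
        calc ρ * δ * (2^20 * (A m)^2) ≤ ρ * (16 * f^4 * y) * (2^20 * (A m)^2) := by gcongr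
          _ = ρ * (2^24 * (A m)^2 * 1 * (f^4 * 1) * y) := by ring
          _ ≤ ρ * (2^24 * (A m)^2 * (A m) * (f^4 * f) * y) := by gcongr
          _ = ρ * (2^24 * (A m)^3 * f^5 * y) := by ring
          _ < 1 := f4
      · rw [Finset.mem_range]
        have h1 : (2:ℝ)^i ≤ (2:ℝ)^(C*5^m) := hiA
        rw [pow_le_pow_iff_right₀ (by norm_num)] at h1
        omega
    have actD : ∀ m j w, okD ρ (A m) (2^j) w → act m ∧ j ∈ Finset.range (C*5^m+1) := by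
      intro m j w hw
      have hAm := hA1 m
      have hi1 : (1:ℝ) ≤ (2:ℝ)^j := one_le_pow₀ (by norm_num)
      obtain ⟨g1, g2, g3, g4, g5, g6, g7⟩ := id hw
      have hjA : (2:ℝ)^j ≤ A m :=
        le_of_pow_le_pow_left₀ (by norm_num) (by linarith) (g3.trans g5)
      obtain ⟨f1, f2, f3, f4⟩ := factsD (ζ := ζ) hρ hi1 hjA hε0 hw
      set f := (2:ℝ)^j with hf
      have hb : (1:ℝ) ≤ (w.1:ℝ) := by exact_mod_cast g2
      have hc1 : (1:ℝ) ≤ |(w.2.1:ℝ)| := by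
        have h5 : w.2.1 ≠ 0 := by
          intro h0
          rw [h0] at g3
          simp only [Int.cast_zero, abs_zero, mul_zero] at g3
          have : 0 < f^4 := by positivity
          linarith
        have := Int.one_le_abs h5
        exact_mod_cast this
      have hbA : (w.1:ℝ) ≤ (A m)^4 := by nlinarith
      refine ⟨⟨?_, ?_⟩, ?_⟩
      · calc (1:ℝ) ≤ 2^40 * ρ * (A m)^2 * f^2 * w.1 := f2
          _ ≤ 2^40 * ρ * (A m)^2 * (A m)^2 * (A m)^4 := by gcongr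
          _ = 2^40 * ρ * (A m)^8 := by ring
      · have h7 : (1:ℝ) ≤ f^2 := one_le_pow₀ hi1
        calc ρ * δ * (2^20 * (A m)^2) ≤ ρ * 1 * (2^20 * (A m)^2) := by gcongr
          _ = ρ * (2^20 * (A m)^2 * 1 * 1) := by ring
          _ ≤ ρ * (2^24 * (A m)^2 * f^2 * w.1) := by gcongr <;> norm_num
          _ < 1 := f1
      · rw [Finset.mem_range]
        have h1 : (2:ℝ)^j ≤ (2:ℝ)^(C*5^m) := hjA
        rw [pow_le_pow_iff_right₀ (by norm_num)] at h1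
        omega
    -- no threat of an earlier stage contains the interval
    have HB : ∀ v : ℤ × ℤ, IsCoprime v.1 v.2 → 0 < v.1 → 65536 * ρ < 1/(8*(v.1:ℝ)^2) →
        ¬ (|x - (thB v).1| + ρ ≤ (thB v).2) := by
      intro v hv hv0 hlt
      obtain ⟨m, hm1, hm2⟩ := stB v hv hv0
      exact hno m (stage_lt hm2 hlt) _ hm1
    have HD : ∀ (j : ℕ) (w : ℤ × ℤ × ℤ), Prim w → 0 < w.1 →
        ((2:ℝ)^j)^4 ≤ (w.1:ℝ) * |(w.2.1:ℝ)| →
        (w.1:ℝ) * |(w.2.1:ℝ)| < 16 * ((2:ℝ)^j)^4 → (w.1:ℝ) * |(w.2.1:ℝ)| ≤ (A m0)^4 →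
        65536 * ρ < 1/(2^24 * (A m0)^2 * ((2:ℝ)^j)^2 * w.1) →
        ¬ (|x - (thD ζ ε (A m0) (2^j) w).1| + ρ ≤ (thD ζ ε (A m0) (2^j) w).2) := by
      intro j w h1 h2 h3 h4 h5 hlt
      obtain ⟨m, hm1, hm2⟩ := stD m0 j w h1 h2 h3 h4 h5
      exact hno m (stage_lt hm2 hlt) _ hm1
    have HP : ∀ (i : ℕ) (v : ℤ × ℤ × ℤ), Prim v → 0 < v.1 → ((2:ℝ)^i)^4 ≤ (v.1:ℝ) →
        (v.1:ℝ) < 16 * ((2:ℝ)^i)^4 → (v.1:ℝ) ≤ (A m0)^4 → |(v.2.1:ℝ) - ζ * v.1| < 1 →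
        65536 * ρ < 1/(2^24 * (A m0)^3 * ((2:ℝ)^i)^5 * |(v.2.1:ℝ) - ζ * v.1|) →
        ¬ (|x - (thP ζ ε (A m0) v).1| + ρ ≤ (thP ζ ε (A m0) v).2) := by
      intro i v h1 h2 h3 h4 h5 h6 hlt
      obtain ⟨m, hm1, hm2⟩ := stP m0 i v h1 h2 h3 h4 h5 h6
      exact hno m (stage_lt hm2 hlt) _ hm1
    -- the three parts
    have SB : Small ρ (thB '' {v | okB ρ v ∧ |(thB v).1 - x| < (thB v).2 + ρ}) (1/2^15) := by
      refine (small_of_card hρ {v | okB ρ v ∧ |(thB v).1 - x| < (thB v).2 + ρ} thB 1 ((1/32)^4)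
        (fun T hT => cardB ρ x hρ T hT) ?_ ?_ (by norm_num)).mono (fun t ht => ht) ?_
      · intro v hv
        obtain ⟨⟨h1, h2, h3, h4⟩, h5⟩ := hv
        have : (0:ℝ) < (v.1:ℝ) := by exact_mod_cast h2
        simp only [thB]; positivity
      · intro v hv
        obtain ⟨⟨h1, h2, h3, h4⟩, h5⟩ := hv
        have h6 : (0:ℝ) < (v.1:ℝ) := by exact_mod_cast h2
        have e : (thB v).2 = (1/(8 * (v.1:ℝ)^2)) * (1/2^36) := by
          simp only [thB]; field_simp; norm_num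
        rw [div_le_iff₀ hρ, e]
        nlinarith
      · rw [W_pow4 (by norm_num)]; norm_num
    have SP : Small ρ {t | ∃ i ∈ Finset.range (C*5^m0+1), t ∈ thP ζ ε (A m0) ''
        {v | okP ζ ρ (A m0) (2^i) v ∧ |(thP ζ ε (A m0) v).1 - x| < (thP ζ ε (A m0) v).2 + ρ}}
        (1/2^15) := by
      refine (Small.biUnion hρ (Finset.range (C*5^m0+1)) (fun i => thP ζ ε (A m0) ''
        {v | okP ζ ρ (A m0) (2^i) v ∧ |(thP ζ ε (A m0) v).1 - x| < (thP ζ ε (A m0) v).2 + ρ})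
        (fun i => ((N^8 : ℕ):ℝ) * W (2^40 * ε * ((2:ℝ)^i/2^(C*5^m0)))) ?_).mono (fun t ht => ht)
        (level_sum N (C*5^m0) 8 le_rfl hN47 ε hε)
      intro i hi
      have hi1 : (1:ℝ) ≤ (2:ℝ)^i := one_le_pow₀ (by norm_num)
      have hiA : (2:ℝ)^i ≤ A m0 := by
        refine pow_le_pow_right₀ (by norm_num) ?_
        have := Finset.mem_range.1 hi
        omega
      refine small_of_card hρ _ _ (N^8) _ (fun T hT => ?_) ?_ ?_ (by positivity)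
      · exact cardP ζ ρ x (A m0) (2^i) δ ε N hρ hi1 hiA hδ hbad hN47 hNδ hε HB HD T hT
      · intro v hv
        exact (factsP hρ hi1 hiA hδ hbad hε0 hv.1).2.2.2.2.2.1
      · intro v hv
        exact (factsP hρ hi1 hiA hδ hbad hε0 hv.1).2.2.2.2.2.2
    have SD : Small ρ {t | ∃ j ∈ Finset.range (C*5^m0+1), t ∈ thD ζ ε (A m0) (2^j) ''
        {w | okD ρ (A m0) (2^j) w ∧
          |(thD ζ ε (A m0) (2^j) w).1 - x| < (thD ζ ε (A m0) (2^j) w).2 + ρ}}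
        (1/2^15) := by
      refine (Small.biUnion hρ (Finset.range (C*5^m0+1)) (fun j => thD ζ ε (A m0) (2^j) ''
        {w | okD ρ (A m0) (2^j) w ∧
          |(thD ζ ε (A m0) (2^j) w).1 - x| < (thD ζ ε (A m0) (2^j) w).2 + ρ})
        (fun j => ((N^6 : ℕ):ℝ) * W (2^40 * ε * ((2:ℝ)^j/2^(C*5^m0)))) ?_).mono (fun t ht => ht)
        (level_sum N (C*5^m0) 6 (by norm_num) hN47 ε hε)
      intro i hi
      have hi1 : (1:ℝ) ≤ (2:ℝ)^i := one_le_pow₀ (by norm_num)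
      have hiA : (2:ℝ)^i ≤ A m0 := by
        refine pow_le_pow_right₀ (by norm_num) ?_
        have := Finset.mem_range.1 hi
        omega
      refine small_of_card hρ _ _ (N^6) _ (fun T hT => ?_) ?_ ?_ (by positivity)
      · exact cardD ζ ρ x (A m0) (2^i) δ ε N hρ hi1 hiA hδ hbad hN47 hε HP T hT
      · intro v hv
        exact (factsD hρ hi1 hiA hε0 hv.1).2.2.1
      · intro v hv
        exact (factsD hρ hi1 hiA hε0 hv.1).2.2.2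
    refine ((SB.union hρ SP).union hρ SD).mono ?_ (by norm_num)
    rintro t ⟨ht, hmeet⟩
    rcases ht with ⟨v, hv, rfl⟩ | ⟨m, i, v, hv, rfl⟩ | ⟨m, j, w, hw, rfl⟩
    · exact Or.inl (Or.inl ⟨v, ⟨hv, hmeet⟩, rfl⟩)
    · obtain ⟨h1, h2⟩ := actP m i v hv
      have := hm0 m h1
      subst this
      exact Or.inl (Or.inr ⟨i, h2, v, ⟨hv, hmeet⟩, rfl⟩)
    · obtain ⟨h1, h2⟩ := actD m j w hw
      have := hm0 m h1
      subst this
      exact Or.inr ⟨j, h2, w, ⟨hw, hmeet⟩, rfl⟩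
  obtain ⟨ξ, hξ⟩ := game Thr hfin
  refine ⟨ξ, ε, C, hε0, hC1, ?_, ?_⟩
  · intro v hv hv0
    obtain ⟨n, hn, _⟩ := stB v hv hv0
    exact hξ n _ hn
  · intro m v hv hv0 hvA hy
    have h1 : (1:ℝ) ≤ (v.1:ℝ) := by exact_mod_cast hv0
    obtain ⟨i, hi1, hi2⟩ := exists_pow16 _ h1
    obtain ⟨n, hn, _⟩ := stP m i v hv hv0 hi1 hi2 hvA hy
    exact hξ n _ hn

end Pool.Agent.H238R3.Fam
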