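import Pool.Agent.H238R3.Fam3

set_option autoImplicit false

/-!
# The two systems of threats together
-/

namespace Pool.Agent.H238R3.Fam

open Pool.Agent.H238R3.Lines Pool.Agent.H238R3.Game

theorem system1 (ζ δ : ℝ) (hδ : 0 < δ) (hδ1 : δ ≤ 1)
    (hbad : ∀ q p : ℤ, q ≠ 0 → δ ≤ |(q:ℝ)| * |(q:ℝ)*ζ - p|) :
    ∃ (Thr : ℕ → Set (ℝ × ℝ)) (ε : ℝ) (C : ℕ), 0 < ε ∧ 1 ≤ C ∧
      (∀ (n : ℕ) (x : ℝ), (∀ m < n, ∀ t ∈ Thr m, ¬ (|x - t.1| + rho n ≤ t.2)) →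
        Small (rho n) {t | t ∈ Thr n ∧ |t.1 - x| < t.2 + rho n} (3/2^15)) ∧
      ∀ ξ : ℝ, (∀ n, ∀ t ∈ Thr n, t.2 ≤ |ξ - t.1|) →
      (∀ v : ℤ × ℤ, IsCoprime v.1 v.2 → 0 < v.1 → (thB v).2 ≤ |ξ - (thB v).1|) ∧
      ∀ (m : ℕ) (v : ℤ × ℤ × ℤ), Prim v → 0 < v.1 → (v.1:ℝ) ≤ ((2:ℝ)^(C*5^m))^4 →
        |(v.2.1:ℝ) - ζ * v.1| < 1 →
        (thP ζ ε ((2:ℝ)^(C*5^m)) v).2 ≤ |ξ - (thP ζ ε ((2:ℝ)^(C*5^m)) v).1| := by
  classical
  obtain ⟨N, hN⟩ := exists_nat_ge (max (2^47) (1/δ))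
  have hN47 : 2^47 ≤ (N:ℝ) := (le_max_left _ _).trans hN
  have hNδ : 1 ≤ (N:ℝ) * δ := by
    have := (le_max_right _ _).trans hN
    rwa [div_le_iff₀ hδ] at this
  have hN0 : (0:ℝ) < N := by linarith [show (0:ℝ) < 2^47 by positivity]
  obtain ⟨ε, hε⟩ : ∃ ε : ℝ, ε = 1/(N:ℝ)^12 := ⟨_, rfl⟩
  have hε0 : 0 < ε := by rw [hε]; positivity
  obtain ⟨C, hC⟩ := pow_unbounded_of_one_lt (2^20/δ) (show (1:ℝ) < 2 by norm_num)
  have hC1 : 1 ≤ C := by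
    rcases Nat.eq_zero_or_pos C with h | h
    · rw [h, pow_zero, div_lt_one hδ] at hC
      linarith [show (1:ℝ) ≤ 2^20 by norm_num]
    · exact h
  set A : ℕ → ℝ := fun m => (2:ℝ)^(C*5^m) with hA
  have hAC : ∀ m, 2^20/δ ≤ A m := by
    intro m
    refine hC.le.trans ?_
    refine pow_le_pow_right₀ (by norm_num) ?_
    exact Nat.le_mul_of_pos_right C (by positivity)
  have hA1 : ∀ m, 1 ≤ A m := fun m => one_le_pow₀ (by norm_num)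
  have hAδ : ∀ m, 2^20 ≤ A m * δ := by
    intro m
    have := hAC m
    rwa [div_le_iff₀ hδ] at this
  let Thr : ℕ → Set (ℝ × ℝ) := fun n =>
    {t | (∃ v, okB (rho n) v ∧ t = thB v) ∨
      (∃ m i v, okP ζ (rho n) (A m) (2^i) v ∧ t = thP ζ ε (A m) v) ∨
      (∃ m j w, okD (rho n) (A m) (2^j) w ∧ t = thD ζ ε (A m) (2^j) w)}
  -- stages of the threats
  have stB : ∀ v : ℤ × ℤ, IsCoprime v.1 v.2 → 0 < v.1 → ∃ n, thB v ∈ Thr n ∧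
      1/(8 * (v.1:ℝ)^2) ≤ 65536 * rho n := by
    intro v hv hv0
    have h1 : (1:ℝ) ≤ (v.1:ℝ) := by exact_mod_cast hv0
    have h2 : (1:ℝ) ≤ (v.1:ℝ)^2 := one_le_pow₀ h1
    obtain ⟨n, hn1, hn2⟩ := exists_stage (1/(8 * (v.1:ℝ)^2)) (by positivity)
      ((div_le_one (by positivity)).2 (by linarith))
    exact ⟨n, Or.inl ⟨v, ⟨hv, hv0, hn1, hn2⟩, rfl⟩, hn2⟩
  have stP : ∀ (m i : ℕ) (v : ℤ × ℤ × ℤ), Prim v → 0 < v.1 → ((2:ℝ)^i)^4 ≤ (v.1:ℝ) →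
      (v.1:ℝ) < 16 * ((2:ℝ)^i)^4 → (v.1:ℝ) ≤ (A m)^4 → |(v.2.1:ℝ) - ζ * v.1| < 1 →
      ∃ n, thP ζ ε (A m) v ∈ Thr n ∧
        1/(2^24 * (A m)^3 * ((2:ℝ)^i)^5 * |(v.2.1:ℝ) - ζ * v.1|) ≤ 65536 * rho n := by
    intro m i v hv hv0 h1 h2 h3 h4
    have hq : (0:ℝ) < (v.1:ℝ) := by exact_mod_cast hv0
    have hb := hbad v.1 v.2.1 (by omega)
    rw [abs_of_pos hq, show (v.1:ℝ)*ζ - v.2.1 = -((v.2.1:ℝ) - ζ * v.1) by ring, abs_neg] at hb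
    set y := |(v.2.1:ℝ) - ζ * v.1| with hy
    have hy0 : 0 < y := by
      by_contra hneg
      push Not at hneg
      nlinarith
    have hAm := hA1 m
    have hi1 : (1:ℝ) ≤ (2:ℝ)^i := one_le_pow₀ (by norm_num)
    set f := (2:ℝ)^i with hf
    have h5 : δ ≤ 16 * f^4 * y := hb.trans (mul_le_mul_of_nonneg_right h2.le hy0.le)
    have h6 : 1 ≤ 2^24 * (A m)^3 * f^5 * y := by
      have h7 : 1 ≤ A m * δ := le_trans (by norm_num) (hAδ m)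
      have h8 : 1 ≤ (A m)^2 := one_le_pow₀ hAm
      calc (1:ℝ) ≤ A m * δ := h7
        _ ≤ A m * (16 * f^4 * y) := by gcongr
        _ = (16 * 1 * A m) * 1 * f^4 * y := by ring
        _ ≤ (2^24 * (A m)^2 * A m) * f * f^4 * y := by gcongr; norm_num
        _ = 2^24 * (A m)^3 * f^5 * y := by ring
    obtain ⟨n, hn1, hn2⟩ := exists_stage (1/(2^24 * (A m)^3 * f^5 * y)) (by positivity)
      ((div_le_one (by positivity)).2 h6)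
    exact ⟨n, Or.inr (Or.inl ⟨m, i, v, ⟨hv, h1, h2, h3, h4, hn1, hn2⟩, rfl⟩), hn2⟩
  have stD : ∀ (m j : ℕ) (w : ℤ × ℤ × ℤ), Prim w → 0 < w.1 → ((2:ℝ)^j)^4 ≤ (w.1:ℝ) * |(w.2.1:ℝ)| →
      (w.1:ℝ) * |(w.2.1:ℝ)| < 16 * ((2:ℝ)^j)^4 → (w.1:ℝ) * |(w.2.1:ℝ)| ≤ (A m)^4 →
      ∃ n, thD ζ ε (A m) (2^j) w ∈ Thr n ∧
        1/(2^24 * (A m)^2 * ((2:ℝ)^j)^2 * w.1) ≤ 65536 * rho n := by
    intro m j w hw hw0 h1 h2 h3
    have hb : (1:ℝ) ≤ (w.1:ℝ) := by exact_mod_cast hw0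
    have hAm := hA1 m
    have hi1 : (1:ℝ) ≤ (2:ℝ)^j := one_le_pow₀ (by norm_num)
    have h6 : 1 ≤ 2^24 * (A m)^2 * ((2:ℝ)^j)^2 * w.1 := by
      have h7 : (1:ℝ) ≤ (A m)^2 := one_le_pow₀ hAm
      have h8 : (1:ℝ) ≤ ((2:ℝ)^j)^2 := one_le_pow₀ hi1
      calc (1:ℝ) ≤ 2^24 * 1 * 1 * 1 := by norm_num
        _ ≤ 2^24 * (A m)^2 * ((2:ℝ)^j)^2 * w.1 := by gcongr
    obtain ⟨n, hn1, hn2⟩ := exists_stage (1/(2^24 * (A m)^2 * ((2:ℝ)^j)^2 * w.1)) (by positivity)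
      ((div_le_one (by positivity)).2 h6)
    exact ⟨n, Or.inr (Or.inr ⟨m, j, w, ⟨hw, hw0, h1, h2, h3, hn1, hn2⟩, rfl⟩), hn2⟩
  have hfin : ∀ (n : ℕ) (x : ℝ),
      (∀ m < n, ∀ t ∈ Thr m, ¬ (|x - t.1| + rho n ≤ t.2)) →
      Small (rho n) {t | t ∈ Thr n ∧ |t.1 - x| < t.2 + rho n} (3/2^15) := by
    intro n x hno
    have hρ := rho_pos n
    set ρ := rho n with hρdef
    -- the active level
    let act : ℕ → Prop := fun m => 1 ≤ 2^40 * ρ * (A m)^8 ∧ ρ * δ * (2^20 * (A m)^2) < 1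
    have hlt : ∀ m m', act m → act m' → ¬ (m < m') := by
      intro m m' h h' hmm
      have h1 := h.1
      have h2 := h'.2
      have h3 : (A m)^5 ≤ A m' := by
        simp only [hA]
        rw [← pow_mul]
        refine pow_le_pow_right₀ (by norm_num) ?_
        rw [mul_assoc, ← pow_succ]
        exact Nat.mul_le_mul_left C (Nat.pow_le_pow_right (by norm_num) hmm)
      have hAm := hA1 m
      have h4 : (A m)^10 ≤ (A m')^2 := by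
        calc (A m)^10 = ((A m)^5)^2 := by ring
          _ ≤ (A m')^2 := by gcongr
      have h5 : ρ * δ * (2^20 * (A m)^10) < 1 := by
        refine lt_of_le_of_lt ?_ h2
        gcongr
      have h6 : 2^20 ≤ A m ^ 2 * δ := by
        have := hAδ m
        nlinarith
      have h7 : (1:ℝ) ≤ ρ * δ * (2^20 * (A m)^10) := by
        calc (1:ℝ) ≤ 2^40 * ρ * (A m)^8 := h1
          _ = (2^20 * ρ * (A m)^8) * 2^20 := by ring
          _ ≤ (2^20 * ρ * (A m)^8) * (A m ^ 2 * δ) := by gcongr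
          _ = ρ * δ * (2^20 * (A m)^10) := by ring
      linarith
    obtain ⟨m0, hm0⟩ : ∃ m0, ∀ m, act m → m = m0 := by
      by_cases h : ∃ m, act m
      · obtain ⟨m0, hm0⟩ := h
        refine ⟨m0, fun m hm => ?_⟩
        have h1 := hlt m m0 hm hm0
        have h2 := hlt m0 m hm0 hm
        omega
      · push Not at h
        exact ⟨0, fun m hm => absurd hm (h m)⟩
    have hAm := hA1 m0
    have actP : ∀ m i v, okP ζ ρ (A m) (2^i) v → act m ∧ i ∈ Finset.range (C*5^m+1) := by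
      intro m i v hv
      have hAm := hA1 m
      have hi1 : (1:ℝ) ≤ (2:ℝ)^i := one_le_pow₀ (by norm_num)
      obtain ⟨g1, g2, g3, g4, g5, g6, g7⟩ := id hv
      have hiA : (2:ℝ)^i ≤ A m :=
        le_of_pow_le_pow_left₀ (by norm_num) (by linarith) (g2.trans g4)
      obtain ⟨f1, f2, f3, f4, f5, f6, f7⟩ := factsP hρ hi1 hiA hδ hbad hε0 hv
      set y := |(v.2.1:ℝ) - ζ * v.1| with hy
      set f := (2:ℝ)^i with hf
      refine ⟨⟨?_, ?_⟩, ?_⟩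
      · calc (1:ℝ) ≤ 2^40 * ρ * (A m)^3 * f^5 * y := f5
          _ ≤ 2^40 * ρ * (A m)^3 * (A m)^5 * 1 := by gcongr
          _ = 2^40 * ρ * (A m)^8 := by ring
      · have h5 : δ ≤ 16 * f^4 * y := f3.trans (mul_le_mul_of_nonneg_right g3.le f2.le)
        calc ρ * δ * (2^20 * (A m)^2) ≤ ρ * (16 * f^4 * y) * (2^20 * (A m)^2) := by gcongr
          _ = ρ * (2^24 * (A m)^2 * 1 * (f^4 * 1) * y) := by ring
          _ ≤ ρ * (2^24 * (A m)^2 * (A m) * (f^4 * f) * y) := by gcongr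
          _ = ρ * (2^24 * (A m)^3 * f^5 * y) := by ring
          _ < 1 := f4
      · rw [Finset.mem_range]
        have h1 : (2:ℝ)^i ≤ (2:ℝ)^(C*5^m) := hiA
        rw [pow_le_pow_iff_right₀ (by norm_num)] at h1
        omega
    have actD : ∀ m j w, okD ρ (A m) (2^j) w → act m ∧ j ∈ Finset.range (C*5^m+1) := by
      intro m j w hw
      have hAm := hA1 m
      have hi1 : (1:ℝ) ≤ (2:ℝ)^j := one_le_pow₀ (by norm_num)
      obtain ⟨g1, g2, g3, g4, g5, g6, g7⟩ := id hw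
      have hjA : (2:ℝ)^j ≤ A m :=
        le_of_pow_le_pow_left₀ (by norm_num) (by linarith) (g3.trans g5)
      obtain ⟨f1, f2, f3, f4⟩ := factsD (ζ := ζ) hρ hi1 hjA hε0 hw
      set f := (2:ℝ)^j with hf
      have hb : (1:ℝ) ≤ (w.1:ℝ) := by exact_mod_cast g2
      have hc1 : (1:ℝ) ≤ |(w.2.1:ℝ)| := by
        have h5 : w.2.1 ≠ 0 := by
          intro h0
          rw [h0] at g3
          simp only [Int.cast_zero, abs_zero, mul_zero] at g3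
          have : 0 < f^4 := by positivity
          linarith
        have := Int.one_le_abs h5
        exact_mod_cast this
      have hbA : (w.1:ℝ) ≤ (A m)^4 := by nlinarith
      refine ⟨⟨?_, ?_⟩, ?_⟩
      · calc (1:ℝ) ≤ 2^40 * ρ * (A m)^2 * f^2 * w.1 := f2
          _ ≤ 2^40 * ρ * (A m)^2 * (A m)^2 * (A m)^4 := by gcongr
          _ = 2^40 * ρ * (A m)^8 := by ring
      · have h7 : (1:ℝ) ≤ f^2 := one_le_pow₀ hi1
        calc ρ * δ * (2^20 * (A m)^2) ≤ ρ * 1 * (2^20 * (A m)^2) := by gcongr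
          _ = ρ * (2^20 * (A m)^2 * 1 * 1) := by ring
          _ ≤ ρ * (2^24 * (A m)^2 * f^2 * w.1) := by gcongr <;> norm_num
          _ < 1 := f1
      · rw [Finset.mem_range]
        have h1 : (2:ℝ)^j ≤ (2:ℝ)^(C*5^m) := hjA
        rw [pow_le_pow_iff_right₀ (by norm_num)] at h1
        omega
    -- no threat of an earlier stage contains the interval
    have HB : ∀ v : ℤ × ℤ, IsCoprime v.1 v.2 → 0 < v.1 → 65536 * ρ < 1/(8*(v.1:ℝ)^2) →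
        ¬ (|x - (thB v).1| + ρ ≤ (thB v).2) := by
      intro v hv hv0 hlt
      obtain ⟨m, hm1, hm2⟩ := stB v hv hv0
      exact hno m (stage_lt hm2 hlt) _ hm1
    have HD : ∀ (j : ℕ) (w : ℤ × ℤ × ℤ), Prim w → 0 < w.1 →
        ((2:ℝ)^j)^4 ≤ (w.1:ℝ) * |(w.2.1:ℝ)| →
        (w.1:ℝ) * |(w.2.1:ℝ)| < 16 * ((2:ℝ)^j)^4 → (w.1:ℝ) * |(w.2.1:ℝ)| ≤ (A m0)^4 →
        65536 * ρ < 1/(2^24 * (A m0)^2 * ((2:ℝ)^j)^2 * w.1) →
        ¬ (|x - (thD ζ ε (A m0) (2^j) w).1| + ρ ≤ (thD ζ ε (A m0) (2^j) w).2) := by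
      intro j w h1 h2 h3 h4 h5 hlt
      obtain ⟨m, hm1, hm2⟩ := stD m0 j w h1 h2 h3 h4 h5
      exact hno m (stage_lt hm2 hlt) _ hm1
    have HP : ∀ (i : ℕ) (v : ℤ × ℤ × ℤ), Prim v → 0 < v.1 → ((2:ℝ)^i)^4 ≤ (v.1:ℝ) →
        (v.1:ℝ) < 16 * ((2:ℝ)^i)^4 → (v.1:ℝ) ≤ (A m0)^4 → |(v.2.1:ℝ) - ζ * v.1| < 1 →
        65536 * ρ < 1/(2^24 * (A m0)^3 * ((2:ℝ)^i)^5 * |(v.2.1:ℝ) - ζ * v.1|) →
        ¬ (|x - (thP ζ ε (A m0) v).1| + ρ ≤ (thP ζ ε (A m0) v).2) := by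
      intro i v h1 h2 h3 h4 h5 h6 hlt
      obtain ⟨m, hm1, hm2⟩ := stP m0 i v h1 h2 h3 h4 h5 h6
      exact hno m (stage_lt hm2 hlt) _ hm1
    -- the three parts
    have SB : Small ρ (thB '' {v | okB ρ v ∧ |(thB v).1 - x| < (thB v).2 + ρ}) (1/2^15) := by
      refine (small_of_card hρ {v | okB ρ v ∧ |(thB v).1 - x| < (thB v).2 + ρ} thB 1 ((1/32)^4)
        (fun T hT => cardB ρ x hρ T hT) ?_ ?_ (by norm_num)).mono (fun t ht => ht) ?_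
      · intro v hv
        obtain ⟨⟨h1, h2, h3, h4⟩, h5⟩ := hv
        have : (0:ℝ) < (v.1:ℝ) := by exact_mod_cast h2
        simp only [thB]; positivity
      · intro v hv
        obtain ⟨⟨h1, h2, h3, h4⟩, h5⟩ := hv
        have h6 : (0:ℝ) < (v.1:ℝ) := by exact_mod_cast h2
        have e : (thB v).2 = (1/(8 * (v.1:ℝ)^2)) * (1/2^36) := by
          simp only [thB]; field_simp; norm_num
        rw [div_le_iff₀ hρ, e]
        nlinarith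
      · rw [W_pow4 (by norm_num)]; norm_num
    have SP : Small ρ {t | ∃ i ∈ Finset.range (C*5^m0+1), t ∈ thP ζ ε (A m0) ''
        {v | okP ζ ρ (A m0) (2^i) v ∧ |(thP ζ ε (A m0) v).1 - x| < (thP ζ ε (A m0) v).2 + ρ}}
        (1/2^15) := by
      refine (Small.biUnion hρ (Finset.range (C*5^m0+1)) (fun i => thP ζ ε (A m0) ''
        {v | okP ζ ρ (A m0) (2^i) v ∧ |(thP ζ ε (A m0) v).1 - x| < (thP ζ ε (A m0) v).2 + ρ})
        (fun i => ((N^8 : ℕ):ℝ) * W (2^40 * ε * ((2:ℝ)^i/2^(C*5^m0)))) ?_).mono (fun t ht => ht)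
        (level_sum N (C*5^m0) 8 le_rfl hN47 ε hε)
      intro i hi
      have hi1 : (1:ℝ) ≤ (2:ℝ)^i := one_le_pow₀ (by norm_num)
      have hiA : (2:ℝ)^i ≤ A m0 := by
        refine pow_le_pow_right₀ (by norm_num) ?_
        have := Finset.mem_range.1 hi
        omega
      refine small_of_card hρ _ _ (N^8) _ (fun T hT => ?_) ?_ ?_ (by positivity)
      · exact cardP ζ ρ x (A m0) (2^i) δ ε N hρ hi1 hiA hδ hbad hN47 hNδ hε HB HD T hT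
      · intro v hv
        exact (factsP hρ hi1 hiA hδ hbad hε0 hv.1).2.2.2.2.2.1
      · intro v hv
        exact (factsP hρ hi1 hiA hδ hbad hε0 hv.1).2.2.2.2.2.2
    have SD : Small ρ {t | ∃ j ∈ Finset.range (C*5^m0+1), t ∈ thD ζ ε (A m0) (2^j) ''
        {w | okD ρ (A m0) (2^j) w ∧
          |(thD ζ ε (A m0) (2^j) w).1 - x| < (thD ζ ε (A m0) (2^j) w).2 + ρ}}
        (1/2^15) := by
      refine (Small.biUnion hρ (Finset.range (C*5^m0+1)) (fun j => thD ζ ε (A m0) (2^j) ''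
        {w | okD ρ (A m0) (2^j) w ∧
          |(thD ζ ε (A m0) (2^j) w).1 - x| < (thD ζ ε (A m0) (2^j) w).2 + ρ})
        (fun j => ((N^6 : ℕ):ℝ) * W (2^40 * ε * ((2:ℝ)^j/2^(C*5^m0)))) ?_).mono (fun t ht => ht)
        (level_sum N (C*5^m0) 6 (by norm_num) hN47 ε hε)
      intro i hi
      have hi1 : (1:ℝ) ≤ (2:ℝ)^i := one_le_pow₀ (by norm_num)
      have hiA : (2:ℝ)^i ≤ A m0 := by
        refine pow_le_pow_right₀ (by norm_num) ?_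
        have := Finset.mem_range.1 hi
        omega
      refine small_of_card hρ _ _ (N^6) _ (fun T hT => ?_) ?_ ?_ (by positivity)
      · exact cardD ζ ρ x (A m0) (2^i) δ ε N hρ hi1 hiA hδ hbad hN47 hε HP T hT
      · intro v hv
        exact (factsD hρ hi1 hiA hε0 hv.1).2.2.1
      · intro v hv
        exact (factsD hρ hi1 hiA hε0 hv.1).2.2.2
    refine ((SB.union hρ SP).union hρ SD).mono ?_ (by norm_num)
    rintro t ⟨ht, hmeet⟩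
    rcases ht with ⟨v, hv, rfl⟩ | ⟨m, i, v, hv, rfl⟩ | ⟨m, j, w, hw, rfl⟩
    · exact Or.inl (Or.inl ⟨v, ⟨hv, hmeet⟩, rfl⟩)
    · obtain ⟨h1, h2⟩ := actP m i v hv
      have := hm0 m h1
      subst this
      exact Or.inl (Or.inr ⟨i, h2, v, ⟨hv, hmeet⟩, rfl⟩)
    · obtain ⟨h1, h2⟩ := actD m j w hw
      have := hm0 m h1
      subst this
      exact Or.inr ⟨j, h2, w, ⟨hw, hmeet⟩, rfl⟩
  refine ⟨Thr, ε, C, hε0, hC1, hfin, fun ξ hξ => ⟨?_, ?_⟩⟩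
  · intro v hv hv0
    obtain ⟨n, hn, _⟩ := stB v hv hv0
    exact hξ n _ hn
  · intro m v hv hv0 hvA hy
    have h1 : (1:ℝ) ≤ (v.1:ℝ) := by exact_mod_cast hv0
    obtain ⟨i, hi1, hi2⟩ := exists_pow16 _ h1
    obtain ⟨n, hn, _⟩ := stP m i v hv hv0 hi1 hi2 hvA hy
    exact hξ n _ hn

theorem system2 (ζ δ : ℝ) (hδ : 0 < δ)
    (hbad : ∀ q p : ℤ, q ≠ 0 → δ ≤ |(q:ℝ)| * |(q:ℝ)*ζ - p|) :
    ∃ (Thr : ℕ → Set (ℝ × ℝ)) (κ : ℝ), 0 < κ ∧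
      (∀ (n : ℕ) (x : ℝ), (∀ m < n, ∀ t ∈ Thr m, ¬ (|x - t.1| + rho n ≤ t.2)) →
        Small (rho n) {t | t ∈ Thr n ∧ |t.1 - x| < t.2 + rho n} (1/2^15)) ∧
      ∀ ξ : ℝ, (∀ n, ∀ t ∈ Thr n, t.2 ≤ |ξ - t.1|) →
      ∀ (v : ℤ × ℤ × ℤ), Prim v → 0 < v.1 →
        κ ≤ Real.sqrt (v.1:ℝ) * max |(v.2.1:ℝ) - ζ * v.1| |(v.1:ℝ) * ξ - v.2.2| := by
  classical
  obtain ⟨N, hN⟩ := exists_nat_ge (max (2^60) (1/δ))
  have hN60 : 2^60 ≤ (N:ℝ) := (le_max_left _ _).trans hN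
  have hN47 : 2^47 ≤ (N:ℝ) := le_trans (by norm_num) hN60
  have hNδ : 1 ≤ (N:ℝ) * δ := by
    have := (le_max_right _ _).trans hN
    rwa [div_le_iff₀ hδ] at this
  have hN0 : (0:ℝ) < N := by linarith [show (0:ℝ) < 2^47 by positivity]
  have hN1 : (1:ℝ) ≤ N := by linarith [show (1:ℝ) ≤ 2^47 by norm_num]
  obtain ⟨κ, hκ⟩ : ∃ κ : ℝ, κ = 1/(N:ℝ)^12 := ⟨_, rfl⟩
  obtain ⟨κ3, hκ3⟩ : ∃ κ3 : ℝ, κ3 = 1/(N:ℝ)^24 := ⟨_, rfl⟩
  have hκ0 : 0 < κ := by rw [hκ]; positivity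
  have hκ30 : 0 < κ3 := by rw [hκ3]; positivity
  have hκδ : 4 * κ ≤ δ := by
    have h1 : κ * N ≤ δ * N * κ * N := by
      calc κ * N = 1 * (κ * N) := (one_mul _).symm
        _ ≤ (N * δ) * (κ * N) := by gcongr
        _ = δ * N * κ * N := by ring
    have h2 : 4 * (κ * N) ≤ 1 := by
      rw [hκ]
      have : (1/(N:ℝ)^12) * N = 1/(N:ℝ)^11 := by field_simp
      rw [this, mul_one_div, div_le_one (by positivity)]
      calc (4:ℝ) ≤ 2^47 := by norm_num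
        _ ≤ (N:ℝ) := hN47
        _ = (N:ℝ)^1 := (pow_one _).symm
        _ ≤ (N:ℝ)^11 := pow_le_pow_right₀ hN1 (by norm_num)
    nlinarith
  let Thr : ℕ → Set (ℝ × ℝ) := fun n =>
    {t | (∃ i l v, okP2 ζ (rho n) κ (2^i) (2^l) v ∧ t = thP2 κ (2^i) v) ∨
      (∃ i d w, okD2 (rho n) (2^i) (2^(i+d)) w ∧ t = thD2 ζ κ3 w)}
  -- g ≤ f for points
  have hgf : ∀ (i l : ℕ) (v : ℤ × ℤ × ℤ), 0 < v.1 → (v.1:ℝ) < 4 * ((2:ℝ)^i)^2 →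
      (2:ℝ)^i * ((2:ℝ)^l)^3 * |(v.2.1:ℝ) - ζ * v.1| ≤ κ → ((2:ℝ)^l)^3 ≤ (2:ℝ)^i := by
    intro i l v hv0 h1 h2
    have hq : (0:ℝ) < (v.1:ℝ) := by exact_mod_cast hv0
    have hb := hbad v.1 v.2.1 (by omega)
    rw [abs_of_pos hq, show (v.1:ℝ)*ζ - v.2.1 = -((v.2.1:ℝ) - ζ * v.1) by ring, abs_neg] at hb
    set y := |(v.2.1:ℝ) - ζ * v.1| with hy
    have hy0 : 0 < y := by
      by_contra hneg
      push Not at hneg
      nlinarith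
    set f := (2:ℝ)^i with hf
    set g := (2:ℝ)^l with hg
    have hf0 : 0 < f := by rw [hf]; positivity
    have hg0 : 0 < g := by rw [hg]; positivity
    have h3 : δ ≤ 4 * f^2 * y := hb.trans (mul_le_mul_of_nonneg_right h1.le hy0.le)
    have h4 : δ * g^3 ≤ δ * f := by
      calc δ * g^3 ≤ (4 * f^2 * y) * g^3 := by gcongr
        _ = 4 * (f * g^3 * y) * f := by ring
        _ ≤ 4 * κ * f := by gcongr
        _ ≤ δ * f := by gcongr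
    exact le_of_mul_le_mul_left h4 hδ
  have stP : ∀ (i l : ℕ) (v : ℤ × ℤ × ℤ), Prim v → 0 < v.1 → ((2:ℝ)^i)^2 ≤ (v.1:ℝ) →
      (v.1:ℝ) < 4 * ((2:ℝ)^i)^2 → κ < 8 * (2:ℝ)^i * ((2:ℝ)^l)^3 * |(v.2.1:ℝ) - ζ * v.1| →
      (2:ℝ)^i * ((2:ℝ)^l)^3 * |(v.2.1:ℝ) - ζ * v.1| ≤ κ →
      ∃ n, thP2 κ (2^i) v ∈ Thr n ∧ (2:ℝ)^l/((2:ℝ)^i)^3 ≤ 65536 * rho n := by
    intro i l v hv hv0 h1 h2 h3 h4
    have h5 := hgf i l v hv0 h2 h4
    have hf1 : (1:ℝ) ≤ (2:ℝ)^i := one_le_pow₀ (by norm_num)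
    have hg1 : (1:ℝ) ≤ (2:ℝ)^l := one_le_pow₀ (by norm_num)
    have h6 : (2:ℝ)^l/((2:ℝ)^i)^3 ≤ 1 := by
      rw [div_le_one (by positivity)]
      calc (2:ℝ)^l = ((2:ℝ)^l)^1 := (pow_one _).symm
        _ ≤ ((2:ℝ)^l)^3 := pow_le_pow_right₀ hg1 (by norm_num)
        _ ≤ (2:ℝ)^i := h5
        _ = ((2:ℝ)^i)^1 := (pow_one _).symm
        _ ≤ ((2:ℝ)^i)^3 := pow_le_pow_right₀ hf1 (by norm_num)
    obtain ⟨n, hn1, hn2⟩ := exists_stage ((2:ℝ)^l/((2:ℝ)^i)^3) (by positivity) h6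
    exact ⟨n, Or.inl ⟨i, l, v, ⟨hv, hv0, h1, h2, h3, h4, hn1, hn2⟩, rfl⟩, hn2⟩
  have stD : ∀ (i j : ℕ) (w : ℤ × ℤ × ℤ), Prim w → 0 < w.1 → ((2:ℝ)^i)^2 ≤ (w.1:ℝ) →
      (w.1:ℝ) < 4 * ((2:ℝ)^i)^2 → ((2:ℝ)^j)^2 ≤ max (w.1:ℝ) |(w.2.1:ℝ)| →
      max (w.1:ℝ) |(w.2.1:ℝ)| < 4 * ((2:ℝ)^j)^2 →
      ∃ n, thD2 ζ κ3 w ∈ Thr n ∧ 1/(1024 * ((2:ℝ)^i)^3 * ((2:ℝ)^j)^3) ≤ 65536 * rho n := by
    intro i j w hw hw0 h1 h2 h3 h4
    have hf1 : (1:ℝ) ≤ (2:ℝ)^i := one_le_pow₀ (by norm_num)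
    have hg1 : (1:ℝ) ≤ (2:ℝ)^j := one_le_pow₀ (by norm_num)
    have hij : i ≤ j := by
      have h5 : ((2:ℝ)^i)^2 < 4 * ((2:ℝ)^j)^2 := by
        have := le_max_left (w.1:ℝ) |(w.2.1:ℝ)|
        linarith
      have h6 : (2:ℝ)^i < 2 * (2:ℝ)^j := by
        by_contra hge
        push Not at hge
        have h7 : 0 ≤ 2 * (2:ℝ)^j := by positivity
        nlinarith
      have h7 : (2:ℝ)^i < (2:ℝ)^(j+1) := by rw [pow_succ]; linarith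
      rw [pow_lt_pow_iff_right₀ (by norm_num)] at h7
      omega
    obtain ⟨d, rfl⟩ := Nat.exists_eq_add_of_le hij
    have h6 : 1/(1024 * ((2:ℝ)^i)^3 * ((2:ℝ)^(i+d))^3) ≤ 1 := by
      rw [div_le_one (by positivity)]
      have h7 : 1 ≤ ((2:ℝ)^i)^3 := one_le_pow₀ hf1
      have h8 : 1 ≤ ((2:ℝ)^(i+d))^3 := one_le_pow₀ hg1
      nlinarith
    obtain ⟨n, hn1, hn2⟩ := exists_stage (1/(1024 * ((2:ℝ)^i)^3 * ((2:ℝ)^(i+d))^3))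
      (by positivity) h6
    exact ⟨n, Or.inr ⟨i, d, w, ⟨hw, hw0, h1, h2, h3, h4, hn1, hn2⟩, rfl⟩, hn2⟩
  have hfin : ∀ (n : ℕ) (x : ℝ),
      (∀ m < n, ∀ t ∈ Thr m, ¬ (|x - t.1| + rho n ≤ t.2)) →
      Small (rho n) {t | t ∈ Thr n ∧ |t.1 - x| < t.2 + rho n} (1/2^15) := by
    intro n x hno
    have hρ := rho_pos n
    set ρ := rho n with hρdef
    have HD : ∀ (i j : ℕ) (w : ℤ × ℤ × ℤ), Prim w → 0 < w.1 → ((2:ℝ)^i)^2 ≤ (w.1:ℝ) →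
        (w.1:ℝ) < 4 * ((2:ℝ)^i)^2 → ((2:ℝ)^j)^2 ≤ max (w.1:ℝ) |(w.2.1:ℝ)| →
        max (w.1:ℝ) |(w.2.1:ℝ)| < 4 * ((2:ℝ)^j)^2 →
        65536 * ρ < 1/(1024 * ((2:ℝ)^i)^3 * ((2:ℝ)^j)^3) →
        ¬ (|x - (thD2 ζ κ3 w).1| + ρ ≤ (thD2 ζ κ3 w).2) := by
      intro i j w h1 h2 h3 h4 h5 h6 hlt
      obtain ⟨m, hm1, hm2⟩ := stD i j w h1 h2 h3 h4 h5 h6
      exact hno m (stage_lt hm2 hlt) _ hm1
    have HP : ∀ (i l : ℕ) (v : ℤ × ℤ × ℤ), Prim v → 0 < v.1 → ((2:ℝ)^i)^2 ≤ (v.1:ℝ) →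
        (v.1:ℝ) < 4 * ((2:ℝ)^i)^2 → κ < 8 * (2:ℝ)^i * ((2:ℝ)^l)^3 * |(v.2.1:ℝ) - ζ * v.1| →
        (2:ℝ)^i * ((2:ℝ)^l)^3 * |(v.2.1:ℝ) - ζ * v.1| ≤ κ →
        65536 * ρ < (2:ℝ)^l/((2:ℝ)^i)^3 →
        ¬ (|x - (thP2 κ (2^i) v).1| + ρ ≤ (thP2 κ (2^i) v).2) := by
      intro i l v h1 h2 h3 h4 h5 h6 hlt
      obtain ⟨m, hm1, hm2⟩ := stP i l v h1 h2 h3 h4 h5 h6
      exact hno m (stage_lt hm2 hlt) _ hm1
    obtain ⟨I, hI⟩ := pow_unbounded_of_one_lt (1/ρ) (show (1:ℝ) < 2 by norm_num)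
    have hIρ : 1 < 2^I * ρ := by rwa [div_lt_iff₀ hρ] at hI
    have SP : Small ρ {p | ∃ i ∈ Finset.range I, ∃ l ∈ Finset.range I,
        ρ < (2:ℝ)^l/((2:ℝ)^i)^3 ∧ (2:ℝ)^l/((2:ℝ)^i)^3 ≤ 65536 * ρ ∧ p ∈ thP2 κ (2^i) ''
        {v | okP2 ζ ρ κ (2^i) (2^l) v ∧ |(thP2 κ (2^i) v).1 - x| < (thP2 κ (2^i) v).2 + ρ}}
        (15 * ((N^5 : ℕ) * W (65536 * κ))) := by
      refine class_sum hρ I (N^5) (65536 * κ) (by positivity)
        (fun i l => (2:ℝ)^l/((2:ℝ)^i)^3) ?_ (fun i l => thP2 κ (2^i) ''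
        {v | okP2 ζ ρ κ (2^i) (2^l) v ∧ |(thP2 κ (2^i) v).1 - x| < (thP2 κ (2^i) v).2 + ρ}) ?_
      · intro i l
        have e2 : (2:ℝ)^(i+1) = 2 * (2:ℝ)^i := by ring
        rw [e2, mul_pow]
        refine le_of_eq ?_
        field_simp
        norm_num
      · intro i l _ _
        have hf1 : (1:ℝ) ≤ (2:ℝ)^i := one_le_pow₀ (by norm_num)
        have hg1 : (1:ℝ) ≤ (2:ℝ)^l := one_le_pow₀ (by norm_num)
        refine small_of_card hρ _ _ (N^5) _ (fun T hT => ?_) ?_ ?_ (by positivity)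
        · exact cardP2 ζ ρ x κ κ3 (2^i) (2^l) δ N hρ hf1 hg1 hδ hbad hN47 hNδ hκ hκ3 HD T hT
        · intro v hv
          exact (factsP2 hρ hf1 hg1 hκ0 hv.1).2.2.1
        · intro v hv
          exact (factsP2 hρ hf1 hg1 hκ0 hv.1).2.2.2
    have SD : Small ρ {p | ∃ i ∈ Finset.range I, ∃ d ∈ Finset.range I,
        ρ < 1/(1024 * ((2:ℝ)^i)^3 * ((2:ℝ)^(i+d))^3) ∧
        1/(1024 * ((2:ℝ)^i)^3 * ((2:ℝ)^(i+d))^3) ≤ 65536 * ρ ∧ p ∈ thD2 ζ κ3 ''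
        {w | okD2 ρ (2^i) (2^(i+d)) w ∧ |(thD2 ζ κ3 w).1 - x| < (thD2 ζ κ3 w).2 + ρ}}
        (15 * ((N^9 : ℕ) * W (2^26 * κ3))) := by
      refine class_sum hρ I (N^9) (2^26 * κ3) (by positivity)
        (fun i d => 1/(1024 * ((2:ℝ)^i)^3 * ((2:ℝ)^(i+d))^3)) ?_ (fun i d => thD2 ζ κ3 ''
        {w | okD2 ρ (2^i) (2^(i+d)) w ∧ |(thD2 ζ κ3 w).1 - x| < (thD2 ζ κ3 w).2 + ρ}) ?_
      · intro i d
        have e1 : (2:ℝ)^(i+1+d) = 2 * (2:ℝ)^(i+d) := by ring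
        have e2 : (2:ℝ)^(i+1) = 2 * (2:ℝ)^i := by ring
        rw [e1, e2, mul_pow, mul_pow, div_div]
        refine one_div_le_one_div_of_le (by positivity) ?_
        have : 0 < ((2:ℝ)^i)^3 * ((2:ℝ)^(i+d))^3 := by positivity
        nlinarith
      · intro i d _ _
        have hf1 : (1:ℝ) ≤ (2:ℝ)^i := one_le_pow₀ (by norm_num)
        have hfg : (2:ℝ)^i ≤ (2:ℝ)^(i+d) := pow_le_pow_right₀ (by norm_num) (by omega)
        refine small_of_card hρ _ _ (N^9) _ (fun T hT => ?_) ?_ ?_ (by positivity)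
        · exact cardD2 ζ ρ x κ κ3 (2^i) (2^(i+d)) δ N hρ hf1 hfg hδ hbad hN47 hκ hκ3 HP T hT
        · intro v hv
          exact (factsD2 hρ hf1 hfg hκ30 hv.1).2.2.1
        · intro v hv
          refine (factsD2 hρ hf1 hfg hκ30 hv.1).2.2.2.trans (le_of_eq ?_)
          rw [pow_add]
          field_simp
    have e1 : W (65536 * κ) = 4096/(N:ℝ)^9 := by
      rw [W_scale hκ0.le]
      have : κ = (1/(N:ℝ)^3)^4 := by rw [hκ]; field_simp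
      rw [this, W_pow4 (by positivity)]
      field_simp
    have e2 : W (2^26 * κ3) ≤ 2^21/(N:ℝ)^18 := by
      have h1 : W (2^26 * κ3) ≤ W ((2^7/(N:ℝ)^6)^4) := by
        refine W_mono (by positivity) ?_
        rw [hκ3, div_pow, ← pow_mul, ← pow_mul, mul_one_div]
        gcongr <;> norm_num
      refine h1.trans (le_of_eq ?_)
      rw [W_pow4 (by positivity)]
      field_simp
    have b1 : 15 * ((N^5 : ℕ) * W (65536 * κ)) ≤ 1/2^16 := by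
      rw [e1]
      push_cast
      have : 15 * ((N:ℝ)^5 * (4096/(N:ℝ)^9)) = 61440/(N:ℝ)^4 := by field_simp; norm_num
      rw [this, div_le_div_iff₀ (by positivity) (by positivity)]
      calc (61440:ℝ) * 2^16 ≤ 2^60 := by norm_num
        _ ≤ (N:ℝ) := hN60
        _ = (N:ℝ)^1 := (pow_one _).symm
        _ ≤ (N:ℝ)^4 := pow_le_pow_right₀ hN1 (by norm_num)
        _ = 1 * (N:ℝ)^4 := (one_mul _).symm
    have b2 : 15 * ((N^9 : ℕ) * W (2^26 * κ3)) ≤ 1/2^16 := by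
      have h1 : 15 * (((N^9 : ℕ):ℝ) * W (2^26 * κ3)) ≤ 15 * (((N^9 : ℕ):ℝ) * (2^21/(N:ℝ)^18)) := by
        gcongr
      refine h1.trans ?_
      push_cast
      have : 15 * ((N:ℝ)^9 * (2^21/(N:ℝ)^18)) = 15 * 2^21/(N:ℝ)^9 := by field_simp
      rw [this, div_le_div_iff₀ (by positivity) (by positivity)]
      calc (15:ℝ) * 2^21 * 2^16 ≤ 2^60 := by norm_num
        _ ≤ (N:ℝ) := hN60
        _ = (N:ℝ)^1 := (pow_one _).symm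
        _ ≤ (N:ℝ)^9 := pow_le_pow_right₀ hN1 (by norm_num)
        _ = 1 * (N:ℝ)^9 := (one_mul _).symm
    refine (SP.union hρ SD).mono ?_ (by
      have : (1:ℝ)/2^16 + 1/2^16 ≤ 1/2^15 := by norm_num
      linarith)
    rintro t ⟨ht, hmeet⟩
    rcases ht with ⟨i, l, v, hv, rfl⟩ | ⟨i, d, w, hw, rfl⟩
    · left
      obtain ⟨g1, g2, g3, g4, g5, g6, g7, g8⟩ := id hv
      have hf1 : (1:ℝ) ≤ (2:ℝ)^i := one_le_pow₀ (by norm_num)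
      have hg1 : (1:ℝ) ≤ (2:ℝ)^l := one_le_pow₀ (by norm_num)
      have h1 := hgf i l v g2 g4 g6
      have h2 : (2:ℝ)^l ≤ (2:ℝ)^i := by
        refine le_trans ?_ h1
        calc (2:ℝ)^l = ((2:ℝ)^l)^1 := (pow_one _).symm
          _ ≤ ((2:ℝ)^l)^3 := pow_le_pow_right₀ hg1 (by norm_num)
      have hli : l ≤ i := by
        rwa [pow_le_pow_iff_right₀ (by norm_num)] at h2
      have hiI : i < I := by
        have h3 : ρ * ((2:ℝ)^i)^3 < (2:ℝ)^l := by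
          rwa [lt_div_iff₀ (by positivity)] at g7
        have h4 : ρ * (2:ℝ)^i < 1 := by
          have h5 : (ρ * (2:ℝ)^i) * ((2:ℝ)^i)^2 < 1 * ((2:ℝ)^i)^2 := by
            calc (ρ * (2:ℝ)^i) * ((2:ℝ)^i)^2 = ρ * ((2:ℝ)^i)^3 := by ring
              _ < (2:ℝ)^l := h3
              _ ≤ (2:ℝ)^i := h2
              _ = (2:ℝ)^i * 1 := (mul_one _).symm
              _ ≤ (2:ℝ)^i * (2:ℝ)^i := by gcongr
              _ = 1 * ((2:ℝ)^i)^2 := by ring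
          exact lt_of_mul_lt_mul_right h5 (by positivity)
        have h5 : (2:ℝ)^i < (2:ℝ)^I := by
          have h6 : ρ * (2:ℝ)^i < ρ * (2:ℝ)^I := by linarith
          exact lt_of_mul_lt_mul_left h6 hρ.le
        rwa [pow_lt_pow_iff_right₀ (by norm_num)] at h5
      exact ⟨i, Finset.mem_range.2 hiI, l, Finset.mem_range.2 (by omega), g7, g8, v,
        ⟨hv, hmeet⟩, rfl⟩
    · right
      obtain ⟨g1, g2, g3, g4, g5, g6, g7, g8⟩ := id hw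
      have hf1 : (1:ℝ) ≤ (2:ℝ)^i := one_le_pow₀ (by norm_num)
      have hg1 : (1:ℝ) ≤ (2:ℝ)^(i+d) := one_le_pow₀ (by norm_num)
      have h3 : ρ * (1024 * ((2:ℝ)^i)^3 * ((2:ℝ)^(i+d))^3) < 1 := by
        rwa [lt_div_iff₀ (by positivity)] at g7
      have h4 : ρ * (2:ℝ)^(i+d) < 1 := by
        refine lt_of_le_of_lt ?_ h3
        have h5 : 1 ≤ ((2:ℝ)^i)^3 := one_le_pow₀ hf1
        have h6 : (2:ℝ)^(i+d) ≤ ((2:ℝ)^(i+d))^3 := by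
          calc (2:ℝ)^(i+d) = ((2:ℝ)^(i+d))^1 := (pow_one _).symm
            _ ≤ ((2:ℝ)^(i+d))^3 := pow_le_pow_right₀ hg1 (by norm_num)
        calc ρ * (2:ℝ)^(i+d) = ρ * (1 * 1 * (2:ℝ)^(i+d)) := by ring
          _ ≤ ρ * (1024 * ((2:ℝ)^i)^3 * ((2:ℝ)^(i+d))^3) := by gcongr; norm_num
      have h5 : (2:ℝ)^(i+d) < (2:ℝ)^I := by
        have h6 : ρ * (2:ℝ)^(i+d) < ρ * (2:ℝ)^I := by linarith
        exact lt_of_mul_lt_mul_left h6 hρ.le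
      rw [pow_lt_pow_iff_right₀ (by norm_num)] at h5
      exact ⟨i, Finset.mem_range.2 (by omega), d, Finset.mem_range.2 (by omega), g7, g8, w,
        ⟨hw, hmeet⟩, rfl⟩
  refine ⟨Thr, κ, hκ0, hfin, ?_⟩
  intro ξ hξ v hv hv0
  have h1 : (1:ℝ) ≤ (v.1:ℝ) := by exact_mod_cast hv0
  obtain ⟨i, hi1, hi2⟩ := exists_pow4 _ h1
  have hq : (0:ℝ) < (v.1:ℝ) := by linarith
  have hb := hbad v.1 v.2.1 (by omega)
  rw [abs_of_pos hq, show (v.1:ℝ)*ζ - v.2.1 = -((v.2.1:ℝ) - ζ * v.1) by ring, abs_neg] at hb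
  set y := |(v.2.1:ℝ) - ζ * v.1| with hy
  have hy0 : 0 < y := by
    by_contra hneg
    push Not at hneg
    nlinarith
  obtain ⟨f, hf⟩ : ∃ f : ℝ, f = (2:ℝ)^i := ⟨_, rfl⟩
  have hf0 : 0 < f := by rw [hf]; positivity
  have hfs : f ≤ Real.sqrt (v.1:ℝ) := by
    rw [← hf] at hi1
    exact Real.le_sqrt_of_sq_le hi1
  have key : κ ≤ f * max y |(v.1:ℝ) * ξ - v.2.2| := by
    rcases lt_or_ge κ (f * y) with h | h
    · refine h.le.trans ?_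
      gcongr
      exact le_max_left _ _
    · have h1κ : 1 ≤ κ/(f*y) := by
        rw [le_div_iff₀ (by positivity)]; linarith
      obtain ⟨l, hl1, hl2⟩ := exists_pow8 _ h1κ
      obtain ⟨g, hg⟩ : ∃ g : ℝ, g = (2:ℝ)^l := ⟨_, rfl⟩
      rw [← hg] at hl1 hl2
      rw [le_div_iff₀ (by positivity)] at hl1
      rw [div_lt_iff₀ (by positivity)] at hl2
      obtain ⟨n, hn, _⟩ := stP i l v hv hv0 hi1 hi2
        (by rw [← hy, ← hf, ← hg]; linarith) (by rw [← hy, ← hf, ← hg]; linarith)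
      have h3 := hξ n _ hn
      simp only [thP2] at h3
      rw [← hf, div_le_iff₀ (by positivity)] at h3
      have h4 : κ ≤ f * |(v.1:ℝ) * ξ - v.2.2| := by
        have e : (v.1:ℝ) * ξ - v.2.2 = (ξ - (v.2.2:ℝ)/v.1) * v.1 := by field_simp
        rw [e, abs_mul, abs_of_pos hq]
        linarith
      refine h4.trans ?_
      gcongr
      exact le_max_right _ _
  refine key.trans ?_
  have : 0 ≤ max y |(v.1:ℝ) * ξ - v.2.2| := hy0.le.trans (le_max_left _ _)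
  gcongr

theorem exists_xi2 (ζ δ : ℝ) (hδ : 0 < δ) (hδ1 : δ ≤ 1)
    (hbad : ∀ q p : ℤ, q ≠ 0 → δ ≤ |(q:ℝ)| * |(q:ℝ)*ζ - p|) :
    ∃ (ξ ε κ : ℝ) (C : ℕ), 0 < ε ∧ 0 < κ ∧ 1 ≤ C ∧
      (∀ v : ℤ × ℤ, IsCoprime v.1 v.2 → 0 < v.1 → (thB v).2 ≤ |ξ - (thB v).1|) ∧
      (∀ (m : ℕ) (v : ℤ × ℤ × ℤ), Prim v → 0 < v.1 → (v.1:ℝ) ≤ ((2:ℝ)^(C*5^m))^4 →
        |(v.2.1:ℝ) - ζ * v.1| < 1 →
        (thP ζ ε ((2:ℝ)^(C*5^m)) v).2 ≤ |ξ - (thP ζ ε ((2:ℝ)^(C*5^m)) v).1|) ∧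
      (∀ (v : ℤ × ℤ × ℤ), Prim v → 0 < v.1 →
        κ ≤ Real.sqrt (v.1:ℝ) * max |(v.2.1:ℝ) - ζ * v.1| |(v.1:ℝ) * ξ - v.2.2|) := by
  obtain ⟨Thr1, ε, C, hε, hC, hf1, h1⟩ := system1 ζ δ hδ hδ1 hbad
  obtain ⟨Thr2, κ, hκ, hf2, h2⟩ := system2 ζ δ hδ hbad
  obtain ⟨ξ, hξ⟩ := game (fun n => Thr1 n ∪ Thr2 n) (by
    intro n x hno
    have s1 := hf1 n x (fun m hm t ht => hno m hm t (Or.inl ht))
    have s2 := hf2 n x (fun m hm t ht => hno m hm t (Or.inr ht))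
    refine (s1.union (rho_pos n) s2).mono ?_ (by norm_num)
    rintro t ⟨ht | ht, hm⟩
    · exact Or.inl ⟨ht, hm⟩
    · exact Or.inr ⟨ht, hm⟩)
  obtain ⟨a1, a2⟩ := h1 ξ (fun n t ht => hξ n t (Or.inl ht))
  exact ⟨ξ, ε, κ, C, hε, hκ, hC, a1, a2, h2 ξ (fun n t ht => hξ n t (Or.inr ht))⟩

end Pool.Agent.H238R3.Fam
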