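import Mathlib

set_option autoImplicit false

namespace Pool.Agent.H238R3

open Finset

/-- Linear form Dirichlet: nonzero integer vector `b : Fin (n+1) → ℤ`. -/
theorem dirichlet_form (n : ℕ) (hn : 1 ≤ n) (ξ : ℝ) (H : ℕ) (hH : 1 ≤ H) :
    ∃ b : ℕ → ℤ, (∃ j ∈ Finset.range (n + 1), b j ≠ 0) ∧
      (∀ j, |(b j : ℝ)| ≤ (n * (max 1 |ξ|) ^ n + 1) * H) ∧
      |∑ j ∈ Finset.range (n + 1), (b j : ℝ) * ξ ^ j| ≤ 1 / (H : ℝ) ^ n := by
  classical
  -- tuples
  set K : ℕ := H ^ n with hK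
  have hKpos : 0 < K := by positivity
  let f : (Fin n → Fin (H + 1)) → Fin K := fun t =>
    ⟨⌊Int.fract (∑ i : Fin n, ((t i : ℕ) : ℝ) * ξ ^ ((i : ℕ) + 1)) * K⌋₊, by
      rw [Nat.floor_lt' (by omega)]
      have h1 := Int.fract_lt_one (∑ i : Fin n, ((t i : ℕ) : ℝ) * ξ ^ ((i : ℕ) + 1))
      have h2 : (0 : ℝ) < K := by exact_mod_cast hKpos
      nlinarith⟩
  have hcard : Fintype.card (Fin K) < Fintype.card (Fin n → Fin (H + 1)) := by
    rw [Fintype.card_fin, Fintype.card_fun, Fintype.card_fin, Fintype.card_fin, hK]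
    exact Nat.pow_lt_pow_left (by omega) (by omega)
  obtain ⟨t, s, hts, hfts⟩ := Fintype.exists_ne_map_eq_of_card_lt f hcard
  set a : ℝ := ∑ i : Fin n, ((t i : ℕ) : ℝ) * ξ ^ ((i : ℕ) + 1) with ha
  set c : ℝ := ∑ i : Fin n, ((s i : ℕ) : ℝ) * ξ ^ ((i : ℕ) + 1) with hc
  have hfloor : ⌊Int.fract a * K⌋₊ = ⌊Int.fract c * K⌋₊ := by
    have := congrArg Fin.val hfts
    exact this
  have hKr : (0 : ℝ) < K := by exact_mod_cast hKpos
  have hclose : |Int.fract a - Int.fract c| ≤ 1 / K := by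
    have h1 := Nat.floor_le (mul_nonneg (Int.fract_nonneg a) hKr.le)
    have h2 := Nat.lt_floor_add_one (Int.fract a * K)
    have h3 := Nat.floor_le (mul_nonneg (Int.fract_nonneg c) hKr.le)
    have h4 := Nat.lt_floor_add_one (Int.fract c * K)
    rw [hfloor] at h1 h2
    rw [abs_le]
    constructor
    · rw [← sub_nonneg]
      have : 0 ≤ (Int.fract a - Int.fract c + 1 / K) * K := by
        have : (Int.fract a - Int.fract c + 1 / K) * K = Int.fract a * K - Int.fract c * K + 1 := by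
          field_simp
        rw [this]; linarith
      have := nonneg_of_mul_nonneg_left this hKr
      linarith
    · rw [← sub_nonneg]
      have : 0 ≤ (1 / K - (Int.fract a - Int.fract c)) * K := by
        have : (1 / K - (Int.fract a - Int.fract c)) * K = 1 - (Int.fract a * K - Int.fract c * K) := by
          field_simp
        rw [this]; linarith
      have := nonneg_of_mul_nonneg_left this hKr
      linarith
  -- the vector
  let b : ℕ → ℤ := fun j =>
    if h : 1 ≤ j ∧ j ≤ n then ((t ⟨j - 1, by omega⟩ : ℕ) : ℤ) - ((s ⟨j - 1, by omega⟩ : ℕ) : ℤ)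
    else if j = 0 then ⌊c⌋ - ⌊a⌋ else 0
  have hb0 : b 0 = ⌊c⌋ - ⌊a⌋ := by simp [b]
  have hbs : ∀ i : Fin n, b ((i : ℕ) + 1) = ((t i : ℕ) : ℤ) - ((s i : ℕ) : ℤ) := by
    intro i
    have : 1 ≤ (i : ℕ) + 1 ∧ (i : ℕ) + 1 ≤ n := ⟨by omega, by omega⟩
    simp [b, this]
  have hsum : ∑ j ∈ Finset.range (n + 1), (b j : ℝ) * ξ ^ j = Int.fract a - Int.fract c := by
    rw [Finset.sum_range_succ', ← Fin.sum_univ_eq_sum_range (fun j => (b (j + 1) : ℝ) * ξ ^ (j + 1))]
    simp only [hbs, hb0]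
    push_cast
    rw [show (∑ i : Fin n, (((t i : ℕ) : ℝ) - ((s i : ℕ) : ℝ)) * ξ ^ ((i : ℕ) + 1)) = a - c by
      rw [ha, hc, ← Finset.sum_sub_distrib]
      exact Finset.sum_congr rfl fun i _ => by ring]
    have e1 := Int.self_sub_floor a
    have e2 := Int.self_sub_floor c
    simp only [pow_zero, mul_one]
    linarith
  have hbsbound : ∀ j, 1 ≤ j → |(b j : ℝ)| ≤ H := by
    intro j hj
    by_cases hjn : j ≤ n
    · have h1 : b j = ((t ⟨j - 1, by omega⟩ : ℕ) : ℤ) - ((s ⟨j - 1, by omega⟩ : ℕ) : ℤ) := by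
        simp [b, hj, hjn]
      rw [h1]
      have h2 := (t ⟨j - 1, by omega⟩).isLt
      have h3 := (s ⟨j - 1, by omega⟩).isLt
      have h4 : |((t ⟨j - 1, by omega⟩ : ℕ) : ℤ) - ((s ⟨j - 1, by omega⟩ : ℕ) : ℤ)| ≤ (H : ℤ) := by
        rw [abs_le]; constructor <;> omega
      exact_mod_cast h4
    · have h1 : b j = 0 := by
        have : ¬ (1 ≤ j ∧ j ≤ n) := by omega
        have h0 : j ≠ 0 := by omega
        simp [b, this, h0]
      rw [h1]; simp
  have hmax1 : (1 : ℝ) ≤ max 1 |ξ| := le_max_left _ _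
  have hHr : (1 : ℝ) ≤ H := by exact_mod_cast hH
  have hM : (1 : ℝ) ≤ (max 1 |ξ|) ^ n := one_le_pow₀ hmax1
  have hsmall : |∑ j ∈ Finset.range (n + 1), (b j : ℝ) * ξ ^ j| ≤ 1 / (H : ℝ) ^ n := by
    rw [hsum]
    have : ((K : ℕ) : ℝ) = (H : ℝ) ^ n := by rw [hK]; push_cast; rfl
    rw [← this]
    exact hclose
  refine ⟨b, ?_, ?_, hsmall⟩
  · -- nonzero
    obtain ⟨i, hi⟩ := Function.ne_iff.mp hts
    refine ⟨(i : ℕ) + 1, by simp, ?_⟩
    rw [hbs]
    intro h
    apply hi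
    apply Fin.ext
    omega
  · intro j
    rcases Nat.eq_zero_or_pos j with h0 | hpos
    · subst h0
      have h1 : (b 0 : ℝ) = (∑ j ∈ Finset.range (n + 1), (b j : ℝ) * ξ ^ j)
          - ∑ j ∈ Finset.range n, (b (j + 1) : ℝ) * ξ ^ (j + 1) := by
        rw [Finset.sum_range_succ']
        simp
      have h2 : |∑ j ∈ Finset.range n, (b (j + 1) : ℝ) * ξ ^ (j + 1)| ≤ n * (max 1 |ξ|) ^ n * H := by
        calc |∑ j ∈ Finset.range n, (b (j + 1) : ℝ) * ξ ^ (j + 1)|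
            ≤ ∑ j ∈ Finset.range n, |(b (j + 1) : ℝ) * ξ ^ (j + 1)| := Finset.abs_sum_le_sum_abs _ _
          _ ≤ ∑ j ∈ Finset.range n, (H * (max 1 |ξ|) ^ n : ℝ) := by
              apply Finset.sum_le_sum
              intro j hj
              rw [abs_mul, abs_pow]
              apply mul_le_mul (hbsbound _ (by omega)) _ (by positivity) (by positivity)
              calc |ξ| ^ (j + 1) ≤ (max 1 |ξ|) ^ (j + 1) :=
                    pow_le_pow_left₀ (abs_nonneg _) (le_max_right _ _) _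
                _ ≤ (max 1 |ξ|) ^ n := pow_le_pow_right₀ hmax1 (by simp at hj; omega)
          _ = n * (max 1 |ξ|) ^ n * H := by
              rw [Finset.sum_const, Finset.card_range, nsmul_eq_mul]; ring
      have h3 : (1 : ℝ) / (H : ℝ) ^ n ≤ H := by
        rw [div_le_iff₀ (by positivity)]
        have : (1 : ℝ) ≤ (H : ℝ) ^ n := one_le_pow₀ hHr
        nlinarith
      rw [h1]
      calc _ ≤ |∑ j ∈ Finset.range (n + 1), (b j : ℝ) * ξ ^ j| +
            |∑ j ∈ Finset.range n, (b (j + 1) : ℝ) * ξ ^ (j + 1)| := abs_sub _ _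
        _ ≤ (n * (max 1 |ξ|) ^ n + 1) * H := by linarith
    · refine (hbsbound j hpos).trans ?_
      have hn0 : (0 : ℝ) ≤ n := Nat.cast_nonneg n
      nlinarith [mul_nonneg hn0 (zero_le_one.trans hM)]

/-- Simultaneous Dirichlet. -/
theorem dirichlet_sim (m : ℕ) (ξ : ℝ) (N : ℕ) (hN : 1 ≤ N) :
    ∃ q : ℕ, 0 < q ∧ q ≤ N ^ m ∧ ∀ j ∈ Finset.Icc 1 m,
      |(q : ℝ) * ξ ^ j - ((round ((q : ℝ) * ξ ^ j) : ℤ) : ℝ)| ≤ 1 / N := by
  classical
  have hNr : (0 : ℝ) < N := by exact_mod_cast hN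
  let f : Fin (N ^ m + 1) → (Fin m → Fin N) := fun q i =>
    ⟨⌊Int.fract (((q : ℕ) : ℝ) * ξ ^ ((i : ℕ) + 1)) * N⌋₊, by
      rw [Nat.floor_lt' (by omega)]
      have h1 := Int.fract_lt_one (((q : ℕ) : ℝ) * ξ ^ ((i : ℕ) + 1))
      nlinarith⟩
  have hcard : Fintype.card (Fin m → Fin N) < Fintype.card (Fin (N ^ m + 1)) := by
    rw [Fintype.card_fin, Fintype.card_fun, Fintype.card_fin, Fintype.card_fin]
    omega
  obtain ⟨q1, q2, hne, hf⟩ := Fintype.exists_ne_map_eq_of_card_lt f hcard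
  wlog hlt : (q2 : ℕ) < (q1 : ℕ) generalizing q1 q2
  · refine this q2 q1 hne.symm hf.symm ?_
    rcases lt_trichotomy (q1 : ℕ) (q2 : ℕ) with h | h | h
    · exact h
    · exact absurd (Fin.ext h) hne
    · exact absurd h hlt
  refine ⟨(q1 : ℕ) - (q2 : ℕ), by omega, by omega, ?_⟩
  intro j hj
  rw [Finset.mem_Icc] at hj
  have hfj := congrArg Fin.val (congrFun hf ⟨j - 1, by omega⟩)
  have e : (j - 1 : ℕ) + 1 = j := by omega
  have hfloor : ⌊Int.fract (((q1 : ℕ) : ℝ) * ξ ^ j) * N⌋₊ = ⌊Int.fract (((q2 : ℕ) : ℝ) * ξ ^ j) * N⌋₊ := by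
    simpa [f, e] using hfj
  set a := ((q1 : ℕ) : ℝ) * ξ ^ j with ha
  set c := ((q2 : ℕ) : ℝ) * ξ ^ j with hc
  have h1 := Nat.floor_le (mul_nonneg (Int.fract_nonneg a) hNr.le)
  have h2 := Nat.lt_floor_add_one (Int.fract a * N)
  have h3 := Nat.floor_le (mul_nonneg (Int.fract_nonneg c) hNr.le)
  have h4 := Nat.lt_floor_add_one (Int.fract c * N)
  rw [hfloor] at h1 h2
  have hq : (((q1 : ℕ) - (q2 : ℕ) : ℕ) : ℝ) * ξ ^ j = a - c := by
    rw [Nat.cast_sub hlt.le]; ring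
  rw [hq]
  have hr := round_le (a - c) (⌊a⌋ - ⌊c⌋)
  refine hr.trans ?_
  have e2 : a - c - ((⌊a⌋ - ⌊c⌋ : ℤ) : ℝ) = Int.fract a - Int.fract c := by
    rw [Int.fract, Int.fract]; push_cast; ring
  rw [e2, abs_le]
  constructor
  · have : 0 ≤ (Int.fract a - Int.fract c + 1 / N) * N := by
      have : (Int.fract a - Int.fract c + 1 / N) * N = Int.fract a * N - Int.fract c * N + 1 := by
        field_simp
      rw [this]; linarith
    have := nonneg_of_mul_nonneg_left this hNr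
    linarith
  · have : 0 ≤ (1 / N - (Int.fract a - Int.fract c)) * N := by
      have : (1 / N - (Int.fract a - Int.fract c)) * N = 1 - (Int.fract a * N - Int.fract c * N) := by
        field_simp
      rw [this]; linarith
    have := nonneg_of_mul_nonneg_left this hNr
    linarith

end Pool.Agent.H238R3
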