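import Mathlib

set_option autoImplicit false

/-!
# Integer points near a short segment

Many primitive integer points close to a short segment force a rational line of small height.
-/

namespace Pool.Agent.H238R3.Lines

/-- primitive integer vector (in the Bezout form) -/
def Prim (z : ℤ × ℤ × ℤ) : Prop := ∃ a b c : ℤ, a * z.1 + b * z.2.1 + c * z.2.2 = 1

lemma exists_prim (a b c : ℤ) (h : ¬ (a = 0 ∧ b = 0 ∧ c = 0)) :
    ∃ (g : ℤ) (z : ℤ × ℤ × ℤ), 0 < g ∧ Prim z ∧ a = g * z.1 ∧ b = g * z.2.1 ∧ c = g * z.2.2 := by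
  set d : ℤ := (Int.gcd a b : ℤ) with hd
  set g : ℤ := (Int.gcd d c : ℤ) with hg
  have hgd : g ∣ d := Int.gcd_dvd_left ..
  have hgc : g ∣ c := Int.gcd_dvd_right ..
  have hda : d ∣ a := Int.gcd_dvd_left ..
  have hdb : d ∣ b := Int.gcd_dvd_right ..
  obtain ⟨a0, ha0⟩ := hgd.trans hda
  obtain ⟨b0, hb0⟩ := hgd.trans hdb
  obtain ⟨c0, hc0⟩ := hgc
  have hg0 : g ≠ 0 := by
    intro h0
    rw [h0] at ha0 hb0 hc0
    exact h ⟨by simpa using ha0, by simpa using hb0, by simpa using hc0⟩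
  have hgpos : 0 < g := lt_of_le_of_ne (by rw [hg]; exact Int.natCast_nonneg _) (Ne.symm hg0)
  refine ⟨g, (a0, b0, c0), hgpos, ?_, ha0, hb0, hc0⟩
  have h1 : d = a * Int.gcdA a b + b * Int.gcdB a b := Int.gcd_eq_gcd_ab a b
  have h2 : g = d * Int.gcdA d c + c * Int.gcdB d c := Int.gcd_eq_gcd_ab d c
  refine ⟨Int.gcdA a b * Int.gcdA d c, Int.gcdB a b * Int.gcdA d c, Int.gcdB d c, ?_⟩
  simp only
  have h3 : g * (Int.gcdA a b * Int.gcdA d c * a0 + Int.gcdB a b * Int.gcdA d c * b0 +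
      Int.gcdB d c * c0) = g * 1 := by
    linear_combination (-1) * h2 - Int.gcdA d c * h1 -
      Int.gcdA a b * Int.gcdA d c * ha0 - Int.gcdB a b * Int.gcdA d c * hb0 - Int.gcdB d c * hc0
  exact mul_left_cancel₀ hg0 h3

lemma Prim.ne_zero {z : ℤ × ℤ × ℤ} (h : Prim z) : ¬ (z.1 = 0 ∧ z.2.1 = 0 ∧ z.2.2 = 0) := by
  rintro ⟨h1, h2, h3⟩
  obtain ⟨a, b, c, h⟩ := h
  rw [h1, h2, h3] at h
  simp at h

lemma Prim.neg {z : ℤ × ℤ × ℤ} (h : Prim z) : Prim (-z.1, -z.2.1, -z.2.2) := by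
  obtain ⟨a, b, c, h⟩ := h
  exact ⟨-a, -b, -c, by simp only; linear_combination h⟩

lemma eq_of_cross {z z' : ℤ × ℤ × ℤ} (hz : Prim z) (hz' : Prim z') (hp : 0 < z.1) (hp' : 0 < z'.1)
    (h1 : z.2.1 * z'.2.2 - z.2.2 * z'.2.1 = 0) (h2 : z.2.2 * z'.1 - z.1 * z'.2.2 = 0)
    (h3 : z.1 * z'.2.1 - z.2.1 * z'.1 = 0) : z = z' := by
  obtain ⟨a, b, c, h⟩ := hz
  obtain ⟨a', b', c', h'⟩ := hz'
  set κ := a * z'.1 + b * z'.2.1 + c * z'.2.2 with hκ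
  set κ' := a' * z.1 + b' * z.2.1 + c' * z.2.2 with hκ'
  have e1 : z'.1 = κ * z.1 := by
    rw [hκ]; linear_combination (-z'.1) * h - b * h3 + c * h2
  have e2 : z'.2.1 = κ * z.2.1 := by
    rw [hκ]; linear_combination (-z'.2.1) * h + a * h3 - c * h1
  have e3 : z'.2.2 = κ * z.2.2 := by
    rw [hκ]; linear_combination (-z'.2.2) * h - a * h2 + b * h1
  have e1' : z.1 = κ' * z'.1 := by
    rw [hκ']; linear_combination (-z.1) * h' + b' * h3 - c' * h2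
  have hκpos : 0 < κ := by
    by_contra hneg
    push Not at hneg
    nlinarith
  have hκpos' : 0 < κ' := by
    by_contra hneg
    push Not at hneg
    nlinarith
  have hκ1 : κ = 1 := by
    have h5 : z.1 ≤ z'.1 := by nlinarith
    have h6 : z'.1 ≤ z.1 := by nlinarith
    have h7 : z.1 = z'.1 := le_antisymm h5 h6
    rw [← h7] at e1
    have : z.1 * (κ - 1) = 0 := by linear_combination -e1
    rcases mul_eq_zero.1 this with h8 | h8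
    · omega
    · omega
  rw [hκ1] at e1 e2 e3
  ext <;> simp [e1, e2, e3]

/-- `m + 1` reals with gaps at least `g` in an interval of length `L` -/
lemma gap {ι : Type*} (T : Finset ι) (f : ι → ℝ) (lo L g : ℝ) (hL : 0 ≤ L) (M : ℕ)
    (hT : T.card = M + 1)
    (hf : ∀ t ∈ T, lo ≤ f t ∧ f t ≤ lo + L)
    (hg : ∀ t ∈ T, ∀ s ∈ T, t ≠ s → g ≤ |f t - f s|) :
    M * g ≤ L := by
  classical
  rcases le_or_gt g 0 with hg0 | hg0
  · have : (0:ℝ) ≤ M := Nat.cast_nonneg M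
    nlinarith
  have hinj : Set.InjOn (fun t => ⌊(f t - lo)/g⌋) (T : Set ι) := by
    intro t ht s hs hts
    by_contra hne
    have h1 := hg t ht s hs hne
    simp only at hts
    have h2 := Int.abs_sub_lt_one_of_floor_eq_floor hts
    have h3 : (f t - lo)/g - (f s - lo)/g = (f t - f s)/g := by ring
    rw [h3, abs_div, abs_of_pos hg0, div_lt_one hg0] at h2
    linarith
  have hsub : T.image (fun t => ⌊(f t - lo)/g⌋) ⊆ Finset.Icc 0 ⌊L/g⌋ := by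
    intro k hk
    obtain ⟨t, ht, rfl⟩ := Finset.mem_image.1 hk
    rw [Finset.mem_Icc]
    obtain ⟨h1, h2⟩ := hf t ht
    constructor
    · exact Int.floor_nonneg.2 (div_nonneg (by linarith) hg0.le)
    · exact Int.floor_le_floor (div_le_div_of_nonneg_right (by linarith) hg0.le)
  have hc := Finset.card_le_card hsub
  rw [Finset.card_image_of_injOn hinj, hT, Int.card_Icc] at hc
  have h4 : (M:ℤ) ≤ ⌊L/g⌋ := by omega
  have h5 : (M:ℝ) ≤ L/g := by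
    have : ((M:ℤ):ℝ) ≤ (⌊L/g⌋:ℝ) := by exact_mod_cast h4
    have h6 := Int.floor_le (L/g)
    push_cast at this
    linarith
  rwa [le_div_iff₀ hg0] at h5

lemma triple {a b c P Q R : ℝ} (ha : |a| ≤ P) (hb : |b| ≤ Q) (hc : |c| ≤ R) :
    |a * b * c| ≤ P * Q * R := by
  rw [abs_mul, abs_mul]
  have h1 := abs_nonneg a
  have h2 := abs_nonneg b
  have h3 := abs_nonneg c
  have hP : 0 ≤ P := h1.trans ha
  have hQ : 0 ≤ Q := h2.trans hb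
  exact mul_le_mul (mul_le_mul ha hb h2 hP) hc h3 (mul_nonneg hP hQ)

lemma det_zero (x α γ Y s1 b : ℝ) (hdet : 6 * (s1 * Y * b) < 1)
    (z z1 z2 : ℤ × ℤ × ℤ)
    (hs : |(z.1:ℝ)| ≤ s1) (hs1 : |(z1.1:ℝ)| ≤ s1) (hs2 : |(z2.1:ℝ)| ≤ s1)
    (ht : |(z.2.1:ℝ) - α * z.1| ≤ Y) (ht1 : |(z1.2.1:ℝ) - α * z1.1| ≤ Y)
    (ht2 : |(z2.2.1:ℝ) - α * z2.1| ≤ Y)
    (hu : |(z.2.2:ℝ) - γ * z.2.1 - x * z.1| ≤ b) (hu1 : |(z1.2.2:ℝ) - γ * z1.2.1 - x * z1.1| ≤ b)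
    (hu2 : |(z2.2.2:ℝ) - γ * z2.2.1 - x * z2.1| ≤ b) :
    z.1 * (z1.2.1 * z2.2.2 - z1.2.2 * z2.2.1) + z.2.1 * (z1.2.2 * z2.1 - z1.1 * z2.2.2) +
      z.2.2 * (z1.1 * z2.2.1 - z1.2.1 * z2.1) = 0 := by
  set D : ℤ := z.1 * (z1.2.1 * z2.2.2 - z1.2.2 * z2.2.1) + z.2.1 * (z1.2.2 * z2.1 - z1.1 * z2.2.2) +
      z.2.2 * (z1.1 * z2.2.1 - z1.2.1 * z2.1) with hD
  have e1 := triple hs ht1 hu2
  have e2 := triple hs ht2 hu1
  have e3 := triple hs2 ht hu1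
  have e4 := triple hs1 ht hu2
  have e5 := triple hs1 ht2 hu
  have e6 := triple hs2 ht1 hu
  rw [abs_le] at e1 e2 e3 e4 e5 e6
  have hDr : (D:ℝ) = (z.1:ℝ) * ((z1.2.1:ℝ) - α * z1.1) * ((z2.2.2:ℝ) - γ * z2.2.1 - x * z2.1)
      - (z.1:ℝ) * ((z2.2.1:ℝ) - α * z2.1) * ((z1.2.2:ℝ) - γ * z1.2.1 - x * z1.1)
      + (z2.1:ℝ) * ((z.2.1:ℝ) - α * z.1) * ((z1.2.2:ℝ) - γ * z1.2.1 - x * z1.1)
      - (z1.1:ℝ) * ((z.2.1:ℝ) - α * z.1) * ((z2.2.2:ℝ) - γ * z2.2.1 - x * z2.1)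
      + (z1.1:ℝ) * ((z2.2.1:ℝ) - α * z2.1) * ((z.2.2:ℝ) - γ * z.2.1 - x * z.1)
      - (z2.1:ℝ) * ((z1.2.1:ℝ) - α * z1.1) * ((z.2.2:ℝ) - γ * z.2.1 - x * z.1) := by
    rw [hD]; push_cast; ring
  have h1 : (D:ℝ) < 1 := by rw [hDr]; linarith [e1.2, e2.1, e3.2, e4.1, e5.2, e6.1]
  have h2 : (-1:ℝ) < (D:ℝ) := by rw [hDr]; linarith [e1.1, e2.2, e3.1, e4.2, e5.1, e6.2]
  have h1' : D < 1 := by exact_mod_cast h1
  have h2' : -1 < D := by exact_mod_cast h2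
  omega

theorem lines (x ρ α γ Y s0 s1 : ℝ) (hρ : 0 ≤ ρ) (hY : 0 ≤ Y) (hs0 : 0 < s0)
    (hdet : 12 * ρ * s1^2 * Y < 1)
    (T : Finset (ℤ × ℤ × ℤ)) (M : ℕ) (hM : 0 < M) (hT : T.card = M + 1)
    (hprim : ∀ z ∈ T, Prim z)
    (hs : ∀ z ∈ T, s0 ≤ (z.1:ℝ) ∧ (z.1:ℝ) ≤ s1)
    (ht : ∀ z ∈ T, |(z.2.1:ℝ) - α * z.1| ≤ Y)
    (hu : ∀ z ∈ T, |(z.2.2:ℝ) - γ * z.2.1 - x * z.1| ≤ 2 * ρ * z.1) :
    ∃ w : ℤ × ℤ × ℤ, Prim w ∧ (∀ z ∈ T, w.1 * z.1 + w.2.1 * z.2.1 + w.2.2 * z.2.2 = 0) ∧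
      M * |(w.2.2:ℝ)| ≤ 2 * Y * s1^2 / s0 ∧
      M * |(w.2.1:ℝ) + γ * w.2.2| ≤ 4 * ρ * s1^2 ∧
      ∀ x' : ℝ, |x' - x| ≤ ρ →
        M * |(w.1:ℝ) + α * w.2.1 + (x' + α * γ) * w.2.2| ≤ 10 * ρ * Y * s1^2 / s0 := by
  classical
  obtain ⟨z1, hz1, z2, hz2, hne⟩ := Finset.one_lt_card.1 (show 1 < T.card by omega)
  have hpos : ∀ z ∈ T, 0 < z.1 := by
    intro z hz
    have := (hs z hz).1
    have h2 : (0:ℝ) < (z.1:ℝ) := by linarith
    exact_mod_cast h2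
  have hs1pos : 0 < s1 := by
    have := hs z1 hz1
    linarith
  -- the primitive normal
  have hc0 : ¬ (z1.2.1 * z2.2.2 - z1.2.2 * z2.2.1 = 0 ∧ z1.2.2 * z2.1 - z1.1 * z2.2.2 = 0 ∧
      z1.1 * z2.2.1 - z1.2.1 * z2.1 = 0) := by
    rintro ⟨h1, h2, h3⟩
    exact hne (eq_of_cross (hprim z1 hz1) (hprim z2 hz2) (hpos z1 hz1) (hpos z2 hz2) h1 h2 h3)
  obtain ⟨g, w, hg, hw, hc1, hc2, hc3⟩ := exists_prim _ _ _ hc0
  have hort : ∀ z ∈ T, w.1 * z.1 + w.2.1 * z.2.1 + w.2.2 * z.2.2 = 0 := by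
    intro z hz
    have key : ∀ z ∈ T, |(z.1:ℝ)| ≤ s1 ∧ |(z.2.1:ℝ) - α * z.1| ≤ Y ∧
        |(z.2.2:ℝ) - γ * z.2.1 - x * z.1| ≤ 2 * ρ * s1 := by
      intro z hz
      have h1 := hs z hz
      refine ⟨?_, ht z hz, ?_⟩
      · rw [abs_le]; constructor <;> linarith
      · refine (hu z hz).trans ?_
        have : 0 ≤ 2 * ρ := by linarith
        nlinarith
    have k0 := key z hz
    have k1 := key z1 hz1
    have k2 := key z2 hz2
    have hd := det_zero x α γ Y s1 (2 * ρ * s1) (by nlinarith) z z1 z2 k0.1 k1.1 k2.1 k0.2.1 k1.2.1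
      k2.2.1 k0.2.2 k1.2.2 k2.2.2
    rw [hc1, hc2, hc3] at hd
    have : g * (w.1 * z.1 + w.2.1 * z.2.1 + w.2.2 * z.2.2) = 0 := by linear_combination hd
    rcases mul_eq_zero.1 this with h | h
    · omega
    · exact h
  -- cross products are non zero multiples of w
  have hcross : ∀ z ∈ T, ∀ z' ∈ T, z ≠ z' → ∃ k : ℤ, 1 ≤ |(k:ℝ)| ∧
      z.2.2 * z'.1 - z.1 * z'.2.2 = k * w.2.1 ∧ z.1 * z'.2.1 - z.2.1 * z'.1 = k * w.2.2 := by
    intro z hz z' hz' hzz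
    obtain ⟨a, b, c, habc⟩ := hw
    have o1 := hort z hz
    have o2 := hort z' hz'
    set c1 := z.2.1 * z'.2.2 - z.2.2 * z'.2.1 with hc1'
    set c2 := z.2.2 * z'.1 - z.1 * z'.2.2 with hc2'
    set c3 := z.1 * z'.2.1 - z.2.1 * z'.1 with hc3'
    have f3 : c1 * w.2.1 - c2 * w.1 = 0 := by
      rw [hc1', hc2']; linear_combination z'.2.2 * o1 - z.2.2 * o2
    have f2 : c1 * w.2.2 - c3 * w.1 = 0 := by
      rw [hc1', hc3']; linear_combination (-z'.2.1) * o1 + z.2.1 * o2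
    have f1 : c2 * w.2.2 - c3 * w.2.1 = 0 := by
      rw [hc2', hc3']; linear_combination z'.1 * o1 - z.1 * o2
    refine ⟨a * c1 + b * c2 + c * c3, ?_, ?_, ?_⟩
    · have g1 : c1 = (a * c1 + b * c2 + c * c3) * w.1 := by
        linear_combination (-c1) * habc + b * f3 + c * f2
      have g2 : c2 = (a * c1 + b * c2 + c * c3) * w.2.1 := by
        linear_combination (-c2) * habc - a * f3 + c * f1
      have g3 : c3 = (a * c1 + b * c2 + c * c3) * w.2.2 := by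
        linear_combination (-c3) * habc - a * f2 - b * f1
      have hk : a * c1 + b * c2 + c * c3 ≠ 0 := by
        intro h0
        rw [h0, zero_mul] at g1 g2 g3
        exact hzz (eq_of_cross (hprim z hz) (hprim z' hz') (hpos z hz) (hpos z' hz') g1 g2 g3)
      have := Int.one_le_abs hk
      exact_mod_cast this
    · linear_combination (-c2) * habc - a * f3 + c * f1
    · linear_combination (-c3) * habc - a * f2 - b * f1
  -- first bound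
  have hb1 : M * |(w.2.2:ℝ)| ≤ 2 * Y * s1^2 / s0 := by
    have h := gap T (fun z => (z.2.1:ℝ)/z.1) (α - Y/s0) (2*Y/s0) (|(w.2.2:ℝ)|/s1^2)
      (by positivity) M hT ?_ ?_
    · have h2 : (M:ℝ) * |(w.2.2:ℝ)| = (M * (|(w.2.2:ℝ)|/s1^2)) * s1^2 := by field_simp
      rw [h2]
      calc (M * (|(w.2.2:ℝ)|/s1^2)) * s1^2 ≤ 2*Y/s0 * s1^2 :=
            mul_le_mul_of_nonneg_right h (by positivity)
        _ = 2 * Y * s1^2 / s0 := by ring
    · intro z hz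
      have h1 := hs z hz
      have hzp : (0:ℝ) < z.1 := by linarith
      have h2 := ht z hz
      have h3 : |(z.2.1:ℝ)/z.1 - α| ≤ Y/s0 := by
        have e : (z.2.1:ℝ)/z.1 - α = ((z.2.1:ℝ) - α * z.1)/z.1 := by field_simp
        rw [e, abs_div, abs_of_pos hzp]
        exact div_le_div₀ hY h2 hs0 h1.1
      rw [abs_le] at h3
      constructor
      · linarith
      · have : 2*Y/s0 = Y/s0 + Y/s0 := by ring
        rw [this]; linarith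
    · intro z hz z' hz' hzz
      obtain ⟨k, hk, _, h3⟩ := hcross z hz z' hz' hzz
      have h1 := hs z hz
      have h1' := hs z' hz'
      have hzp : (0:ℝ) < z.1 := by linarith
      have hzp' : (0:ℝ) < z'.1 := by linarith
      have e : (z.2.1:ℝ)/z.1 - (z'.2.1:ℝ)/z'.1 = -((k:ℝ) * w.2.2)/(z.1 * z'.1) := by
        have h3r : (z.1:ℝ) * z'.2.1 - z.2.1 * z'.1 = k * w.2.2 := by exact_mod_cast h3
        rw [← h3r]; field_simp; ring
      rw [e, abs_div, abs_neg, abs_mul, abs_of_pos (mul_pos hzp hzp')]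
      refine div_le_div₀ (by positivity) ?_ (by positivity) ?_
      · have := abs_nonneg (w.2.2:ℝ)
        nlinarith
      · nlinarith
  have hb2 : M * |(w.2.1:ℝ) + γ * w.2.2| ≤ 4 * ρ * s1^2 := by
    have h := gap T (fun z => ((z.2.2:ℝ) - γ * z.2.1)/z.1) (x - 2*ρ) (4*ρ)
      (|(w.2.1:ℝ) + γ * w.2.2|/s1^2) (by positivity) M hT ?_ ?_
    · have h2 : (M:ℝ) * |(w.2.1:ℝ) + γ * w.2.2| =
          (M * (|(w.2.1:ℝ) + γ * w.2.2|/s1^2)) * s1^2 := by field_simp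
      rw [h2]
      exact mul_le_mul_of_nonneg_right h (by positivity)
    · intro z hz
      have h1 := hs z hz
      have hzp : (0:ℝ) < z.1 := by linarith
      have h2 := hu z hz
      have h3 : |((z.2.2:ℝ) - γ * z.2.1)/z.1 - x| ≤ 2 * ρ := by
        have e : ((z.2.2:ℝ) - γ * z.2.1)/z.1 - x = ((z.2.2:ℝ) - γ * z.2.1 - x * z.1)/z.1 := by
          field_simp
        rw [e, abs_div, abs_of_pos hzp, div_le_iff₀ hzp]
        exact h2
      rw [abs_le] at h3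
      constructor <;> linarith
    · intro z hz z' hz' hzz
      obtain ⟨k, hk, h2, h3⟩ := hcross z hz z' hz' hzz
      have h1 := hs z hz
      have h1' := hs z' hz'
      have hzp : (0:ℝ) < z.1 := by linarith
      have hzp' : (0:ℝ) < z'.1 := by linarith
      have e : ((z.2.2:ℝ) - γ * z.2.1)/z.1 - ((z'.2.2:ℝ) - γ * z'.2.1)/z'.1 =
          ((k:ℝ) * ((w.2.1:ℝ) + γ * w.2.2))/(z.1 * z'.1) := by
        have h2r : (z.2.2:ℝ) * z'.1 - z.1 * z'.2.2 = k * w.2.1 := by exact_mod_cast h2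
        have h3r : (z.1:ℝ) * z'.2.1 - z.2.1 * z'.1 = k * w.2.2 := by exact_mod_cast h3
        have h4r : (k:ℝ) * ((w.2.1:ℝ) + γ * w.2.2) = ((z.2.2:ℝ) * z'.1 - z.1 * z'.2.2) +
          γ * ((z.1:ℝ) * z'.2.1 - z.2.1 * z'.1) := by rw [h2r, h3r]; ring
        rw [h4r]; field_simp; ring
      rw [e, abs_div, abs_mul, abs_of_pos (mul_pos hzp hzp')]
      refine div_le_div₀ (by positivity) ?_ (by positivity) ?_
      · have := abs_nonneg ((w.2.1:ℝ) + γ * w.2.2)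
        nlinarith
      · nlinarith
  refine ⟨w, hw, hort, hb1, hb2, ?_⟩
  intro x' hx'
  have h1 := hs z1 hz1
  have hzp : (0:ℝ) < z1.1 := by linarith
  have o1 : (w.1:ℝ) * z1.1 + w.2.1 * z1.2.1 + w.2.2 * z1.2.2 = 0 := by exact_mod_cast hort z1 hz1
  have e : (w.1:ℝ) + α * w.2.1 + (x' + α * γ) * w.2.2 =
      -(((w.2.1:ℝ) + γ * w.2.2) * ((z1.2.1:ℝ)/z1.1 - α)) +
      (w.2.2:ℝ) * (x' - ((z1.2.2:ℝ) - γ * z1.2.1)/z1.1) := by
    have : (w.1:ℝ) = -(w.2.1 * z1.2.1 + w.2.2 * z1.2.2)/z1.1 := by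
      field_simp; linarith
    rw [this]; field_simp; ring
  have k1 : |(z1.2.1:ℝ)/z1.1 - α| ≤ Y/s0 := by
    have e : (z1.2.1:ℝ)/z1.1 - α = ((z1.2.1:ℝ) - α * z1.1)/z1.1 := by field_simp
    rw [e, abs_div, abs_of_pos hzp]
    exact div_le_div₀ hY (ht z1 hz1) hs0 h1.1
  have k2 : |x' - ((z1.2.2:ℝ) - γ * z1.2.1)/z1.1| ≤ 3 * ρ := by
    have h3 : |x - ((z1.2.2:ℝ) - γ * z1.2.1)/z1.1| ≤ 2 * ρ := by
      rw [abs_sub_comm]
      have e : ((z1.2.2:ℝ) - γ * z1.2.1)/z1.1 - x = ((z1.2.2:ℝ) - γ * z1.2.1 - x * z1.1)/z1.1 := by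
        field_simp
      rw [e, abs_div, abs_of_pos hzp, div_le_iff₀ hzp]
      exact hu z1 hz1
    have := abs_sub_le x' x (((z1.2.2:ℝ) - γ * z1.2.1)/z1.1)
    linarith
  rw [e]
  have hM0 : (0:ℝ) ≤ M := Nat.cast_nonneg M
  calc (M:ℝ) * |-(((w.2.1:ℝ) + γ * w.2.2) * ((z1.2.1:ℝ)/z1.1 - α)) +
      (w.2.2:ℝ) * (x' - ((z1.2.2:ℝ) - γ * z1.2.1)/z1.1)|
      ≤ M * (|(w.2.1:ℝ) + γ * w.2.2| * |(z1.2.1:ℝ)/z1.1 - α| +
        |(w.2.2:ℝ)| * |x' - ((z1.2.2:ℝ) - γ * z1.2.1)/z1.1|) := by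
        refine mul_le_mul_of_nonneg_left ?_ hM0
        refine (abs_add_le _ _).trans ?_
        rw [abs_neg, abs_mul, abs_mul]
    _ = (M * |(w.2.1:ℝ) + γ * w.2.2|) * |(z1.2.1:ℝ)/z1.1 - α| +
        (M * |(w.2.2:ℝ)|) * |x' - ((z1.2.2:ℝ) - γ * z1.2.1)/z1.1| := by ring
    _ ≤ (4 * ρ * s1^2) * (Y/s0) + (2 * Y * s1^2 / s0) * (3 * ρ) := by
        refine add_le_add ?_ ?_
        · exact mul_le_mul hb2 k1 (abs_nonneg _) (by positivity)
        · exact mul_le_mul hb1 k2 (abs_nonneg _) (by positivity)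
    _ = 10 * ρ * Y * s1^2 / s0 := by ring

end Pool.Agent.H238R3.Lines
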