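import Pool.Agent.H238R3.Game
import Pool.Agent.H238R3.Lines

set_option autoImplicit false

/-!
# The three families of threats
-/

namespace Pool.Agent.H238R3.Fam

open Pool.Agent.H238R3.Lines Pool.Agent.H238R3.Game

/-- a point `v = (q, p', p)` of the dyadic class `a` at the scale `ρ` -/
def okP (ζ ρ A a : ℝ) (v : ℤ × ℤ × ℤ) : Prop :=
  Prim v ∧ a^4 ≤ (v.1:ℝ) ∧ (v.1:ℝ) < 16 * a^4 ∧ (v.1:ℝ) ≤ A^4 ∧ |(v.2.1:ℝ) - ζ * v.1| < 1 ∧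
  ρ < 1/(2^24 * A^3 * a^5 * |(v.2.1:ℝ) - ζ * v.1|) ∧
  1/(2^24 * A^3 * a^5 * |(v.2.1:ℝ) - ζ * v.1|) ≤ 65536 * ρ

/-- the threat of a point -/
noncomputable def thP (ζ ε A : ℝ) (v : ℤ × ℤ × ℤ) : ℝ × ℝ :=
  ((v.2.2:ℝ)/v.1, ε/(A^4 * v.1 * |(v.2.1:ℝ) - ζ * v.1|))

/-- a line `w = (b, c, a)` of the dyadic class `e` at the scale `ρ` -/
def okD (ρ A e : ℝ) (w : ℤ × ℤ × ℤ) : Prop :=
  Prim w ∧ 0 < w.1 ∧ e^4 ≤ (w.1:ℝ) * |(w.2.1:ℝ)| ∧ (w.1:ℝ) * |(w.2.1:ℝ)| < 16 * e^4 ∧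
  (w.1:ℝ) * |(w.2.1:ℝ)| ≤ A^4 ∧
  ρ < 1/(2^24 * A^2 * e^2 * w.1) ∧ 1/(2^24 * A^2 * e^2 * w.1) ≤ 65536 * ρ

/-- the threat of a line -/
noncomputable def thD (ζ ε A e : ℝ) (w : ℤ × ℤ × ℤ) : ℝ × ℝ :=
  (((w.2.2:ℝ) - ζ * w.2.1)/w.1, ε/(A^3 * e * w.1))

/-- a rational point `p/q` at the scale `ρ` -/
def okB (ρ : ℝ) (v : ℤ × ℤ) : Prop :=
  IsCoprime v.1 v.2 ∧ 0 < v.1 ∧ ρ < 1/(8 * (v.1:ℝ)^2) ∧ 1/(8 * (v.1:ℝ)^2) ≤ 65536 * ρ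

/-- the threat of a rational point -/
noncomputable def thB (v : ℤ × ℤ) : ℝ × ℝ := ((v.2:ℝ)/v.1, 1/(2^39 * (v.1:ℝ)^2))

lemma contains_of {x ρ c r : ℝ} (hρ : 0 ≤ ρ) (h : ∀ x' : ℝ, |x' - x| ≤ ρ → |x' - c| ≤ r) :
    |x - c| + ρ ≤ r := by
  have h1 := h (x+ρ) (by rw [add_sub_cancel_left, abs_of_nonneg hρ])
  have h2 := h (x-ρ) (by rw [show x - ρ - x = -ρ by ring, abs_neg, abs_of_nonneg hρ])
  rw [abs_le] at h1 h2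
  rcases abs_cases (x - c) with ⟨h3, _⟩ | ⟨h3, _⟩ <;> rw [h3] <;> linarith [h1.2, h2.1]

lemma exists_pow16 (t : ℝ) (ht : 1 ≤ t) :
    ∃ j : ℕ, ((2:ℝ)^j)^4 ≤ t ∧ t < 16 * ((2:ℝ)^j)^4 := by
  obtain ⟨j, h1, h2⟩ := exists_nat_pow_near ht (show (1:ℝ) < 16 by norm_num)
  have e : ((2:ℝ)^j)^4 = 16^j := by
    rw [← pow_mul, mul_comm, pow_mul]; norm_num
  refine ⟨j, by rw [e]; exact h1, by rw [e]; rw [pow_succ] at h2; linarith⟩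

lemma cardB (ρ x : ℝ) (hρ : 0 < ρ) (T : Finset (ℤ × ℤ))
    (hT : ∀ v ∈ T, okB ρ v ∧ |(thB v).1 - x| < (thB v).2 + ρ) : T.card ≤ 1 := by
  rw [Finset.card_le_one]
  have key : ∀ v ∈ T, 0 < v.1 ∧ (v.1:ℝ)^2 * ρ < 1/8 ∧ |(v.2:ℝ)/v.1 - x| < 2 * ρ := by
    intro v hv
    obtain ⟨⟨h1, h2, h3, h4⟩, h5⟩ := hT v hv
    have hq : (0:ℝ) < (v.1:ℝ)^2 := by
      have : (0:ℝ) < (v.1:ℝ) := by exact_mod_cast h2
      positivity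
    refine ⟨h2, ?_, ?_⟩
    · rw [lt_div_iff₀ (by positivity)] at h3
      linarith
    · have h6 : (thB v).2 ≤ ρ := by
        have e : (thB v).2 = (1/(8 * (v.1:ℝ)^2)) * (1/2^36) := by
          simp only [thB]; field_simp; norm_num
        rw [e]
        nlinarith
      have h7 : (thB v).1 = (v.2:ℝ)/v.1 := rfl
      rw [h7] at h5
      linarith
  intro v hv w hw
  obtain ⟨hv1, hv2, hv3⟩ := key v hv
  obtain ⟨hw1, hw2, hw3⟩ := key w hw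
  have hv1r : (0:ℝ) < (v.1:ℝ) := by exact_mod_cast hv1
  have hw1r : (0:ℝ) < (w.1:ℝ) := by exact_mod_cast hw1
  have h1 : |(v.2:ℝ)/v.1 - (w.2:ℝ)/w.1| < 4 * ρ := by
    have := abs_sub_le ((v.2:ℝ)/v.1) x ((w.2:ℝ)/w.1)
    rw [abs_sub_comm x] at this
    linarith
  have h2 : |(v.2:ℝ) * w.1 - w.2 * v.1| < 1 := by
    have e : (v.2:ℝ) * w.1 - w.2 * v.1 = ((v.2:ℝ)/v.1 - (w.2:ℝ)/w.1) * (v.1 * w.1) := by
      field_simp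
    rw [e, abs_mul, abs_of_pos (mul_pos hv1r hw1r)]
    have h3 : (v.1:ℝ) * w.1 * ρ ≤ 1/8 := by nlinarith [sq_nonneg ((v.1:ℝ) - w.1)]
    have h4 : 0 < (v.1:ℝ) * w.1 := mul_pos hv1r hw1r
    nlinarith
  have h3 : v.2 * w.1 - w.2 * v.1 = 0 := by
    have : |v.2 * w.1 - w.2 * v.1| < 1 := by exact_mod_cast h2
    exact Int.abs_lt_one_iff.1 this
  have hcv := (hT v hv).1.1
  have hcw := (hT w hw).1.1
  have h4 : v.1 ∣ w.1 := by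
    have : v.1 ∣ v.2 * w.1 := ⟨w.2, by linear_combination h3⟩
    exact hcv.dvd_of_dvd_mul_left this
  have h5 : w.1 ∣ v.1 := by
    have : w.1 ∣ w.2 * v.1 := ⟨v.2, by linear_combination -h3⟩
    exact hcw.dvd_of_dvd_mul_left this
  have h6 : v.1 = w.1 := Int.dvd_antisymm hv1.le hw1.le h4 h5
  have h7 : v.2 = w.2 := by
    rw [h6] at h3
    have : (v.2 - w.2) * w.1 = 0 := by linear_combination h3
    rcases mul_eq_zero.1 this with h | h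
    · omega
    · omega
  exact Prod.ext h6 h7

end Pool.Agent.H238R3.Fam
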