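import Pool.Agent.H238R3.FamP
import Pool.Agent.H238R3.FamD

set_option autoImplicit false

/-!
# The families of threats for badly approximable vectors
-/

namespace Pool.Agent.H238R3.Fam

open Pool.Agent.H238R3.Lines Pool.Agent.H238R3.Game

/-- a point `v = (q, p', p)` of the class `(f, g)` at the scale `ρ` -/
def okP2 (ζ ρ κ f g : ℝ) (v : ℤ × ℤ × ℤ) : Prop :=
  Prim v ∧ 0 < v.1 ∧ f^2 ≤ (v.1:ℝ) ∧ (v.1:ℝ) < 4 * f^2 ∧
  κ < 8 * f * g^3 * |(v.2.1:ℝ) - ζ * v.1| ∧ f * g^3 * |(v.2.1:ℝ) - ζ * v.1| ≤ κ ∧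
  ρ < g/f^3 ∧ g/f^3 ≤ 65536 * ρ

/-- the threat of a point -/
noncomputable def thP2 (κ f : ℝ) (v : ℤ × ℤ × ℤ) : ℝ × ℝ := ((v.2.2:ℝ)/v.1, κ/(f * v.1))

/-- a line `w = (b, c, a)` of the class `(e, h)` at the scale `ρ` -/
def okD2 (ρ e h : ℝ) (w : ℤ × ℤ × ℤ) : Prop :=
  Prim w ∧ 0 < w.1 ∧ e^2 ≤ (w.1:ℝ) ∧ (w.1:ℝ) < 4 * e^2 ∧
  h^2 ≤ max (w.1:ℝ) |(w.2.1:ℝ)| ∧ max (w.1:ℝ) |(w.2.1:ℝ)| < 4 * h^2 ∧
  ρ < 1/(1024 * e^3 * h^3) ∧ 1/(1024 * e^3 * h^3) ≤ 65536 * ρ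

/-- the threat of a line -/
noncomputable def thD2 (ζ κ3 : ℝ) (w : ℤ × ℤ × ℤ) : ℝ × ℝ :=
  (((w.2.2:ℝ) - ζ * w.2.1)/w.1, κ3/(w.1 * (max (w.1:ℝ) |(w.2.1:ℝ)|)^2))

lemma factsP2 {ζ ρ κ f g : ℝ} (hρ : 0 < ρ) (hf : 1 ≤ f) (hg : 1 ≤ g) (hκ0 : 0 < κ)
    {v : ℤ × ℤ × ℤ} (hv : okP2 ζ ρ κ f g v) :
    ρ * f^3 < g ∧ g ≤ 65536 * ρ * f^3 ∧ 0 < (thP2 κ f v).2 ∧
      (thP2 κ f v).2/ρ ≤ 65536 * κ / g := by
  obtain ⟨h1, h2, h3, h4, h5, h6, h7, h8⟩ := hv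
  have hq : (0:ℝ) < (v.1:ℝ) := by exact_mod_cast h2
  have hf0 : 0 < f := by linarith
  have hg0 : 0 < g := by linarith
  have f1 : ρ * f^3 < g := by rwa [lt_div_iff₀ (by positivity)] at h7
  have f2 : g ≤ 65536 * ρ * f^3 := by rwa [div_le_iff₀ (by positivity)] at h8
  have hth : (thP2 κ f v).2 = κ/(f * v.1) := rfl
  refine ⟨f1, f2, ?_, ?_⟩
  · rw [hth]; positivity
  · rw [hth, div_div, div_le_div_iff₀ (by positivity) hg0]
    have : g ≤ 65536 * (f * v.1 * ρ) := by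
      calc g ≤ 65536 * ρ * f^3 := f2
        _ = 65536 * ρ * f * f^2 := by ring
        _ ≤ 65536 * ρ * f * v.1 := by gcongr
        _ = 65536 * (f * v.1 * ρ) := by ring
    calc κ * g ≤ κ * (65536 * (f * v.1 * ρ)) := by gcongr
      _ = 65536 * κ * (f * v.1 * ρ) := by ring

lemma factsD2 {ζ ρ κ3 e h : ℝ} (hρ : 0 < ρ) (he : 1 ≤ e) (heh : e ≤ h) (hκ0 : 0 < κ3)
    {w : ℤ × ℤ × ℤ} (hw : okD2 ρ e h w) :
    1024 * (ρ * e^3 * h^3) < 1 ∧ 1 ≤ 2^26 * (ρ * e^3 * h^3) ∧ 0 < (thD2 ζ κ3 w).2 ∧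
      (thD2 ζ κ3 w).2/ρ ≤ 2^26 * κ3 * (e/h) := by
  obtain ⟨h1, h2, h3, h4, h5, h6, h7, h8⟩ := hw
  have hb : (0:ℝ) < (w.1:ℝ) := by exact_mod_cast h2
  have he0 : 0 < e := by linarith
  have hh0 : 0 < h := by linarith
  set m := max (w.1:ℝ) |(w.2.1:ℝ)| with hm
  have hm0 : 0 < m := lt_of_lt_of_le hb (le_max_left _ _)
  have f1 : 1024 * (ρ * e^3 * h^3) < 1 := by
    rw [lt_div_iff₀ (by positivity)] at h7
    linarith
  have f2 : 1 ≤ 2^26 * (ρ * e^3 * h^3) := by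
    rw [div_le_iff₀ (by positivity)] at h8
    linarith
  have hth : (thD2 ζ κ3 w).2 = κ3/(w.1 * m^2) := rfl
  refine ⟨f1, f2, ?_, ?_⟩
  · rw [hth]; positivity
  · rw [hth, div_div, div_le_iff₀ (by positivity)]
    have e1 : 2^26 * κ3 * (e/h) * (w.1 * m^2 * ρ) = κ3 * (2^26 * ρ * (e/h) * (w.1 * m^2)) := by
      ring
    rw [e1]
    have h9 : 1 ≤ 2^26 * ρ * (e/h) * (w.1 * m^2) := by
      calc (1:ℝ) ≤ 2^26 * (ρ * e^3 * h^3) := f2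
        _ = 2^26 * ρ * (e/h) * (e^2 * (h^2)^2) := by field_simp
        _ ≤ 2^26 * ρ * (e/h) * (w.1 * m^2) := by gcongr
    calc κ3 = κ3 * 1 := (mul_one _).symm
      _ ≤ κ3 * (2^26 * ρ * (e/h) * (w.1 * m^2)) := by gcongr

lemma exists_pow4 (t : ℝ) (ht : 1 ≤ t) :
    ∃ j : ℕ, ((2:ℝ)^j)^2 ≤ t ∧ t < 4 * ((2:ℝ)^j)^2 := by
  obtain ⟨j, h1, h2⟩ := exists_nat_pow_near ht (show (1:ℝ) < 4 by norm_num)
  have e : ((2:ℝ)^j)^2 = 4^j := by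
    rw [← pow_mul, mul_comm, pow_mul]; norm_num
  refine ⟨j, by rw [e]; exact h1, by rw [e]; rw [pow_succ] at h2; linarith⟩

lemma exists_pow8 (t : ℝ) (ht : 1 ≤ t) :
    ∃ j : ℕ, ((2:ℝ)^j)^3 ≤ t ∧ t < 8 * ((2:ℝ)^j)^3 := by
  obtain ⟨j, h1, h2⟩ := exists_nat_pow_near ht (show (1:ℝ) < 8 by norm_num)
  have e : ((2:ℝ)^j)^3 = 8^j := by
    rw [← pow_mul, mul_comm, pow_mul]; norm_num
  refine ⟨j, by rw [e]; exact h1, by rw [e]; rw [pow_succ] at h2; linarith⟩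

theorem cardP2 (ζ ρ x κ κ3 f g δ : ℝ) (N : ℕ) (hρ : 0 < ρ) (hf : 1 ≤ f) (hg : 1 ≤ g)
    (hδ : 0 < δ) (hbad : ∀ q p : ℤ, q ≠ 0 → δ ≤ |(q:ℝ)| * |(q:ℝ)*ζ - p|)
    (hN : 2^47 ≤ (N:ℝ)) (hNδ : 1 ≤ (N:ℝ) * δ) (hκ : κ = 1/(N:ℝ)^12) (hκ3 : κ3 = 1/(N:ℝ)^24)
    (HD : ∀ (i j : ℕ) (w : ℤ × ℤ × ℤ), Prim w → 0 < w.1 → ((2:ℝ)^i)^2 ≤ (w.1:ℝ) →
      (w.1:ℝ) < 4 * ((2:ℝ)^i)^2 → ((2:ℝ)^j)^2 ≤ max (w.1:ℝ) |(w.2.1:ℝ)| →
      max (w.1:ℝ) |(w.2.1:ℝ)| < 4 * ((2:ℝ)^j)^2 →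
      65536 * ρ < 1/(1024 * ((2:ℝ)^i)^3 * ((2:ℝ)^j)^3) →
      ¬ (|x - (thD2 ζ κ3 w).1| + ρ ≤ (thD2 ζ κ3 w).2))
    (T : Finset (ℤ × ℤ × ℤ))
    (hT : ∀ v ∈ T, okP2 ζ ρ κ f g v ∧ |(thP2 κ f v).1 - x| < (thP2 κ f v).2 + ρ) :
    T.card ≤ N^5 := by
  have hf0 : 0 < f := by linarith
  have hg0 : 0 < g := by linarith
  have hN0 : (0:ℝ) < N := by linarith [show (0:ℝ) < 2^47 by positivity]
  have hN1 : (1:ℝ) ≤ N := by linarith [show (1:ℝ) ≤ 2^47 by norm_num]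
  have hκ0 : 0 < κ := by rw [hκ]; positivity
  have hκ30 : 0 < κ3 := by rw [hκ3]; positivity
  have hN12 : (2:ℝ)^47 ≤ (N:ℝ)^12 := by
    calc (2:ℝ)^47 ≤ (N:ℝ) := hN
      _ = (N:ℝ)^1 := (pow_one _).symm
      _ ≤ (N:ℝ)^12 := pow_le_pow_right₀ hN1 (by norm_num)
  have hκs : 2^47 * κ ≤ 1 := by
    rw [hκ, mul_one_div, div_le_one (by positivity)]
    exact hN12
  by_contra hcon
  push Not at hcon
  obtain ⟨T', hT', hcard⟩ := Finset.exists_subset_card_eq (show N^5 + 1 ≤ T.card by omega)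
  obtain ⟨v0, hv0⟩ : T'.Nonempty := by
    rw [← Finset.card_pos]; omega
  obtain ⟨r1, r2, _, _⟩ := factsP2 hρ hf hg hκ0 (hT v0 (hT' hv0)).1
  set Y : ℝ := κ/(f*g^3) with hY
  have hY0 : 0 < Y := by rw [hY]; positivity
  have hYe : Y * (f*g^3) = κ := by rw [hY]; field_simp
  clear_value Y
  have hMr : ((N^5 : ℕ):ℝ) = (N:ℝ)^5 := by push_cast; ring
  set M : ℝ := (N:ℝ)^5 with hM
  have hM0 : 0 < M := by rw [hM]; positivity
  have hNM : (N:ℝ) ≤ M := by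
    calc (N:ℝ) = (N:ℝ)^1 := (pow_one _).symm
      _ ≤ (N:ℝ)^5 := pow_le_pow_right₀ hN1 (by norm_num)
  have hM47 : 2^47 ≤ M := hN.trans hNM
  have hfacts : ∀ v ∈ T', f^2 ≤ (v.1:ℝ) ∧ (v.1:ℝ) ≤ 4 * f^2 ∧ |(v.2.1:ℝ) - ζ * v.1| ≤ Y ∧
      |(v.2.2:ℝ) - 0 * v.2.1 - x * v.1| ≤ 2 * ρ * v.1 ∧ Prim v := by
    intro v hv
    obtain ⟨h1, h2⟩ := hT v (hT' hv)
    obtain ⟨f1, f2, f3, f4⟩ := factsP2 hρ hf hg hκ0 h1
    obtain ⟨g1, g2, g3, g4, g5, g6, g7, g8⟩ := h1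
    have hq : (0:ℝ) < (v.1:ℝ) := by exact_mod_cast g2
    set y := |(v.2.1:ℝ) - ζ * v.1| with hy
    have hthle : (thP2 κ f v).2 ≤ ρ := by
      rw [div_le_iff₀ hρ] at f4
      have h5 : 65536 * κ / g ≤ 1 := by
        rw [div_le_one hg0]; linarith
      nlinarith
    refine ⟨g3, g4.le, ?_, ?_, g1⟩
    · have h3 : (f*g^3) * y ≤ (f*g^3) * Y := by linarith
      exact le_of_mul_le_mul_left h3 (by positivity)
    · have h3 : |(v.2.2:ℝ)/v.1 - x| < 2 * ρ := by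
        have : (thP2 κ f v).1 = (v.2.2:ℝ)/v.1 := rfl
        rw [this] at h2
        linarith
      have e : (v.2.2:ℝ) - 0 * v.2.1 - x * v.1 = ((v.2.2:ℝ)/v.1 - x) * v.1 := by field_simp; ring
      rw [e, abs_mul, abs_of_pos hq]
      exact mul_le_mul_of_nonneg_right h3.le hq.le
  have hYf : Y * f ≤ κ := by
    calc Y * f = Y * (f * 1) := by ring
      _ ≤ Y * (f * g^3) := by
          have : 1 ≤ g^3 := one_le_pow₀ hg
          gcongr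
      _ = κ := hYe
  -- ρ Y f^4 g^2 ≤ κ
  have hkey : ρ * Y * f^4 * g^2 ≤ κ := by
    calc ρ * Y * f^4 * g^2 = (ρ * f^3) * (Y * f * g^2) := by ring
      _ ≤ g * (Y * f * g^2) := by gcongr
      _ = κ := by rw [← hYe]; ring
  have hdet : 12 * ρ * (4*f^2)^2 * Y < 1 := by
    have h1 : ρ * Y * f^4 ≤ κ := by
      have h2 : 1 ≤ g^2 := one_le_pow₀ hg
      have h3 : 0 ≤ ρ * Y * f^4 := by positivity
      nlinarith
    nlinarith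
  obtain ⟨w, hw, hort, hb1, hb2, hb3⟩ := lines x ρ ζ 0 Y (f^2) (4*f^2) hρ.le hY0.le (by positivity)
    hdet T' (N^5) (pow_pos (by exact_mod_cast hN0) 5) hcard (fun z hz => (hfacts z hz).2.2.2.2)
    (fun z hz => ⟨(hfacts z hz).1, (hfacts z hz).2.1⟩) (fun z hz => (hfacts z hz).2.2.1)
    (fun z hz => (hfacts z hz).2.2.2.1)
  rw [hMr] at hb1 hb2 hb3
  have hb1' : M * |(w.2.2:ℝ)| ≤ 32 * f^2 * Y := by
    refine hb1.trans (le_of_eq ?_); field_simp; ring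
  have hb2' : M * |(w.2.1:ℝ)| ≤ 64 * (g * f) := by
    rw [zero_mul, add_zero] at hb2
    refine hb2.trans ?_
    calc 4 * ρ * (4*f^2)^2 = 64 * ((ρ * f^3) * f) := by ring
      _ ≤ 64 * (g * f) := by gcongr
  have hb3' : ∀ x' : ℝ, |x' - x| ≤ ρ →
      M * |(w.1:ℝ) + ζ * w.2.1 + x' * w.2.2| * (f^2 * g^2) ≤ 160 * κ := by
    intro x' hx'
    have := hb3 x' hx'
    rw [mul_zero, add_zero] at this
    calc M * |(w.1:ℝ) + ζ * w.2.1 + x' * w.2.2| * (f^2 * g^2)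
        ≤ (10 * ρ * Y * (4*f^2)^2/f^2) * (f^2 * g^2) := by gcongr
      _ = 160 * (ρ * Y * f^4 * g^2) := by field_simp; ring
      _ ≤ 160 * κ := by gcongr
  clear hb1 hb2 hb3
  have hfg1 : 1 ≤ f * g := by nlinarith
  by_cases hw3 : w.2.2 = 0
  · have hw2 : w.2.1 ≠ 0 := by
      intro h2
      have h1 := hort v0 hv0
      rw [hw3, h2] at h1
      have hv1 : v0.1 ≠ 0 := by
        have := (hT v0 (hT' hv0)).1.2.1
        omega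
      have : w.1 = 0 := by
        have h4 : w.1 * v0.1 = 0 := by linarith
        rcases mul_eq_zero.1 h4 with h | h
        · exact h
        · exact absurd h hv1
      exact hw.ne_zero ⟨this, h2, hw3⟩
    have h1 := hbad w.2.1 (-w.1) hw2
    have h2 := hb3' x (by simpa using hρ.le)
    rw [hw3] at h2
    have e : (w.1:ℝ) + ζ * w.2.1 + x * ((0:ℤ):ℝ) = (w.2.1:ℝ)*ζ - ((-w.1:ℤ):ℝ) := by push_cast; ring
    rw [e] at h2
    set z := |(w.2.1:ℝ)*ζ - ((-w.1:ℤ):ℝ)| with hz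
    have hz0 : 0 ≤ z := abs_nonneg _
    have h3 : (M^2 * δ) * (f * g)^2 ≤ 10240 * κ * (f * g) := by
      calc (M^2 * δ) * (f * g)^2 ≤ (M^2 * (|(w.2.1:ℝ)| * z)) * (f * g)^2 := by gcongr
        _ = (M * |(w.2.1:ℝ)|) * (M * z * (f^2 * g^2)) := by ring
        _ ≤ (64 * (g * f)) * (160 * κ) := mul_le_mul hb2' h2 (by positivity) (by positivity)
        _ = 10240 * κ * (f * g) := by ring
    have h4 : M^2 * δ ≤ 10240 * κ := by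
      have h5 : (M^2 * δ * (f * g)) * (f * g) ≤ (10240 * κ) * (f * g) := by linarith
      have h6 := le_of_mul_le_mul_right h5 (by positivity)
      have h7 : M^2 * δ ≤ M^2 * δ * (f * g) := by
        have : 0 ≤ M^2 * δ := by positivity
        nlinarith
      linarith
    have h5 : 1 ≤ M * δ := hNδ.trans (mul_le_mul_of_nonneg_right hNM hδ.le)
    nlinarith
  obtain ⟨l, hl, hl1, hlb, hlc, hlx⟩ := norm_line ζ w hw hw3
  have hl1r : (0:ℝ) < (l.1:ℝ) := by exact_mod_cast hl1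
  have hl11 : (1:ℝ) ≤ (l.1:ℝ) := by exact_mod_cast hl1
  have F1 : M * (l.1:ℝ) ≤ 32 * f^2 * Y := by rw [hlb]; exact hb1'
  have F2 : M * |(l.2.1:ℝ)| ≤ 64 * (g * f) := by rw [hlc]; exact hb2'
  have F3 : ∀ x' : ℝ, |x' - x| ≤ ρ →
      M * |(l.1:ℝ) * x' + ζ * l.2.1 - l.2.2| * (f^2 * g^2) ≤ 160 * κ := by
    intro x' hx'
    rw [hlx]; exact hb3' x' hx'
  clear hb1' hb2' hb3' hlx hlb hlc hw3 hort hw
  have F1' : M * (l.1:ℝ) ≤ 64 * (g * f) := by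
    calc M * (l.1:ℝ) ≤ 32 * f^2 * Y := F1
      _ = 32 * (Y * f) * f := by ring
      _ ≤ 32 * κ * f := by gcongr
      _ ≤ 64 * (g * f) := by nlinarith
  set m := max (l.1:ℝ) |(l.2.1:ℝ)| with hm
  have hm1 : 1 ≤ m := hl11.trans (le_max_left _ _)
  have F4 : M * m ≤ 64 * (g * f) := by
    rcases max_choice (l.1:ℝ) |(l.2.1:ℝ)| with h | h
    · rw [hm, h]; exact F1'
    · rw [hm, h]; exact F2
  obtain ⟨i, hi1, hi2⟩ := exists_pow4 _ hl11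
  obtain ⟨j, hj1, hj2⟩ := exists_pow4 _ hm1
  refine HD i j l hl hl1 hi1 hi2 hj1 hj2 ?_ ?_
  · set e := (2:ℝ)^i with he
    set h := (2:ℝ)^j with hh
    have he0 : 0 < e := by rw [he]; positivity
    have hh0 : 0 < h := by rw [hh]; positivity
    clear_value e h
    rw [lt_div_iff₀ (by positivity)]
    have h1 : (e * h * g * (N:ℝ)^10)^2 ≤ f^2 := by
      have h2 : M^2 * (e * h)^2 ≤ (32 * f^2 * Y) * (64 * (g * f)) := by
        calc M^2 * (e * h)^2 = (M * e^2) * (M * h^2) := by ring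
          _ ≤ (M * l.1) * (M * m) := by gcongr
          _ ≤ (32 * f^2 * Y) * (64 * (g * f)) := mul_le_mul F1 F4 (by positivity) (by positivity)
      have h3 : (32 * f^2 * Y) * (64 * (g * f)) * g^2 = 2048 * κ * f^2 := by
        rw [← hYe]; ring
      have h4 : M^2 * (e * h)^2 * g^2 * (N:ℝ)^12 ≤ 2048 * f^2 := by
        calc M^2 * (e * h)^2 * g^2 * (N:ℝ)^12
            ≤ (32 * f^2 * Y) * (64 * (g * f)) * g^2 * (N:ℝ)^12 := by gcongr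
          _ = 2048 * κ * f^2 * (N:ℝ)^12 := by rw [h3]
          _ = 2048 * f^2 := by rw [hκ]; field_simp
      have h5 : (e * h * g * (N:ℝ)^10)^2 * (N:ℝ)^2 ≤ 2048 * f^2 := by
        calc (e * h * g * (N:ℝ)^10)^2 * (N:ℝ)^2 = M^2 * (e * h)^2 * g^2 * (N:ℝ)^12 := by
              rw [hM]; ring
          _ ≤ 2048 * f^2 := h4
      have h6 : (2048:ℝ) ≤ (N:ℝ)^2 := by nlinarith [show (2048:ℝ) ≤ 2^47 by norm_num]
      have h7 : (e * h * g * (N:ℝ)^10)^2 * 2048 ≤ 2048 * f^2 := by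
        refine le_trans ?_ h5
        gcongr
      linarith
    have h2 : e * h * g * (N:ℝ)^10 ≤ f := le_of_pow_le_pow_left₀ (by norm_num) hf0.le h1
    have h3 : e * h * (N:ℝ)^10 ≤ f := by
      refine le_trans ?_ h2
      have : 0 ≤ e * h * (N:ℝ)^10 := by positivity
      calc e * h * (N:ℝ)^10 = e * h * (N:ℝ)^10 * 1 := (mul_one _).symm
        _ ≤ e * h * (N:ℝ)^10 * g := by gcongr
        _ = e * h * g * (N:ℝ)^10 := by ring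
    have h4 : (e * h * g) * (e * h)^2 * (N:ℝ)^30 ≤ f^3 := by
      calc (e * h * g) * (e * h)^2 * (N:ℝ)^30
          = (e * h * g * (N:ℝ)^10) * (e * h * (N:ℝ)^10)^2 := by ring
        _ ≤ f * f^2 := by gcongr
        _ = f^3 := by ring
    have h5 : ρ * (e * h)^3 * (N:ℝ)^30 < 1 := by
      have h6 : ρ * ((e * h * g) * (e * h)^2 * (N:ℝ)^30) < g := by
        refine lt_of_le_of_lt ?_ r1
        gcongr
      have h7 : g * (ρ * (e * h)^3 * (N:ℝ)^30) < g * 1 := by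
        calc g * (ρ * (e * h)^3 * (N:ℝ)^30) = ρ * ((e * h * g) * (e * h)^2 * (N:ℝ)^30) := by ring
          _ < g * 1 := by rw [mul_one]; exact h6
      exact lt_of_mul_lt_mul_left h7 hg0.le
    have h6 : (2:ℝ)^26 ≤ (N:ℝ)^30 := by
      calc (2:ℝ)^26 ≤ 2^47 := by norm_num
        _ ≤ (N:ℝ)^12 := hN12
        _ ≤ (N:ℝ)^30 := pow_le_pow_right₀ hN1 (by norm_num)
    calc 65536 * ρ * (1024 * e^3 * h^3) = ρ * (e * h)^3 * 2^26 := by ring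
      _ ≤ ρ * (e * h)^3 * (N:ℝ)^30 := by gcongr
      _ < 1 := h5
  · refine contains_of hρ.le (fun x' hx' => ?_)
    have h1 := F3 x' hx'
    have h2 : x' - (thD2 ζ κ3 l).1 = ((l.1:ℝ) * x' + ζ * l.2.1 - l.2.2)/l.1 := by
      simp only [thD2]; field_simp; ring
    rw [h2, abs_div, abs_of_pos hl1r]
    have h3 : (thD2 ζ κ3 l).2 = κ3/(l.1 * m^2) := rfl
    rw [h3, div_le_div_iff₀ hl1r (by positivity)]
    set z := |(l.1:ℝ) * x' + ζ * l.2.1 - l.2.2| with hz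
    have hz0 : 0 ≤ z := abs_nonneg _
    have h4 : z * m^2 ≤ κ3 := by
      have h5 : (M^3 * (z * m^2)) * (f * g)^2 ≤ (655360 * κ) * (f * g)^2 := by
        calc (M^3 * (z * m^2)) * (f * g)^2 = (M * z * (f^2 * g^2)) * (M * m)^2 := by ring
          _ ≤ (160 * κ) * (64 * (g * f))^2 := by gcongr
          _ = (655360 * κ) * (f * g)^2 := by ring
      have h6 : M^3 * (z * m^2) ≤ 655360 * κ := le_of_mul_le_mul_right h5 (by positivity)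
      have h7 : M^3 * (z * m^2) ≤ M^3 * κ3 := by
        refine h6.trans ?_
        rw [hM, hκ, hκ3]
        have h8 : (655360:ℝ) ≤ (N:ℝ)^3 := by
          calc (655360:ℝ) ≤ 2^47 := by norm_num
            _ ≤ (N:ℝ) := hN
            _ = (N:ℝ)^1 := (pow_one _).symm
            _ ≤ (N:ℝ)^3 := pow_le_pow_right₀ hN1 (by norm_num)
        calc 655360 * (1/(N:ℝ)^12) ≤ (N:ℝ)^3 * (1/(N:ℝ)^12) := by gcongr
          _ = ((N:ℝ)^5)^3 * (1/(N:ℝ)^24) := by field_simp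
      exact le_of_mul_le_mul_left h7 (by positivity)
    calc z * (l.1 * m^2) = z * m^2 * l.1 := by ring
      _ ≤ κ3 * l.1 := mul_le_mul_of_nonneg_right h4 hl1r.le

end Pool.Agent.H238R3.Fam
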