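import Pool.Agent.H238R3.Fam2
import Pool.Agent.H238R3.Build294

set_option autoImplicit false

/-!
# Counting the line threats of the second kind, and sums over classes
-/

namespace Pool.Agent.H238R3.Fam

open Pool.Agent.H238R3.Lines Pool.Agent.H238R3.Game

theorem cardD2 (ζ ρ x κ κ3 e h δ : ℝ) (N : ℕ) (hρ : 0 < ρ) (he : 1 ≤ e) (heh : e ≤ h)
    (hδ : 0 < δ) (hbad : ∀ q p : ℤ, q ≠ 0 → δ ≤ |(q:ℝ)| * |(q:ℝ)*ζ - p|)
    (hN : 2^47 ≤ (N:ℝ)) (hκ : κ = 1/(N:ℝ)^12) (hκ3 : κ3 = 1/(N:ℝ)^24)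
    (HP : ∀ (i l : ℕ) (v : ℤ × ℤ × ℤ), Prim v → 0 < v.1 → ((2:ℝ)^i)^2 ≤ (v.1:ℝ) →
      (v.1:ℝ) < 4 * ((2:ℝ)^i)^2 → κ < 8 * (2:ℝ)^i * ((2:ℝ)^l)^3 * |(v.2.1:ℝ) - ζ * v.1| →
      (2:ℝ)^i * ((2:ℝ)^l)^3 * |(v.2.1:ℝ) - ζ * v.1| ≤ κ →
      65536 * ρ < (2:ℝ)^l/((2:ℝ)^i)^3 →
      ¬ (|x - (thP2 κ (2^i) v).1| + ρ ≤ (thP2 κ (2^i) v).2))
    (T : Finset (ℤ × ℤ × ℤ))
    (hT : ∀ w ∈ T, okD2 ρ e h w ∧ |(thD2 ζ κ3 w).1 - x| < (thD2 ζ κ3 w).2 + ρ) :
    T.card ≤ N^9 := by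
  have he0 : 0 < e := by linarith
  have hh0 : 0 < h := by linarith
  have hN0 : (0:ℝ) < N := by linarith [show (0:ℝ) < 2^47 by positivity]
  have hN1 : (1:ℝ) ≤ N := by linarith [show (1:ℝ) ≤ 2^47 by norm_num]
  have hκ0 : 0 < κ := by rw [hκ]; positivity
  have hκ30 : 0 < κ3 := by rw [hκ3]; positivity
  have hN24 : (2:ℝ)^47 ≤ (N:ℝ)^24 := by
    calc (2:ℝ)^47 ≤ (N:ℝ) := hN
      _ = (N:ℝ)^1 := (pow_one _).symm
      _ ≤ (N:ℝ)^24 := pow_le_pow_right₀ hN1 (by norm_num)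
  have hκs : 2^47 * κ3 ≤ 1 := by
    rw [hκ3, mul_one_div, div_le_one (by positivity)]
    exact hN24
  by_contra hcon
  push Not at hcon
  obtain ⟨T', hT', hcard⟩ := Finset.exists_subset_card_eq (show N^9 + 1 ≤ T.card by omega)
  obtain ⟨w0, hw0⟩ : T'.Nonempty := by
    rw [← Finset.card_pos]; omega
  obtain ⟨r1, r2, _, _⟩ := factsD2 (ζ := ζ) hρ he heh hκ30 (hT w0 (hT' hw0)).1
  have hMr : ((N^9 : ℕ):ℝ) = (N:ℝ)^9 := by push_cast; ring
  set M : ℝ := (N:ℝ)^9 with hM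
  have hM0 : 0 < M := by rw [hM]; positivity
  have hNM : (N:ℝ) ≤ M := by
    calc (N:ℝ) = (N:ℝ)^1 := (pow_one _).symm
      _ ≤ (N:ℝ)^9 := pow_le_pow_right₀ hN1 (by norm_num)
  have hM47 : 2^47 ≤ M := hN.trans hNM
  have hM1 : 1 ≤ M := by linarith [show (1:ℝ) ≤ 2^47 by norm_num]
  have hfacts : ∀ w ∈ T', e^2 ≤ (w.1:ℝ) ∧ (w.1:ℝ) ≤ 4 * e^2 ∧
      |(w.2.1:ℝ) - 0 * w.1| ≤ 4 * h^2 ∧
      |(w.2.2:ℝ) - ζ * w.2.1 - x * w.1| ≤ 2 * ρ * w.1 ∧ Prim w := by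
    intro w hw
    obtain ⟨h1, h2⟩ := hT w (hT' hw)
    obtain ⟨f1, f2, f3, f4⟩ := factsD2 (ζ := ζ) hρ he heh hκ30 h1
    obtain ⟨g1, g2, g3, g4, g5, g6, g7, g8⟩ := h1
    have hb : (0:ℝ) < (w.1:ℝ) := by exact_mod_cast g2
    have hthle : (thD2 ζ κ3 w).2 ≤ ρ := by
      rw [div_le_iff₀ hρ] at f4
      have h3 : e/h ≤ 1 := (div_le_one hh0).2 heh
      have h4 : 0 ≤ e/h := by positivity
      have h5 : 2^26 * κ3 * (e/h) ≤ 1 := by nlinarith
      nlinarith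
    refine ⟨g3, g4.le, ?_, ?_, g1⟩
    · rw [zero_mul, sub_zero]
      exact (le_max_right _ _).trans g6.le
    · have h3 : |((w.2.2:ℝ) - ζ * w.2.1)/w.1 - x| < 2 * ρ := by
        have : (thD2 ζ κ3 w).1 = ((w.2.2:ℝ) - ζ * w.2.1)/w.1 := rfl
        rw [this] at h2
        linarith
      have e1 : (w.2.2:ℝ) - ζ * w.2.1 - x * w.1 = (((w.2.2:ℝ) - ζ * w.2.1)/w.1 - x) * w.1 := by
        field_simp
      rw [e1, abs_mul, abs_of_pos hb]
      exact mul_le_mul_of_nonneg_right h3.le hb.le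
  have he4h2 : e^4 * h^2 ≤ e^3 * h^3 := by
    calc e^4 * h^2 = e^3 * h^2 * e := by ring
      _ ≤ e^3 * h^2 * h := by gcongr
      _ = e^3 * h^3 := by ring
  have he4 : e^4 ≤ e^3 * h^3 := by
    refine le_trans ?_ he4h2
    have : 1 ≤ h^2 := one_le_pow₀ (he.trans heh)
    have : 0 < e^4 := by positivity
    nlinarith
  have hdet : 12 * ρ * (4*e^2)^2 * (4 * h^2) < 1 := by
    calc 12 * ρ * (4*e^2)^2 * (4 * h^2) = 768 * ρ * (e^4 * h^2) := by ring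
      _ ≤ 768 * ρ * (e^3 * h^3) := by gcongr
      _ < 1 := by
        have : 0 < ρ * e^3 * h^3 := by positivity
        nlinarith
  obtain ⟨w, hw, hort, hb1, hb2, hb3⟩ := lines x ρ 0 ζ (4*h^2) (e^2) (4*e^2) hρ.le
    (by positivity) (by positivity) hdet T' (N^9) (pow_pos (by exact_mod_cast hN0) 9) hcard
    (fun z hz => (hfacts z hz).2.2.2.2)
    (fun z hz => ⟨(hfacts z hz).1, (hfacts z hz).2.1⟩) (fun z hz => (hfacts z hz).2.2.1)
    (fun z hz => (hfacts z hz).2.2.2.1)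
  rw [hMr] at hb1 hb2 hb3
  have hb1' : M * |(w.2.2:ℝ)| ≤ 128 * e^2 * h^2 := by
    refine hb1.trans (le_of_eq ?_); field_simp; ring
  have hb2' : M * |(w.2.1:ℝ) + ζ * w.2.2| ≤ 64 * ρ * e^4 := by
    refine hb2.trans (le_of_eq ?_); ring
  have hb3' : ∀ x' : ℝ, |x' - x| ≤ ρ →
      M * |(w.1:ℝ) + x' * w.2.2| ≤ 640 * ρ * e^2 * h^2 := by
    intro x' hx'
    have := hb3 x' hx'
    rw [zero_mul, zero_mul, add_zero, add_zero] at this
    refine this.trans (le_of_eq ?_); field_simp; ring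
  clear hb1 hb2 hb3
  have hρe4 : 1024 * (ρ * e^4) < 1 := by
    calc 1024 * (ρ * e^4) ≤ 1024 * (ρ * (e^3 * h^3)) := by gcongr
      _ = 1024 * (ρ * e^3 * h^3) := by ring
      _ < 1 := r1
  have hw3 : w.2.2 ≠ 0 := by
    intro h3
    have hw2 : w.2.1 = 0 := by
      by_contra h2
      rw [h3] at hb2'
      have h4 : (1:ℝ) ≤ |(w.2.1:ℝ)| := by
        have := Int.one_le_abs h2
        exact_mod_cast this
      rw [Int.cast_zero, mul_zero, add_zero] at hb2'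
      nlinarith
    have h1 := hort w0 hw0
    rw [h3, hw2] at h1
    have hv1 : w0.1 ≠ 0 := by
      have := (hT w0 (hT' hw0)).1.2.1
      omega
    have : w.1 = 0 := by
      have h4 : w.1 * w0.1 = 0 := by linarith
      rcases mul_eq_zero.1 h4 with h | h
      · exact h
      · exact absurd h hv1
    exact hw.ne_zero ⟨this, hw2, h3⟩
  obtain ⟨v, hv, hv1, hvq, hvy, hvx⟩ := norm_point ζ w hw hw3
  have hq0 : (0:ℝ) < (v.1:ℝ) := by exact_mod_cast hv1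
  have hq1 : (1:ℝ) ≤ (v.1:ℝ) := by exact_mod_cast hv1
  set y := |(v.2.1:ℝ) - ζ * v.1| with hy
  have F1 : M * (v.1:ℝ) ≤ 128 * e^2 * h^2 := by rw [hvq]; exact hb1'
  have F2 : M * y ≤ 64 * ρ * e^4 := by rw [hvy]; exact hb2'
  have F3 : ∀ x' : ℝ, |x' - x| ≤ ρ → M * |(v.1:ℝ) * x' - v.2.2| ≤ 640 * ρ * e^2 * h^2 := by
    intro x' hx'; rw [hvx]; exact hb3' x' hx'
  have hy0 : 0 < y := by
    have h1 := hbad v.1 v.2.1 (by omega)
    rw [abs_of_pos hq0, show (v.1:ℝ)*ζ - v.2.1 = -((v.2.1:ℝ) - ζ * v.1) by ring, abs_neg] at h1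
    by_contra hneg
    push Not at hneg
    nlinarith
  clear hb1' hb2' hb3' hvx hvq hvy hw3 hort hw
  clear_value y
  obtain ⟨i, hi1, hi2⟩ := exists_pow4 _ hq1
  obtain ⟨f, hf⟩ : ∃ f : ℝ, f = (2:ℝ)^i := ⟨_, rfl⟩
  rw [← hf] at hi1 hi2
  have hf0 : 0 < f := by rw [hf]; positivity
  have hf1 : 1 ≤ f := by rw [hf]; exact one_le_pow₀ (by norm_num)
  -- N^4 f ≤ e h
  have hfe : f * (N:ℝ)^4 ≤ e * h := by
    have h1 : (f * (N:ℝ)^4)^2 ≤ (e * h)^2 := by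
      have h2 : (f * (N:ℝ)^4)^2 * N ≤ (e * h)^2 * N := by
        calc (f * (N:ℝ)^4)^2 * N = M * f^2 := by rw [hM]; ring
          _ ≤ M * v.1 := by gcongr
          _ ≤ 128 * e^2 * h^2 := F1
          _ = (e * h)^2 * 128 := by ring
          _ ≤ (e * h)^2 * N := by
              have : (128:ℝ) ≤ N := by linarith [show (128:ℝ) ≤ 2^47 by norm_num]
              gcongr
      exact le_of_mul_le_mul_right h2 hN0
    exact le_of_pow_le_pow_left₀ (by norm_num) (by positivity) h1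
  have hy13 : y * f * (N:ℝ)^13 ≤ 1 := by
    calc y * f * (N:ℝ)^13 = (M * y) * (f * (N:ℝ)^4) := by rw [hM]; ring
      _ ≤ (64 * ρ * e^4) * (e * h) := mul_le_mul F2 hfe (by positivity) (by positivity)
      _ = 64 * (ρ * e^3 * h * e^2) := by ring
      _ ≤ 64 * (ρ * e^3 * h * h^2) := by gcongr
      _ = 64 * (ρ * e^3 * h^3) := by ring
      _ ≤ 1 := by
        have : 0 < ρ * e^3 * h^3 := by positivity
        nlinarith
  have hκN : κ * (N:ℝ)^13 = N := by rw [hκ]; field_simp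
  have hyf : y * f ≤ κ := by
    have h1 : (y * f) * (N:ℝ)^13 ≤ κ * (N:ℝ)^13 := by rw [hκN]; linarith
    exact le_of_mul_le_mul_right h1 (by positivity)
  have h1κ : 1 ≤ κ/(f*y) := by
    rw [le_div_iff₀ (by positivity)]; linarith
  obtain ⟨l, hl1, hl2⟩ := exists_pow8 _ h1κ
  obtain ⟨g, hg⟩ : ∃ g : ℝ, g = (2:ℝ)^l := ⟨_, rfl⟩
  rw [← hg] at hl1 hl2
  have hg0 : 0 < g := by rw [hg]; positivity
  rw [le_div_iff₀ (by positivity)] at hl1
  rw [div_lt_iff₀ (by positivity)] at hl2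
  refine HP i l v hv hv1 (by rw [← hf]; exact hi1) (by rw [← hf]; exact hi2)
    (by rw [← hy, ← hf, ← hg]; linarith) (by rw [← hy, ← hf, ← hg]; linarith) ?_ ?_
  · rw [← hf, ← hg]
    by_contra hcon2
    push Not at hcon2
    rw [div_le_iff₀ (by positivity)] at hcon2
    have h1 : g^3 ≤ (65536 * ρ * f^3)^3 := pow_le_pow_left₀ hg0.le hcon2 3
    have h2 : κ < 2^51 * ρ^3 * f^10 * y := by
      calc κ < 8 * g^3 * (f * y) := hl2
        _ ≤ 8 * (65536 * ρ * f^3)^3 * (f * y) := by gcongr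
        _ = 2^51 * ρ^3 * f^10 * y := by ring
    have h3 : 2^51 * ρ^3 * f^10 * y * (N:ℝ)^49 ≤ 2^17 := by
      calc 2^51 * ρ^3 * f^10 * y * (N:ℝ)^49
          = 2^51 * ρ^3 * (f * (N:ℝ)^4)^10 * (M * y) := by rw [hM]; ring
        _ ≤ 2^51 * ρ^3 * (e * h)^10 * (64 * ρ * e^4) := by gcongr
        _ = 2^57 * ρ^4 * e^12 * h^10 * e^2 := by ring
        _ ≤ 2^57 * ρ^4 * e^12 * h^10 * h^2 := by gcongr
        _ = 2^17 * (1024 * (ρ * e^3 * h^3))^4 := by ring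
        _ ≤ 2^17 * 1^4 := by gcongr
        _ = 2^17 := by norm_num
    have h4 : κ * (N:ℝ)^49 = (N:ℝ)^37 := by rw [hκ]; field_simp
    have h5 : (N:ℝ)^37 < 2^17 := by
      calc (N:ℝ)^37 = κ * (N:ℝ)^49 := h4.symm
        _ < 2^51 * ρ^3 * f^10 * y * (N:ℝ)^49 := by gcongr
        _ ≤ 2^17 := h3
    have h6 : (2:ℝ)^47 ≤ (N:ℝ)^37 := by
      calc (2:ℝ)^47 ≤ (N:ℝ) := hN
        _ = (N:ℝ)^1 := (pow_one _).symm
        _ ≤ (N:ℝ)^37 := pow_le_pow_right₀ hN1 (by norm_num)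
    linarith [show (2:ℝ)^17 ≤ 2^47 by norm_num]
  · refine contains_of hρ.le (fun x' hx' => ?_)
    have h1 := F3 x' hx'
    have h2 : x' - (thP2 κ (2^i) v).1 = ((v.1:ℝ) * x' - v.2.2)/v.1 := by
      simp only [thP2]; field_simp
    rw [h2, abs_div, abs_of_pos hq0]
    have h3 : (thP2 κ (2^i) v).2 = κ/(f * v.1) := by rw [hf]; rfl
    rw [h3, div_le_div_iff₀ hq0 (by positivity)]
    set z := |(v.1:ℝ) * x' - v.2.2| with hz
    have hz0 : 0 ≤ z := abs_nonneg _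
    have h4 : z * f ≤ κ := by
      have h5 : (z * f) * (N:ℝ)^13 ≤ κ * (N:ℝ)^13 := by
        rw [hκN]
        calc (z * f) * (N:ℝ)^13 = (M * z) * (f * (N:ℝ)^4) := by rw [hM]; ring
          _ ≤ (640 * ρ * e^2 * h^2) * (e * h) := mul_le_mul h1 hfe (by positivity) (by positivity)
          _ = 640 * (ρ * e^3 * h^3) := by ring
          _ ≤ N := by
            have : 0 < ρ * e^3 * h^3 := by positivity
            nlinarith
      exact le_of_mul_le_mul_right h5 (by positivity)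
    calc z * (f * v.1) = z * f * v.1 := by ring
      _ ≤ κ * v.1 := mul_le_mul_of_nonneg_right h4 hq0.le

lemma geomW (n : ℕ) : ∑ l ∈ Finset.range n, W (1/2^l) ≤ 5/2 := by
  have h1 : ∀ l : ℕ, W (1/2^l) ≤ (3/5)^l := by
    intro l
    induction l with
    | zero => simp [W_one]
    | succ l ih =>
      have e : (1:ℝ)/2^(l+1) = (1/2) * (1/2^l) := by rw [pow_succ]; field_simp
      rw [e, W_mul (by norm_num) (by positivity), pow_succ, mul_comm ((3/5:ℝ)^l)]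
      exact mul_le_mul W_half ih (W_nonneg (by positivity)) (by norm_num)
  have h2 : ∀ n : ℕ, ∑ l ∈ Finset.range n, (3/5:ℝ)^l = (1 - (3/5)^n) * (5/2) := by
    intro n
    induction n with
    | zero => simp
    | succ n ih => rw [Finset.sum_range_succ, ih, pow_succ]; ring
  refine (Finset.sum_le_sum (fun l _ => h1 l)).trans ?_
  rw [h2]
  have : (0:ℝ) < (3/5)^n := by positivity
  linarith

lemma class_sum {ρ : ℝ} (hρ : 0 < ρ) (I M : ℕ) (θ : ℝ) (hθ : 0 ≤ θ) (t : ℕ → ℕ → ℝ)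
    (hdec : ∀ i l, t (i+1) l ≤ t i l / 8)
    (S : ℕ → ℕ → Set (ℝ × ℝ))
    (hS : ∀ i l, ρ < t i l → t i l ≤ 65536 * ρ → Small ρ (S i l) (M * W (θ/2^l))) :
    Small ρ {p | ∃ i ∈ Finset.range I, ∃ l ∈ Finset.range I,
      ρ < t i l ∧ t i l ≤ 65536 * ρ ∧ p ∈ S i l} (15 * (M * W θ)) := by
  classical
  have hdeck : ∀ i l k, t (i+k) l * 8^k ≤ t i l := by
    intro i l k
    induction k with
    | zero => simp
    | succ k ih =>
      have h1 := hdec (i+k) l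
      have h2 : t (i+(k+1)) l * 8^(k+1) ≤ t (i+k) l * 8^k := by
        rw [← add_assoc, pow_succ]
        have h3 : (0:ℝ) < 8^k := by positivity
        nlinarith
      exact h2.trans ih
  have hcard : ∀ l, ((Finset.range I).filter (fun i => ρ < t i l ∧ t i l ≤ 65536 * ρ)).card ≤ 6 := by
    intro l
    set s := (Finset.range I).filter (fun i => ρ < t i l ∧ t i l ≤ 65536 * ρ) with hs
    rcases s.eq_empty_or_nonempty with h | h
    · rw [h]; simp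
    · have hsub : s ⊆ Finset.Ico (s.min' h) (s.min' h + 6) := by
        intro i hi
        rw [Finset.mem_Ico]
        have h1 : s.min' h ≤ i := Finset.min'_le s i hi
        refine ⟨h1, ?_⟩
        by_contra hge
        push Not at hge
        obtain ⟨k, hk⟩ := Nat.exists_eq_add_of_le h1
        have h2 := hdeck (s.min' h) l k
        rw [← hk] at h2
        have h3 := (Finset.mem_filter.1 hi).2.1
        have h4 := (Finset.mem_filter.1 (s.min'_mem h)).2.2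
        have h5 : (8:ℝ)^6 ≤ 8^k := pow_le_pow_right₀ (by norm_num) (by omega)
        nlinarith
      refine (Finset.card_le_card hsub).trans ?_
      simp
  have hl : ∀ l ∈ Finset.range I, Small ρ {p | ∃ i ∈ (Finset.range I).filter
      (fun i => ρ < t i l ∧ t i l ≤ 65536 * ρ), p ∈ S i l} (6 * (M * W (θ/2^l))) := by
    intro l _
    refine (Small.biUnion hρ ((Finset.range I).filter (fun i => ρ < t i l ∧ t i l ≤ 65536 * ρ))
      (fun i => S i l) (fun _ => M * W (θ/2^l)) ?_).mono (fun t ht => ht) ?_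
    · intro i hi
      exact hS i l (Finset.mem_filter.1 hi).2.1 (Finset.mem_filter.1 hi).2.2
    · rw [Finset.sum_const, nsmul_eq_mul]
      have h1 : (((Finset.range I).filter
        (fun i => ρ < t i l ∧ t i l ≤ 65536 * ρ)).card : ℝ) ≤ 6 := by exact_mod_cast hcard l
      have h2 : 0 ≤ (M:ℝ) * W (θ/2^l) := mul_nonneg (Nat.cast_nonneg M) (W_nonneg (by positivity))
      nlinarith
  refine (Small.biUnion hρ (Finset.range I) _ _ hl).mono ?_ ?_
  · rintro p ⟨i, hi, l, hl, h1, h2, h3⟩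
    exact ⟨l, hl, i, Finset.mem_filter.2 ⟨hi, h1, h2⟩, h3⟩
  · have h1 : ∀ l ∈ Finset.range I, 6 * ((M:ℝ) * W (θ/2^l)) = (6 * (M * W θ)) * W (1/2^l) := by
      intro l _
      have e : θ/2^l = θ * (1/2^l) := by ring
      rw [e, W_mul hθ (by positivity)]
      ring
    rw [Finset.sum_congr rfl h1, ← Finset.mul_sum]
    have h2 := geomW I
    have h3 : 0 ≤ 6 * ((M:ℝ) * W θ) := by
      have := W_nonneg hθ
      positivity
    nlinarith

end Pool.Agent.H238R3.Fam
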