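import Pool.Agent.H238R3.Fam

set_option autoImplicit false

/-!
# Counting the point threats
-/

namespace Pool.Agent.H238R3.Fam

open Pool.Agent.H238R3.Lines Pool.Agent.H238R3.Game

lemma factsP {ζ ρ A a δ ε : ℝ} (hρ : 0 < ρ) (ha : 1 ≤ a) (haA : a ≤ A) (hδ : 0 < δ)
    (hbad : ∀ q p : ℤ, q ≠ 0 → δ ≤ |(q:ℝ)| * |(q:ℝ)*ζ - p|) (hε0 : 0 < ε)
    {v : ℤ × ℤ × ℤ} (hv : okP ζ ρ A a v) :
    0 < v.1 ∧ 0 < |(v.2.1:ℝ) - ζ * v.1| ∧ δ ≤ (v.1:ℝ) * |(v.2.1:ℝ) - ζ * v.1| ∧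
    ρ * (2^24 * A^3 * a^5 * |(v.2.1:ℝ) - ζ * v.1|) < 1 ∧
    1 ≤ 2^40 * ρ * A^3 * a^5 * |(v.2.1:ℝ) - ζ * v.1| ∧
    0 < (thP ζ ε A v).2 ∧ (thP ζ ε A v).2 / ρ ≤ 2^40 * ε * (a/A) := by
  obtain ⟨h1, h2, h3, h4, h5, h6, h7⟩ := hv
  have hq : (0:ℝ) < (v.1:ℝ) := lt_of_lt_of_le (by positivity) h2
  have hqz : 0 < v.1 := by exact_mod_cast hq
  have hb := hbad v.1 v.2.1 (by omega)
  rw [abs_of_pos hq, show (v.1:ℝ)*ζ - v.2.1 = -((v.2.1:ℝ) - ζ * v.1) by ring, abs_neg] at hb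
  set y := |(v.2.1:ℝ) - ζ * v.1| with hy
  have hy0 : 0 < y := by
    by_contra hneg
    push Not at hneg
    nlinarith
  have hA : 0 < A := by linarith
  have hden : 0 < 2^24 * A^3 * a^5 * y := by positivity
  have f4 : ρ * (2^24 * A^3 * a^5 * y) < 1 := by
    rw [lt_div_iff₀ hden] at h6
    linarith
  have f5 : 1 ≤ 2^40 * ρ * A^3 * a^5 * y := by
    rw [div_le_iff₀ hden] at h7
    nlinarith
  have hth : (thP ζ ε A v).2 = ε/(A^4 * v.1 * y) := rfl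
  refine ⟨hqz, hy0, hb, f4, f5, ?_, ?_⟩
  · rw [hth]; positivity
  · rw [hth, div_div, div_le_iff₀ (by positivity)]
    have e : 2^40 * ε * (a/A) * (A^4 * v.1 * y * ρ) = ε * (2^40 * ρ * A^3 * a * y * v.1) := by
      field_simp
    rw [e]
    have h8 : 2^40 * ρ * A^3 * a^5 * y ≤ 2^40 * ρ * A^3 * a * y * v.1 := by
      have : 0 ≤ 2^40 * ρ * A^3 * a * y := by positivity
      calc 2^40 * ρ * A^3 * a^5 * y = 2^40 * ρ * A^3 * a * y * a^4 := by ring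
        _ ≤ 2^40 * ρ * A^3 * a * y * v.1 := mul_le_mul_of_nonneg_left h2 this
    nlinarith

lemma norm_line (ζ : ℝ) (w : ℤ × ℤ × ℤ) (hw : Prim w) (h3 : w.2.2 ≠ 0) :
    ∃ l : ℤ × ℤ × ℤ, Prim l ∧ 0 < l.1 ∧ (l.1:ℝ) = |(w.2.2:ℝ)| ∧ |(l.2.1:ℝ)| = |(w.2.1:ℝ)| ∧
      ∀ x' : ℝ, |(l.1:ℝ) * x' + ζ * l.2.1 - l.2.2| = |(w.1:ℝ) + ζ * w.2.1 + x' * w.2.2| := by
  obtain ⟨a, b, c, habc⟩ := hw
  rcases lt_or_gt_of_ne h3 with h | h
  · refine ⟨(-w.2.2, -w.2.1, w.1), ⟨-c, -b, a, by simp only; linear_combination habc⟩, by simpa using h,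
      ?_, ?_, ?_⟩
    · have : ((w.2.2:ℤ):ℝ) < 0 := by exact_mod_cast h
      rw [abs_of_neg this]; simp
    · simp
    · intro x'
      rw [← abs_neg]
      congr 1
      push_cast
      ring
  · refine ⟨(w.2.2, w.2.1, -w.1), ⟨c, b, -a, by simp only; linear_combination habc⟩, h,
      ?_, ?_, ?_⟩
    · have : (0:ℝ) < ((w.2.2:ℤ):ℝ) := by exact_mod_cast h
      rw [abs_of_pos this]
    · simp
    · intro x'
      congr 1
      push_cast
      ring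

theorem cardP (ζ ρ x A a δ ε : ℝ) (N : ℕ) (hρ : 0 < ρ) (ha : 1 ≤ a) (haA : a ≤ A)
    (hδ : 0 < δ) (hbad : ∀ q p : ℤ, q ≠ 0 → δ ≤ |(q:ℝ)| * |(q:ℝ)*ζ - p|)
    (hN : 2^47 ≤ (N:ℝ)) (hNδ : 1 ≤ (N:ℝ) * δ) (hε : ε = 1/(N:ℝ)^12)
    (HB : ∀ v : ℤ × ℤ, IsCoprime v.1 v.2 → 0 < v.1 → 65536 * ρ < 1/(8*(v.1:ℝ)^2) →
      ¬ (|x - (thB v).1| + ρ ≤ (thB v).2))
    (HD : ∀ (j : ℕ) (w : ℤ × ℤ × ℤ), Prim w → 0 < w.1 → ((2:ℝ)^j)^4 ≤ (w.1:ℝ) * |(w.2.1:ℝ)| →
      (w.1:ℝ) * |(w.2.1:ℝ)| < 16 * ((2:ℝ)^j)^4 → (w.1:ℝ) * |(w.2.1:ℝ)| ≤ A^4 →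
      65536 * ρ < 1/(2^24 * A^2 * ((2:ℝ)^j)^2 * w.1) →
      ¬ (|x - (thD ζ ε A (2^j) w).1| + ρ ≤ (thD ζ ε A (2^j) w).2))
    (T : Finset (ℤ × ℤ × ℤ))
    (hT : ∀ v ∈ T, okP ζ ρ A a v ∧ |(thP ζ ε A v).1 - x| < (thP ζ ε A v).2 + ρ) :
    T.card ≤ N^8 := by
  have hA : 0 < A := by linarith
  have ha0 : 0 < a := by linarith
  have hN0 : (0:ℝ) < N := by linarith [show (0:ℝ) < 2^47 by positivity]
  have hN1 : (1:ℝ) ≤ N := by linarith [show (1:ℝ) ≤ 2^47 by norm_num]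
  have hε0 : 0 < ε := by rw [hε]; positivity
  have hεs : 2^40 * ε ≤ 1 := by
    rw [hε, mul_one_div, div_le_one (by positivity)]
    calc (2:ℝ)^40 ≤ (2:ℝ)^47 := by norm_num
      _ ≤ (N:ℝ) := hN
      _ = (N:ℝ)^1 := (pow_one _).symm
      _ ≤ (N:ℝ)^12 := pow_le_pow_right₀ hN1 (by norm_num)
  by_contra hcon
  push Not at hcon
  obtain ⟨T', hT', hcard⟩ := Finset.exists_subset_card_eq (show N^8 + 1 ≤ T.card by omega)
  set Y : ℝ := 1/(2^24*A^3*a^5*ρ) with hY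
  have hY0 : 0 < Y := by rw [hY]; positivity
  have hYe : Y * (2^24*A^3*a^5*ρ) = 1 := by rw [hY]; field_simp
  set G : ℝ := ρ * Y * a^4 with hG
  have hG0 : 0 < G := by rw [hG]; positivity
  have hGe : G * (2^24*A^3*a) = 1 := by
    rw [hG, ← hYe]; ring
  clear_value Y
  have hMr : ((N^8 : ℕ):ℝ) = (N:ℝ)^8 := by push_cast; ring
  set M : ℝ := (N:ℝ)^8 with hM
  have hM0 : 0 < M := by rw [hM]; positivity
  have hNM : (N:ℝ) ≤ M := by
    calc (N:ℝ) = (N:ℝ)^1 := (pow_one _).symm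
      _ ≤ (N:ℝ)^8 := pow_le_pow_right₀ hN1 (by norm_num)
  have hM47 : 2^47 ≤ M := hN.trans hNM
  have haA3 : a^3 ≤ A^3 := pow_le_pow_left₀ ha0.le haA 3
  -- facts about the elements of T'
  have hfacts : ∀ v ∈ T', a^4 ≤ (v.1:ℝ) ∧ (v.1:ℝ) ≤ 16 * a^4 ∧ |(v.2.1:ℝ) - ζ * v.1| ≤ Y ∧
      |(v.2.2:ℝ) - 0 * v.2.1 - x * v.1| ≤ 2 * ρ * v.1 ∧ Prim v ∧ Y < 65536 ∧
      ρ * δ * (2^20 * A^3 * a) < 1 := by
    intro v hv
    obtain ⟨h1, h2⟩ := hT v (hT' hv)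
    obtain ⟨f1, f2, f3, f4, f5, f6, f7⟩ := factsP hρ ha haA hδ hbad hε0 h1
    obtain ⟨g1, g2, g3, g4, g5, g6, g7⟩ := h1
    have hq : (0:ℝ) < (v.1:ℝ) := by exact_mod_cast f1
    set y := |(v.2.1:ℝ) - ζ * v.1| with hy
    have hthle : (thP ζ ε A v).2 ≤ ρ := by
      rw [div_le_iff₀ hρ] at f7
      have h3 : a/A ≤ 1 := (div_le_one hA).2 haA
      have h4 : 0 ≤ a/A := by positivity
      have h5 : 2^40 * ε * (a/A) ≤ 1 := by nlinarith
      nlinarith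
    refine ⟨g2, g3.le, ?_, ?_, g1, ?_, ?_⟩
    · by_contra hlt
      push Not at hlt
      have : (2^24*A^3*a^5*ρ) * Y < (2^24*A^3*a^5*ρ) * y :=
        mul_lt_mul_of_pos_left hlt (by positivity)
      nlinarith
    · have h3 : |(v.2.2:ℝ)/v.1 - x| < 2 * ρ := by
        have : (thP ζ ε A v).1 = (v.2.2:ℝ)/v.1 := rfl
        rw [this] at h2
        linarith
      have e : (v.2.2:ℝ) - 0 * v.2.1 - x * v.1 = ((v.2.2:ℝ)/v.1 - x) * v.1 := by field_simp; ring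
      rw [e, abs_mul, abs_of_pos hq]
      exact mul_le_mul_of_nonneg_right h3.le hq.le
    · by_contra hge
      push Not at hge
      have h3 : (2^24*A^3*a^5*ρ) * 65536 ≤ (2^24*A^3*a^5*ρ) * Y :=
        mul_le_mul_of_nonneg_left hge (by positivity)
      have h4 : 2^40 * ρ * A^3 * a^5 * y < 2^40 * ρ * A^3 * a^5 * 1 :=
        mul_lt_mul_of_pos_left g5 (by positivity)
      nlinarith
    · have h3 : δ ≤ 16 * a^4 * y := f3.trans (mul_le_mul_of_nonneg_right g3.le f2.le)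
      calc ρ * δ * (2^20 * A^3 * a) ≤ ρ * (16 * a^4 * y) * (2^20 * A^3 * a) := by gcongr
        _ = ρ * (2^24 * A^3 * a^5 * y) := by ring
        _ < 1 := f4
  obtain ⟨v0, hv0⟩ : T'.Nonempty := by
    rw [← Finset.card_pos]; omega
  have hY16 : Y < 65536 := (hfacts v0 hv0).2.2.2.2.2.1
  have hρδ := (hfacts v0 hv0).2.2.2.2.2.2
  have hdet : 12 * ρ * (16*a^4)^2 * Y < 1 := by
    have e : 12 * ρ * (16*a^4)^2 * Y = 3072 * G * a^4 := by rw [hG]; ring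
    rw [e]
    have h1 : G * a^4 * 2^24 ≤ 1 := by
      calc G * a^4 * 2^24 = G * (2^24 * a^3 * a) := by ring
        _ ≤ G * (2^24 * A^3 * a) := by gcongr
        _ = 1 := hGe
    nlinarith
  obtain ⟨w, hw, hort, hb1, hb2, hb3⟩ := lines x ρ ζ 0 Y (a^4) (16*a^4) hρ.le hY0.le (by positivity)
    hdet T' (N^8) (pow_pos (by exact_mod_cast hN0) 8) hcard (fun z hz => (hfacts z hz).2.2.2.2.1)
    (fun z hz => ⟨(hfacts z hz).1, (hfacts z hz).2.1⟩) (fun z hz => (hfacts z hz).2.2.1)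
    (fun z hz => (hfacts z hz).2.2.2.1)
  rw [hMr] at hb1 hb2 hb3
  have hb1' : M * |(w.2.2:ℝ)| ≤ 512 * Y * a^4 := by
    refine hb1.trans (le_of_eq ?_); field_simp; ring
  have hb2' : M * |(w.2.1:ℝ)| ≤ 1024 * ρ * a^8 := by
    rw [zero_mul, add_zero] at hb2
    refine hb2.trans (le_of_eq ?_); ring
  have hb3' : ∀ x' : ℝ, |x' - x| ≤ ρ →
      M * |(w.1:ℝ) + ζ * w.2.1 + x' * w.2.2| ≤ 2560 * G := by
    intro x' hx'
    have := hb3 x' hx'
    rw [mul_zero, add_zero] at this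
    refine this.trans (le_of_eq ?_); rw [hG]; field_simp; ring
  clear hb1 hb2 hb3
  have haG : G * a^4 * 2^24 ≤ 1 := by
    calc G * a^4 * 2^24 = G * (2^24 * a^3 * a) := by ring
      _ ≤ G * (2^24 * A^3 * a) := by gcongr
      _ = 1 := hGe
  by_cases hw3 : w.2.2 = 0
  · -- a line c ζ = a: impossible
    have hw2 : w.2.1 ≠ 0 := by
      intro h2
      have h1 := hort v0 hv0
      rw [hw3, h2] at h1
      have hv1 : v0.1 ≠ 0 := by
        have := (factsP hρ ha haA hδ hbad hε0 (hT v0 (hT' hv0)).1).1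
        omega
      have : w.1 = 0 := by
        have h4 : w.1 * v0.1 = 0 := by linarith
        rcases mul_eq_zero.1 h4 with h | h
        · exact h
        · exact absurd h hv1
      exact hw.ne_zero ⟨this, h2, hw3⟩
    have h1 := hbad w.2.1 (-w.1) hw2
    have h2 := hb3' x (by simpa using hρ.le)
    rw [hw3] at h2
    have e : (w.1:ℝ) + ζ * w.2.1 + x * ((0:ℤ):ℝ) = (w.2.1:ℝ)*ζ - ((-w.1:ℤ):ℝ) := by push_cast; ring
    rw [e] at h2
    have h3 : M^2 * δ ≤ (1024 * ρ * a^8) * (2560 * G) := by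
      calc M^2 * δ ≤ M^2 * (|(w.2.1:ℝ)| * |(w.2.1:ℝ)*ζ - ((-w.1:ℤ):ℝ)|) := by gcongr
        _ = (M * |(w.2.1:ℝ)|) * (M * |(w.2.1:ℝ)*ζ - ((-w.1:ℤ):ℝ)|) := by ring
        _ ≤ (1024 * ρ * a^8) * (2560 * G) := by
          refine mul_le_mul hb2' h2 (by positivity) (by positivity)
    have h4 : (M * δ)^2 ≤ 1024 * 2560 * (ρ * δ) * G * a^8 := by nlinarith
    have h5 : (ρ * δ) * G * a^8 * 2^44 ≤ 1 := by
      have e1 : (ρ * δ) * a^4 * 2^20 ≤ 1 := by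
        calc (ρ * δ) * a^4 * 2^20 = ρ * δ * (2^20 * a^3 * a) := by ring
          _ ≤ ρ * δ * (2^20 * A^3 * a) := by gcongr
          _ ≤ 1 := hρδ.le
      calc (ρ * δ) * G * a^8 * 2^44 = ((ρ * δ) * a^4 * 2^20) * (G * a^4 * 2^24) := by ring
        _ ≤ 1 * 1 := mul_le_mul e1 haG (by positivity) (by norm_num)
        _ = 1 := by norm_num
    have h6 : 1 ≤ M * δ := hNδ.trans (mul_le_mul_of_nonneg_right hNM hδ.le)
    nlinarith
  -- normalise the line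
  obtain ⟨l, hl, hl1, hlb, hlc, hlx⟩ := norm_line ζ w hw hw3
  have hl1r : (0:ℝ) < (l.1:ℝ) := by exact_mod_cast hl1
  have F1 : M * (l.1:ℝ) ≤ 512 * Y * a^4 := by rw [hlb]; exact hb1'
  have F2 : M * |(l.2.1:ℝ)| ≤ 1024 * ρ * a^8 := by rw [hlc]; exact hb2'
  have F3 : ∀ x' : ℝ, |x' - x| ≤ ρ → M * |(l.1:ℝ) * x' + ζ * l.2.1 - l.2.2| ≤ 2560 * G := by
    intro x' hx'
    rw [hlx]; exact hb3' x' hx'
  clear hb1' hb2' hb3' hlx hlb hlc hw3 hort hw
  by_cases hc : l.2.1 = 0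
  · -- inside a threat of a rational
    have hcop : IsCoprime l.1 l.2.2 := by
      obtain ⟨a', b', c', h⟩ := hl
      rw [hc] at h
      exact ⟨a', c', by linarith⟩
    refine HB (l.1, l.2.2) hcop hl1 ?_ ?_
    · simp only
      rw [lt_div_iff₀ (by positivity)]
      have h1 : M^2 * ((l.1:ℝ)^2 * ρ) ≤ (512 * Y * a^4)^2 * ρ := by
        calc M^2 * ((l.1:ℝ)^2 * ρ) = (M * (l.1:ℝ))^2 * ρ := by ring
          _ ≤ (512 * Y * a^4)^2 * ρ := by gcongr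
      have h2 : (512 * Y * a^4)^2 * ρ = 2^18 * Y * (G * a^4) := by rw [hG]; ring
      have h3 : 2^18 * Y * (G * a^4) ≤ 2^18 * 65536 * (G * a^4) := by gcongr
      have h4 : M^2 * ((l.1:ℝ)^2 * ρ) ≤ 2^10 := by nlinarith
      have h5 : (2:ℝ)^94 ≤ M^2 := by
        calc (2:ℝ)^94 = (2^47)^2 := by norm_num
          _ ≤ M^2 := by gcongr
      have h6 : 0 < (l.1:ℝ)^2 * ρ := by positivity
      nlinarith
    · refine contains_of hρ.le (fun x' hx' => ?_)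
      have h1 := F3 x' hx'
      have h2 : x' - (thB (l.1, l.2.2)).1 = ((l.1:ℝ) * x' + ζ * l.2.1 - l.2.2)/l.1 := by
        simp only [thB, hc]; field_simp; push_cast; ring
      rw [h2, abs_div, abs_of_pos hl1r]
      have h3 : (thB (l.1, l.2.2)).2 = 1/(2^39 * (l.1:ℝ)^2) := rfl
      rw [h3, div_le_div_iff₀ hl1r (by positivity)]
      set z := |(l.1:ℝ) * x' + ζ * l.2.1 - l.2.2| with hz
      have hz0 : 0 ≤ z := abs_nonneg _
      have h4 : M^2 * ((l.1:ℝ) * z) ≤ 2^13 := by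
        calc M^2 * ((l.1:ℝ) * z) = (M * l.1) * (M * z) := by ring
          _ ≤ (512 * Y * a^4) * (2560 * G) := mul_le_mul F1 h1 (by positivity) (by positivity)
          _ = 512 * 2560 * Y * (G * a^4) := by ring
          _ ≤ 512 * 2560 * 65536 * (G * a^4) := by gcongr
          _ ≤ 2^13 := by nlinarith
      have h5 : (2:ℝ)^94 ≤ M^2 := by
        calc (2:ℝ)^94 = (2^47)^2 := by norm_num
          _ ≤ M^2 := by gcongr
      have h6 : 0 ≤ (l.1:ℝ) * z := by positivity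
      have h7 : 2^39 * ((l.1:ℝ) * z) ≤ 1 := by nlinarith
      calc z * (2^39 * (l.1:ℝ)^2) = (2^39 * ((l.1:ℝ) * z)) * (l.1:ℝ) := by ring
        _ ≤ 1 * (l.1:ℝ) := mul_le_mul_of_nonneg_right h7 hl1r.le
  · -- inside a threat of a line
    have hc1 : (1:ℝ) ≤ |(l.2.1:ℝ)| := by
      have := Int.one_le_abs hc
      exact_mod_cast this
    have hl11 : (1:ℝ) ≤ (l.1:ℝ) := by exact_mod_cast hl1
    have ht1 : 1 ≤ (l.1:ℝ) * |(l.2.1:ℝ)| := by nlinarith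
    obtain ⟨j, hj1, hj2⟩ := exists_pow16 _ ht1
    have he1 : (1:ℝ) ≤ (2:ℝ)^j := one_le_pow₀ (by norm_num)
    have hbc : M^2 * ((l.1:ℝ) * |(l.2.1:ℝ)|) * (32 * A^3) ≤ a^7 := by
      have h1 : M^2 * ((l.1:ℝ) * |(l.2.1:ℝ)|) ≤ 2^19 * G * a^8 := by
        calc M^2 * ((l.1:ℝ) * |(l.2.1:ℝ)|) = (M * l.1) * (M * |(l.2.1:ℝ)|) := by ring
          _ ≤ (512 * Y * a^4) * (1024 * ρ * a^8) :=
            mul_le_mul F1 F2 (by positivity) (by positivity)
          _ = 2^19 * G * a^8 := by rw [hG]; ring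
      calc M^2 * ((l.1:ℝ) * |(l.2.1:ℝ)|) * (32 * A^3) ≤ 2^19 * G * a^8 * (32 * A^3) := by gcongr
        _ = (G * (2^24*A^3*a)) * a^7 := by ring
        _ = a^7 := by rw [hGe, one_mul]
    set t := (l.1:ℝ) * |(l.2.1:ℝ)| with ht
    set e := (2:ℝ)^j with he
    clear_value e
    have he0 : 0 < e := by linarith
    have hM1 : 1 ≤ M^2 := by nlinarith
    have he4 : 32 * e^4 * M^2 ≤ a^4 := by
      have h1 : e^4 * M^2 * (32 * A^3) ≤ a^4 * A^3 := by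
        calc e^4 * M^2 * (32 * A^3) ≤ t * M^2 * (32 * A^3) := by gcongr
          _ = M^2 * t * (32 * A^3) := by ring
          _ ≤ a^7 := hbc
          _ = a^4 * a^3 := by ring
          _ ≤ a^4 * A^3 := by gcongr
      have h2 : (32 * e^4 * M^2) * A^3 ≤ a^4 * A^3 := by linarith
      exact le_of_mul_le_mul_right h2 (by positivity)
    have heN : e * (N:ℝ)^4 ≤ a := by
      have h1 : (e * (N:ℝ)^4)^4 ≤ a^4 := by
        calc (e * (N:ℝ)^4)^4 = e^4 * M^2 := by rw [hM]; ring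
          _ ≤ 32 * e^4 * M^2 := by nlinarith [show 0 < e^4 * M^2 by positivity]
          _ ≤ a^4 := he4
      exact le_of_pow_le_pow_left₀ (by norm_num) ha0.le h1
    have hea : e ≤ a := by
      have : 1 ≤ (N:ℝ)^4 := one_le_pow₀ hN1
      nlinarith
    have htA : t ≤ A^4 := by
      have h1 : t * (32 * A^3) ≤ a^7 := by
        have : t * (32 * A^3) ≤ M^2 * t * (32 * A^3) := by
          have h0 : 0 ≤ t * (32 * A^3) := by positivity
          nlinarith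
        linarith
      have h2 : a^7 ≤ A^7 := pow_le_pow_left₀ ha0.le haA 7
      have h3 : t * A^3 ≤ A^4 * A^3 := by
        have h0 : 0 ≤ t * A^3 := by positivity
        nlinarith
      exact le_of_mul_le_mul_right h3 (by positivity)
    refine HD j l hl hl1 (by rw [← he]; exact hj1) (by rw [← he]; exact hj2) htA ?_ ?_
    · rw [← he, lt_div_iff₀ (by positivity)]
      have h1 : M * (65536 * ρ * (2^24 * A^2 * e^2 * l.1)) < M * 1 := by
        calc M * (65536 * ρ * (2^24 * A^2 * e^2 * l.1))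
            = (M * l.1) * (2^40 * ρ * A^2 * e^2) := by ring
          _ ≤ (512 * Y * a^4) * (2^40 * ρ * A^2 * e^2) := by gcongr
          _ = 512 * 2^40 * G * A^2 * e^2 := by rw [hG]; ring
          _ ≤ 512 * 2^40 * G * A^2 * (A * a) := by
              have : e^2 ≤ A * a := by nlinarith
              gcongr
          _ = 512 * 2^16 * (G * (2^24*A^3*a)) := by ring
          _ = 512 * 2^16 := by rw [hGe, mul_one]
          _ < M * 1 := by nlinarith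
      exact lt_of_mul_lt_mul_left h1 hM0.le
    · refine contains_of hρ.le (fun x' hx' => ?_)
      have h1 := F3 x' hx'
      have h2 : x' - (thD ζ ε A (2^j) l).1 = ((l.1:ℝ) * x' + ζ * l.2.1 - l.2.2)/l.1 := by
        simp only [thD]; field_simp; ring
      rw [h2, abs_div, abs_of_pos hl1r]
      have h3 : (thD ζ ε A (2^j) l).2 = ε/(A^3 * e * l.1) := by rw [he]; rfl
      rw [h3, div_le_div_iff₀ hl1r (by positivity)]
      set z := |(l.1:ℝ) * x' + ζ * l.2.1 - l.2.2| with hz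
      have hz0 : 0 ≤ z := abs_nonneg _
      have h4 : z * (A^3 * e) ≤ ε := by
        have h5 : M * (z * (A^3 * e)) * a ≤ M * ε * a := by
          calc M * (z * (A^3 * e)) * a = (M * z) * (A^3 * e * a) := by ring
            _ ≤ (2560 * G) * (A^3 * e * a) := by gcongr
            _ = (G * (2^24*A^3*a)) * (2560 / 2^24) * e := by ring
            _ = (2560 / 2^24) * e := by rw [hGe]; ring
            _ ≤ e := by nlinarith
            _ ≤ M * ε * a := by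
              have : M * ε = 1/(N:ℝ)^4 := by rw [hM, hε]; field_simp
              rw [this, one_div, inv_mul_eq_div, le_div_iff₀ (by positivity)]
              exact heN
        have h6 : (z * (A^3 * e)) * (M * a) ≤ ε * (M * a) := by linarith
        exact le_of_mul_le_mul_right h6 (by positivity)
      calc z * (A^3 * e * l.1) = z * (A^3 * e) * l.1 := by ring
        _ ≤ ε * l.1 := mul_le_mul_of_nonneg_right h4 hl1r.le

end Pool.Agent.H238R3.Fam
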