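import Mathlib

set_option autoImplicit false

/-!
# A Cantor-type winning argument with a potential function

Threats are pairs (centre, radius). At every stage the current interval (centre `x`, half length
`65536^(-n)`) is cut into 65536 equal parts and we keep a part for which the total weight of the
pending threats, each threat being weighted by the `3/4`-th power of its relative radius, is small.
-/

namespace Pool.Agent.H238R3.Game

/-- weight of a relative radius -/
noncomputable def W (t : ℝ) : ℝ := t ^ (3/4 : ℝ)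

/-- half length of the intervals of stage n -/
noncomputable def rho (n : ℕ) : ℝ := (1/65536 : ℝ) ^ n

/-- the threats of `S` are finitely many, of total weight at most `e` at the scale `ρ` -/
def Small (ρ : ℝ) (S : Set (ℝ × ℝ)) (e : ℝ) : Prop :=
  ∃ F : Finset (ℝ × ℝ), (∀ t ∈ S, t ∈ F) ∧ (∀ t ∈ F, 0 < t.2) ∧ ∑ t ∈ F, W (t.2/ρ) ≤ e

lemma rho_pos (n : ℕ) : 0 < rho n := by unfold rho; positivity

lemma rho_succ (n : ℕ) : rho (n+1) = rho n / 65536 := by
  unfold rho; rw [pow_succ]; ring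

lemma W_nonneg {t : ℝ} (ht : 0 ≤ t) : 0 ≤ W t := Real.rpow_nonneg ht _

lemma W_mono {s t : ℝ} (hs : 0 ≤ s) (hst : s ≤ t) : W s ≤ W t :=
  Real.rpow_le_rpow hs hst (by norm_num)

lemma W_const : (65536 : ℝ) ^ (3/4 : ℝ) = 4096 := by
  have h : (65536 : ℝ) = (16:ℝ)^(4:ℝ) := by norm_num
  rw [h, ← Real.rpow_mul (by norm_num)]
  norm_num

lemma W_scale {t : ℝ} (ht : 0 ≤ t) : W (65536 * t) = 4096 * W t := by
  unfold W
  rw [Real.mul_rpow (by norm_num) ht, W_const]

lemma W_one : W 1 = 1 := by unfold W; simp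

lemma W_small {t : ℝ} (ht : 0 ≤ t) (h : W t ≤ 1/4096) : t ≤ 1/65536 := by
  by_contra hlt
  push Not at hlt
  have h1 : (1:ℝ) < 65536 * t := by linarith
  have h2 : W 1 < W (65536 * t) := Real.rpow_lt_rpow (by norm_num) h1 (by norm_num)
  rw [W_scale ht, W_one] at h2
  linarith

lemma step (x ρ : ℝ) (hρ : 0 < ρ) (F : Finset (ℝ × ℝ)) (hF : ∀ t ∈ F, 0 < t.2)
    (hΦ : ∑ t ∈ F, W (t.2/ρ) ≤ 1/4096) :
    ∃ x' : ℝ, |x' - x| ≤ ρ - ρ/65536 ∧
      ∑ t ∈ F with |t.1 - x'| < t.2 + ρ/65536, W (t.2/(ρ/65536)) ≤ 1/16384 := by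
  classical
  obtain ⟨N, hN⟩ : ∃ N : ℕ, N = 65536 := ⟨_, rfl⟩
  have hNr : (N:ℝ) = 65536 := by rw [hN]; norm_num
  -- the children
  set y : ℕ → ℝ := fun i => x + (2*(i:ℝ) + 1 - 65536) * ρ / 65536 with hy
  by_contra hcon
  push Not at hcon
  have hchild : ∀ i ∈ Finset.range N, (1:ℝ)/16384 <
      ∑ t ∈ F with |t.1 - y i| < t.2 + ρ/65536, W (t.2/(ρ/65536)) := by
    intro i hi
    refine hcon (y i) ?_
    have hi' : (i:ℝ) ≤ 65535 := by
      have := Finset.mem_range.1 hi
      have h2 : (i:ℝ) + 1 ≤ (N:ℝ) := by exact_mod_cast this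
      linarith
    have hi0 : (0:ℝ) ≤ (i:ℝ) := Nat.cast_nonneg i
    have h1 : y i - x = (2*(i:ℝ) + 1 - 65536) * ρ / 65536 := by simp [hy]
    rw [h1, abs_le]
    constructor
    · have : 0 ≤ (i:ℝ) * ρ := by positivity
      rw [le_div_iff₀ (by norm_num)]
      nlinarith
    · rw [div_le_iff₀ (by norm_num)]
      nlinarith
  have hsum : (65536:ℝ) * (1/16384) ≤ ∑ i ∈ Finset.range N,
      ∑ t ∈ F with |t.1 - y i| < t.2 + ρ/65536, W (t.2/(ρ/65536)) := by
    have : ∑ i ∈ Finset.range N, (1:ℝ)/16384 ≤ ∑ i ∈ Finset.range N,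
      ∑ t ∈ F with |t.1 - y i| < t.2 + ρ/65536, W (t.2/(ρ/65536)) :=
      Finset.sum_le_sum (fun i hi => (hchild i hi).le)
    rw [Finset.sum_const, Finset.card_range, nsmul_eq_mul, hNr] at this
    exact this
  have hswap : ∑ i ∈ Finset.range N,
      ∑ t ∈ F with |t.1 - y i| < t.2 + ρ/65536, W (t.2/(ρ/65536)) =
      ∑ t ∈ F, ∑ i ∈ Finset.range N with |t.1 - y i| < t.2 + ρ/65536,
        W (t.2/(ρ/65536)) := by
    simp_rw [Finset.sum_filter]
    exact Finset.sum_comm
  have hbound : ∑ t ∈ F, ∑ i ∈ Finset.range N with |t.1 - y i| < t.2 + ρ/65536,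
        W (t.2/(ρ/65536)) ≤ ∑ t ∈ F, 8192 * W (t.2/ρ) := by
    refine Finset.sum_le_sum (fun t ht => ?_)
    have htpos := hF t ht
    have hrel : 0 ≤ t.2/ρ := by positivity
    have hWt : W (t.2/ρ) ≤ 1/4096 := by
      refine le_trans ?_ hΦ
      exact Finset.single_le_sum (f := fun t => W (t.2/ρ))
        (fun s hs => W_nonneg (div_nonneg (hF s hs).le hρ.le)) ht
    have htsmall : t.2/ρ ≤ 1/65536 := W_small hrel hWt
    have ht2 : t.2 ≤ ρ/65536 := by
      rw [div_le_iff₀ hρ] at htsmall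
      linarith
    rw [Finset.sum_const, nsmul_eq_mul]
    have hW' : W (t.2/(ρ/65536)) = 4096 * W (t.2/ρ) := by
      rw [← W_scale hrel]; congr 1; field_simp
    rw [hW']
    have hcard : ((Finset.range N).filter (fun i => |t.1 - y i| < t.2 + ρ/65536)).card ≤ 2 := by
      set u : ℝ := ((t.1 - x)*65536/ρ + 65536 - 1)/2 with hu
      have hsub : ((Finset.range N).filter (fun i => |t.1 - y i| < t.2 + ρ/65536)).image
          (fun i : ℕ => (i:ℤ)) ⊆ {⌊u⌋, ⌊u⌋+1} := by
        intro k hk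
        rw [Finset.mem_image] at hk
        obtain ⟨i, hi, rfl⟩ := hk
        rw [Finset.mem_filter] at hi
        have h1 : |t.1 - y i| < 2 * (ρ/65536) := by linarith [hi.2]
        have h2 : t.1 - y i = 2 * (ρ/65536) * (u - i) := by
          simp only [hy, hu]; field_simp; ring
        rw [h2, abs_mul, abs_of_pos (by positivity : (0:ℝ) < 2 * (ρ/65536))] at h1
        have h3 : |u - i| < 1 := by
          by_contra hge
          push Not at hge
          nlinarith [show (0:ℝ) < 2 * (ρ/65536) by positivity]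
        rw [abs_lt] at h3
        have h4 : (⌊u⌋:ℝ) ≤ u := Int.floor_le u
        have h5 : u < ⌊u⌋ + 1 := Int.lt_floor_add_one u
        have h6 : (i:ℤ) < ⌊u⌋ + 2 := by
          have : ((i:ℤ):ℝ) < ((⌊u⌋+2 : ℤ):ℝ) := by push_cast; linarith [h3.1]
          exact_mod_cast this
        have h7 : ⌊u⌋ - 1 < (i:ℤ) := by
          have : (((⌊u⌋ - 1 : ℤ)):ℝ) < ((i:ℤ):ℝ) := by push_cast; linarith [h3.2]
          exact_mod_cast this
        simp only [Finset.mem_insert, Finset.mem_singleton]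
        omega
      have hc := Finset.card_le_card hsub
      rw [Finset.card_image_of_injective _ (fun a b hab => by exact_mod_cast hab)] at hc
      exact hc.trans (Finset.card_le_two)
    have hcard' : ((((Finset.range N).filter
        (fun i => |t.1 - y i| < t.2 + ρ/65536)).card : ℕ) : ℝ) ≤ 2 := by exact_mod_cast hcard
    have := W_nonneg hrel
    nlinarith
  have htot : ∑ t ∈ F, 8192 * W (t.2/ρ) ≤ 2 := by
    rw [← Finset.mul_sum]
    linarith
  linarith

theorem game (Thr : ℕ → Set (ℝ × ℝ))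
    (hfin : ∀ (n : ℕ) (x : ℝ),
      (∀ m < n, ∀ t ∈ Thr m, ¬ (|x - t.1| + rho n ≤ t.2)) →
      Small (rho n) {t | t ∈ Thr n ∧ |t.1 - x| < t.2 + rho n} (1/8192)) :
    ∃ ξ : ℝ, ∀ n, ∀ t ∈ Thr n, t.2 ≤ |ξ - t.1| := by
  classical
  -- states
  let St : ℕ → Type := fun n => {s : ℝ × Finset (ℝ × ℝ) //
    (∀ t ∈ s.2, 0 < t.2) ∧ (∑ t ∈ s.2, W (t.2/rho n) ≤ 1/4096) ∧
    (∀ m ≤ n, ∀ t ∈ Thr m, |t.1 - s.1| < t.2 + rho n → t ∈ s.2)}
  have h0 : Nonempty (St 0) := by
    obtain ⟨F, hF1, hF2, hF3⟩ := hfin 0 0 (fun m hm => absurd hm (by omega))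
    refine ⟨⟨(0, F), hF2, le_trans hF3 (by norm_num), ?_⟩⟩
    intro m hm t ht hmeet
    have hm0 : m = 0 := by omega
    subst hm0
    exact hF1 t ⟨ht, hmeet⟩
  have hstep : ∀ n (s : St n), ∃ s' : St (n+1), |s'.1.1 - s.1.1| ≤ rho n - rho (n+1) := by
    intro n s
    obtain ⟨⟨x, F⟩, hF, hΦ, hall⟩ := s
    simp only at hF hΦ hall ⊢
    obtain ⟨x', hx', hΦ'⟩ := step x (rho n) (rho_pos n) F hF hΦ
    rw [← rho_succ] at hx' hΦ'
    have hno : ∀ m < n+1, ∀ t ∈ Thr m, ¬ (|x' - t.1| + rho (n+1) ≤ t.2) := by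
      intro m hm t ht hcont
      have hr := rho_pos (n+1)
      have htF : t ∈ F := by
        refine hall m (by omega) t ht ?_
        have h1 : |t.1 - x| ≤ |x' - t.1| + |x' - x| := by
          have := abs_sub_le t.1 x' x
          rw [abs_sub_comm t.1 x'] at this
          exact this
        linarith
      have hmem : t ∈ F.filter (fun t => |t.1 - x'| < t.2 + rho (n+1)) := by
        rw [Finset.mem_filter]
        refine ⟨htF, ?_⟩
        rw [abs_sub_comm]
        linarith
      have h2 : W (t.2/rho (n+1)) ≤ 1/16384 := by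
        refine le_trans ?_ hΦ'
        refine Finset.single_le_sum (f := fun t => W (t.2/rho (n+1)))
          (fun s hs => W_nonneg (div_nonneg ?_ hr.le)) hmem
        exact (hF s (Finset.mem_filter.1 hs).1).le
      have h3 : 1 ≤ t.2/rho (n+1) := by
        rw [le_div_iff₀ hr]
        have := abs_nonneg (x' - t.1)
        linarith
      have h4 := W_mono (by norm_num) h3
      rw [W_one] at h4
      linarith
    obtain ⟨G, hG1, hG2, hG3⟩ := hfin (n+1) x' hno
    refine ⟨⟨(x', F.filter (fun t => |t.1 - x'| < t.2 + rho (n+1)) ∪ G), ?_, ?_, ?_⟩, hx'⟩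
    · intro t ht
      rcases Finset.mem_union.1 ht with h | h
      · exact hF t (Finset.mem_filter.1 h).1
      · exact hG2 t h
    · simp only
      have hle : ∑ t ∈ F.filter (fun t => |t.1 - x'| < t.2 + rho (n+1)) ∪ G, W (t.2/rho (n+1)) ≤
          ∑ t ∈ F.filter (fun t => |t.1 - x'| < t.2 + rho (n+1)), W (t.2/rho (n+1)) +
          ∑ t ∈ G, W (t.2/rho (n+1)) := by
        rw [← Finset.sum_union_inter]
        have : 0 ≤ ∑ t ∈ F.filter (fun t => |t.1 - x'| < t.2 + rho (n+1)) ∩ G,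
            W (t.2/rho (n+1)) := by
          refine Finset.sum_nonneg (fun t ht => ?_)
          exact W_nonneg (div_nonneg (hG2 t (Finset.mem_inter.1 ht).2).le (rho_pos _).le)
        linarith
      linarith
    · intro m hm t ht hmeet
      rw [Finset.mem_union]
      rcases Nat.lt_or_ge m (n+1) with h | h
      · left
        rw [Finset.mem_filter]
        refine ⟨hall m (by omega) t ht ?_, hmeet⟩
        have h1 : |t.1 - x| ≤ |t.1 - x'| + |x' - x| := abs_sub_le _ _ _
        simp only at hmeet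
        linarith
      · right
        have hm' : m = n+1 := by omega
        subst hm'
        exact hG1 t ⟨ht, hmeet⟩
  choose nxt hnxt using hstep
  let seq : (n : ℕ) → St n := fun n => Nat.rec (Classical.choice h0) (fun n s => nxt n s) n
  have hseq : ∀ n, |(seq (n+1)).1.1 - (seq n).1.1| ≤ rho n - rho (n+1) := fun n => hnxt n (seq n)
  set X : ℕ → ℝ := fun n => (seq n).1.1 with hX
  have hmono : ∀ n k, |X (n+k) - X n| ≤ rho n - rho (n+k) := by
    intro n k
    induction k with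
    | zero => simp
    | succ k ih =>
      have h1 := hseq (n+k)
      have h2 : |X (n+(k+1)) - X n| ≤ |X (n+k+1) - X (n+k)| + |X (n+k) - X n| := abs_sub_le _ _ _
      have h3 : rho (n + (k+1)) = rho (n+k+1) := by rw [add_assoc]
      rw [h3]
      have h1' : |X (n+k+1) - X (n+k)| ≤ rho (n+k) - rho (n+k+1) := h1
      linarith
  have hrho0 : Filter.Tendsto rho Filter.atTop (nhds 0) := by
    unfold rho
    exact tendsto_pow_atTop_nhds_zero_of_lt_one (by norm_num) (by norm_num)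
  have hcauchy : CauchySeq X := by
    rw [Metric.cauchySeq_iff']
    intro ε hε
    obtain ⟨N, hN⟩ := (hrho0.eventually (gt_mem_nhds hε)).exists
    refine ⟨N, fun n hn => ?_⟩
    obtain ⟨k, rfl⟩ := Nat.exists_eq_add_of_le hn
    rw [Real.dist_eq]
    have := hmono N k
    have h2 := rho_pos (N+k)
    linarith
  obtain ⟨ξ, hξ⟩ := cauchySeq_tendsto_of_complete hcauchy
  have hlim : ∀ n, |ξ - X n| ≤ rho n := by
    intro n
    have h1 : Filter.Tendsto (fun k => |X (n+k) - X n|) Filter.atTop (nhds |ξ - X n|) := by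
      have h2 : Filter.Tendsto (fun k => X (n+k)) Filter.atTop (nhds ξ) := by
        have := hξ.comp (Filter.tendsto_add_atTop_nat n)
        refine this.congr (fun k => ?_)
        simp [Function.comp, add_comm]
      exact (h2.sub_const _).abs
    refine le_of_tendsto' h1 (fun k => ?_)
    have := hmono n k
    have h2 := rho_pos (n+k)
    linarith
  refine ⟨ξ, fun n t ht => ?_⟩
  by_contra hlt
  push Not at hlt
  have hmem : ∀ k, n ≤ k → t ∈ (seq k).1.2 := by
    intro k hk
    refine (seq k).2.2.2 n hk t ht ?_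
    have h1 := hlim k
    have h2 : |t.1 - X k| ≤ |t.1 - ξ| + |ξ - X k| := abs_sub_le _ _ _
    rw [abs_sub_comm t.1 ξ] at h2
    have h3 : |t.1 - (seq k).1.1| = |t.1 - X k| := rfl
    rw [h3]
    linarith
  have htpos : 0 < t.2 := lt_of_le_of_lt (abs_nonneg _) hlt
  have hsm : ∀ k, n ≤ k → t.2 ≤ rho k := by
    intro k hk
    have h1 : W (t.2/rho k) ≤ 1/4096 := by
      refine le_trans ?_ (seq k).2.2.1
      refine Finset.single_le_sum (f := fun t => W (t.2/rho k))
        (fun s hs => W_nonneg (div_nonneg ?_ (rho_pos k).le)) (hmem k hk)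
      exact ((seq k).2.1 s hs).le
    have h2 := W_small (div_nonneg htpos.le (rho_pos k).le) h1
    rw [div_le_iff₀ (rho_pos k)] at h2
    have := rho_pos k
    linarith
  obtain ⟨k, hk1, hk2⟩ := ((hrho0.eventually (gt_mem_nhds htpos)).and
    (Filter.eventually_ge_atTop n)).exists
  have := hsm k hk2
  linarith

lemma Small.mono {ρ : ℝ} {S T : Set (ℝ × ℝ)} {e f : ℝ} (h : Small ρ T f) (hST : ∀ t ∈ S, t ∈ T)
    (hef : f ≤ e) : Small ρ S e := by
  obtain ⟨F, h1, h2, h3⟩ := h
  exact ⟨F, fun t ht => h1 t (hST t ht), h2, h3.trans hef⟩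

lemma Small.union {ρ : ℝ} (hρ : 0 < ρ) {S T : Set (ℝ × ℝ)} {e f : ℝ} (h : Small ρ S e)
    (h' : Small ρ T f) : Small ρ (S ∪ T) (e + f) := by
  classical
  obtain ⟨F, h1, h2, h3⟩ := h
  obtain ⟨G, g1, g2, g3⟩ := h'
  refine ⟨F ∪ G, ?_, ?_, ?_⟩
  · intro t ht
    rcases ht with h | h
    · exact Finset.mem_union_left _ (h1 t h)
    · exact Finset.mem_union_right _ (g1 t h)
  · intro t ht
    rcases Finset.mem_union.1 ht with h | h
    · exact h2 t h
    · exact g2 t h
  · have hle : ∑ t ∈ F ∪ G, W (t.2/ρ) ≤ ∑ t ∈ F, W (t.2/ρ) + ∑ t ∈ G, W (t.2/ρ) := by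
      rw [← Finset.sum_union_inter]
      have : 0 ≤ ∑ t ∈ F ∩ G, W (t.2/ρ) := by
        refine Finset.sum_nonneg (fun t ht => ?_)
        exact W_nonneg (div_nonneg (g2 t (Finset.mem_inter.1 ht).2).le hρ.le)
      linarith
    linarith

lemma Small.empty {ρ : ℝ} : Small ρ ∅ 0 := ⟨∅, by simp, by simp, by simp⟩

lemma Small.biUnion {ρ : ℝ} (hρ : 0 < ρ) {ι : Type*} (s : Finset ι) (S : ι → Set (ℝ × ℝ))
    (e : ι → ℝ) (h : ∀ i ∈ s, Small ρ (S i) (e i)) :
    Small ρ {t | ∃ i ∈ s, t ∈ S i} (∑ i ∈ s, e i) := by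
  classical
  induction s using Finset.induction_on with
  | empty => exact Small.empty.mono (by simp) (by simp)
  | insert a s ha ih =>
    rw [Finset.sum_insert ha]
    have h1 := h a (Finset.mem_insert_self a s)
    have h2 := ih (fun i hi => h i (Finset.mem_insert_of_mem hi))
    refine (h1.union hρ h2).mono ?_ le_rfl
    intro t ht
    obtain ⟨i, hi, hti⟩ := ht
    rcases Finset.mem_insert.1 hi with h | h
    · left; rw [← h]; exact hti
    · right; exact ⟨i, h, hti⟩

/-- a set of threats indexed by vectors, no finite subset of which has more than `M` elements -/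
lemma small_of_card {ρ : ℝ} (hρ : 0 < ρ) {V : Type*} (S : Set V) (f : V → ℝ × ℝ) (M : ℕ) (τ : ℝ)
    (hcard : ∀ T : Finset V, (∀ v ∈ T, v ∈ S) → T.card ≤ M)
    (hpos : ∀ v ∈ S, 0 < (f v).2) (hrel : ∀ v ∈ S, (f v).2 / ρ ≤ τ) (hτ : 0 ≤ τ) :
    Small ρ (f '' S) (M * W τ) := by
  classical
  have hfin : S.Finite := by
    by_contra hinf
    obtain ⟨T, hT, hTc⟩ := Set.Infinite.exists_subset_card_eq hinf (M+1)
    have := hcard T (fun v hv => hT hv)
    omega
  refine ⟨hfin.toFinset.image f, ?_, ?_, ?_⟩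
  · intro t ht
    obtain ⟨v, hv, rfl⟩ := ht
    exact Finset.mem_image_of_mem f (hfin.mem_toFinset.2 hv)
  · intro t ht
    obtain ⟨v, hv, rfl⟩ := Finset.mem_image.1 ht
    exact hpos v (hfin.mem_toFinset.1 hv)
  · have h1 : ∀ t ∈ hfin.toFinset.image f, W (t.2/ρ) ≤ W τ := by
      intro t ht
      obtain ⟨v, hv, rfl⟩ := Finset.mem_image.1 ht
      exact W_mono (div_nonneg (hpos v (hfin.mem_toFinset.1 hv)).le hρ.le)
        (hrel v (hfin.mem_toFinset.1 hv))
    refine (Finset.sum_le_sum h1).trans ?_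
    rw [Finset.sum_const, nsmul_eq_mul]
    refine mul_le_mul_of_nonneg_right ?_ (W_nonneg hτ)
    have h2 : (hfin.toFinset.image f).card ≤ M :=
      Finset.card_image_le.trans (hcard _ (fun v hv => hfin.mem_toFinset.1 hv))
    exact_mod_cast h2

end Pool.Agent.H238R3.Game
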