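import Mathlib

set_option autoImplicit false

namespace Pool.Agent.H238R3

open Polynomial

/-- Mahler measure of an integer polynomial -/
noncomputable def MM (P : ℤ[X]) : ℝ := (P.map (Int.castRingHom ℂ)).mahlerMeasure

lemma MM_mul (P Q : ℤ[X]) : MM (P * Q) = MM P * MM Q := by
  unfold MM
  rw [Polynomial.map_mul, mahlerMeasure_mul]

lemma one_le_MM {P : ℤ[X]} (hP : P ≠ 0) : 1 ≤ MM P := one_le_mahlerMeasure_of_ne_zero hP

lemma MM_nonneg (P : ℤ[X]) : 0 ≤ MM P := mahlerMeasure_nonneg _

lemma MM_C (a : ℤ) : MM (C a) = |(a : ℝ)| := by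
  unfold MM
  rw [Polynomial.map_C, mahlerMeasure_const]
  simp

lemma coeff_le_MM (P : ℤ[X]) (i : ℕ) : |(P.coeff i : ℝ)| ≤ 2 ^ P.natDegree * MM P := by
  have h := norm_coeff_le_choose_mul_mahlerMeasure i (P.map (Int.castRingHom ℂ))
  have hdeg : (P.map (Int.castRingHom ℂ)).natDegree = P.natDegree :=
    natDegree_map_eq_of_injective (RingHom.injective_int _) P
  rw [hdeg] at h
  have h2 : ‖(P.map (Int.castRingHom ℂ)).coeff i‖ = |(P.coeff i : ℝ)| := by
    rw [coeff_map]
    simp
  rw [h2] at h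
  refine h.trans ?_
  have h3 : ((P.natDegree.choose i : ℕ) : ℝ) ≤ 2 ^ P.natDegree := by
    exact_mod_cast Nat.choose_le_two_pow P.natDegree i
  exact mul_le_mul_of_nonneg_right h3 (MM_nonneg P)

lemma MM_le (P : ℤ[X]) (N : ℕ) (K : ℝ) (hN : P.natDegree ≤ N) (hK : ∀ i, |(P.coeff i : ℝ)| ≤ K) :
    MM P ≤ (N + 1) * K := by
  have hK0 : 0 ≤ K := (abs_nonneg _).trans (hK 0)
  have h := mahlerMeasure_le_sum_norm_coeff (P.map (Int.castRingHom ℂ))
  refine h.trans ?_
  rw [Polynomial.sum_def]
  have h1 : (P.map (Int.castRingHom ℂ)).support ⊆ Finset.range (N + 1) := by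
    intro i hi
    have h2 := le_natDegree_of_mem_supp i hi
    rw [natDegree_map_eq_of_injective (RingHom.injective_int _) P] at h2
    rw [Finset.mem_range]; omega
  calc ∑ i ∈ (P.map (Int.castRingHom ℂ)).support, ‖(P.map (Int.castRingHom ℂ)).coeff i‖
      ≤ ∑ i ∈ Finset.range (N + 1), ‖(P.map (Int.castRingHom ℂ)).coeff i‖ :=
        Finset.sum_le_sum_of_subset_of_nonneg h1 (fun _ _ _ => norm_nonneg _)
    _ ≤ ∑ i ∈ Finset.range (N + 1), K := by
        apply Finset.sum_le_sum
        intro i _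
        rw [coeff_map]
        simpa using hK i
    _ = (N + 1) * K := by
        rw [Finset.sum_const, Finset.card_range, nsmul_eq_mul]; push_cast; ring

lemma MM_le_of_dvd {F P : ℤ[X]} (hP : P ≠ 0) (h : F ∣ P) : MM F ≤ MM P := by
  obtain ⟨G, rfl⟩ := h
  rw [MM_mul]
  have hG : G ≠ 0 := right_ne_zero_of_mul hP
  exact le_mul_of_one_le_right (MM_nonneg F) (one_le_MM hG)

/-- the evaluation of a linear polynomial at a non-Liouville number is not small -/
lemma linear_lower (ζ : ℝ) (hζ : Irrational ζ) (hL : ¬ Liouville ζ) :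
    ∃ μ : ℕ, 1 ≤ μ ∧ ∃ c : ℝ, 0 < c ∧ c ≤ 1 ∧ ∀ R : ℤ[X], R ≠ 0 → R.natDegree ≤ 1 →
      c / (MM R) ^ μ ≤ |aeval ζ R| := by
  unfold Liouville at hL
  push Not at hL
  obtain ⟨μ, hμ⟩ := hL
  -- distance to integers
  have hd : 0 < |ζ - round ζ| := by
    rw [abs_pos, sub_ne_zero]
    exact hζ.ne_int _
  set c : ℝ := min 1 |ζ - round ζ| / 2 ^ (μ + 1) with hc
  have hc0 : 0 < c := by positivity
  refine ⟨μ + 1, by omega, c, hc0, ?_, ?_⟩
  · rw [hc, div_le_one (by positivity)]
    exact (min_le_left _ _).trans (one_le_pow₀ (by norm_num))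
  · intro R hR hdeg
    have hM := one_le_MM hR
    have hRe : R = C (R.coeff 1) * X + C (R.coeff 0) :=
      eq_X_add_C_of_natDegree_le_one hdeg
    set b := R.coeff 1 with hb
    set a := R.coeff 0 with ha
    have hev : aeval ζ R = (b : ℝ) * ζ + a := by
      rw [hRe]; simp
    have hbM : |(b : ℝ)| ≤ 2 * MM R := by
      have := coeff_le_MM R 1
      refine this.trans ?_
      have h2 : (2 : ℝ) ^ R.natDegree ≤ 2 := by
        calc (2 : ℝ) ^ R.natDegree ≤ 2 ^ 1 := pow_le_pow_right₀ (by norm_num) hdeg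
          _ = 2 := by norm_num
      exact mul_le_mul_of_nonneg_right h2 (MM_nonneg R)
    rw [hev]
    have hdivle : c / (MM R) ^ (μ + 1) ≤ c := div_le_self hc0.le (one_le_pow₀ hM)
    have hcle : c ≤ min 1 |ζ - round ζ| := by
      rw [hc]; exact div_le_self (by positivity) (one_le_pow₀ (by norm_num))
    rcases lt_trichotomy |b| 1 with hb1 | hb1 | hb1
    · -- b = 0
      have hb0 : b = 0 := by
        rw [← abs_eq_zero]
        have := abs_nonneg b
        omega
      have ha0 : a ≠ 0 := by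
        intro ha0
        apply hR
        rw [hRe, hb0, ha0]; simp
      rw [hb0]
      simp only [Int.cast_zero, zero_mul, zero_add]
      have : (1 : ℝ) ≤ |(a : ℝ)| := by exact_mod_cast Int.one_le_abs ha0
      exact hdivle.trans (hcle.trans ((min_le_left _ _).trans this))
    · -- |b| = 1
      have : |ζ - round ζ| ≤ |(b : ℝ) * ζ + a| := by
        rcases (abs_eq (by norm_num : (0 : ℤ) ≤ 1)).mp hb1 with h | h
        · rw [h]
          have h2 := round_le ζ (-a)
          push_cast at h2 ⊢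
          rw [sub_neg_eq_add] at h2
          rw [one_mul]; exact h2
        · rw [h]
          have h2 := round_le ζ a
          push_cast at h2 ⊢
          rw [show (-1 : ℝ) * ζ + a = -(ζ - a) by ring, abs_neg]
          exact h2
      exact hdivle.trans (hcle.trans ((min_le_right _ _).trans this))
    · -- |b| ≥ 2
      have hb0 : b ≠ 0 := by
        intro h; rw [h] at hb1; simp at hb1
      have h1 := hμ (-a * b.sign) |b| hb1 (by
        intro h
        apply hζ
        refine ⟨((-a * b.sign : ℤ) : ℚ) / ((|b| : ℤ) : ℚ), ?_⟩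
        rw [h]; push_cast; rfl)
      have hbpos : (0 : ℝ) < |(b : ℝ)| := by
        rw [abs_pos]; exact_mod_cast hb0
      have h2 : |(b : ℝ) * ζ + a| = |(b : ℝ)| * |ζ - ((-a * b.sign : ℤ) : ℝ) / ((|b| : ℤ) : ℝ)| := by
        rw [← abs_mul]
        have hs : (b : ℝ) = |(b : ℝ)| * ((b.sign : ℤ) : ℝ) := by
          have : b = |b| * b.sign := by
            rw [mul_comm]; exact (Int.sign_mul_abs b).symm
          exact_mod_cast this
        have hss : ((b.sign : ℤ) : ℝ) * ((b.sign : ℤ) : ℝ) = 1 := by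
          have : b.sign * b.sign = 1 := by
            rcases lt_trichotomy b 0 with h | h | h
            · rw [Int.sign_eq_neg_one_of_neg h]; norm_num
            · exact absurd h hb0
            · rw [Int.sign_eq_one_of_pos h]; norm_num
          exact_mod_cast this
        have e : (b : ℝ) * ζ + a = ((b.sign : ℤ) : ℝ) * (|(b : ℝ)| * (ζ - ((-a * b.sign : ℤ) : ℝ) / ((|b| : ℤ) : ℝ))) := by
          push_cast
          have hne : |(b : ℝ)| ≠ 0 := hbpos.ne'
          field_simp
          linear_combination (ζ) * hs - a * hss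
        rw [e, abs_mul]
        have habs1 : |((b.sign : ℤ) : ℝ)| = 1 := by
          have := abs_mul_abs_self ((b.sign : ℤ) : ℝ)
          rw [hss] at this
          nlinarith [abs_nonneg ((b.sign : ℤ) : ℝ)]
        rw [habs1, one_mul, abs_mul, abs_abs, ← abs_mul]
      rw [h2]
      have h3 : (1 : ℝ) ≤ |(b : ℝ)| := by
        have : (1 : ℤ) ≤ |b| := hb1.le
        exact_mod_cast this
      calc c / (MM R) ^ (μ + 1) ≤ (1 / 2 ^ (μ + 1)) / (MM R) ^ (μ + 1) := by
            gcongr
            rw [hc]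
            gcongr
            exact min_le_left _ _
        _ = 1 / (2 * MM R) ^ (μ + 1) := by rw [mul_pow, div_div]
        _ ≤ 1 / |(b : ℝ)| ^ (μ + 1) := by
            apply one_div_le_one_div_of_le (by positivity)
            gcongr
        _ ≤ 1 / |(b : ℝ)| ^ μ := by
            apply one_div_le_one_div_of_le (by positivity)
            exact pow_le_pow_right₀ h3 (by omega)
        _ ≤ |ζ - ((-a * b.sign : ℤ) : ℝ) / ((|b| : ℤ) : ℝ)| := by
            have := h1
            push_cast at this ⊢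
            exact this
        _ ≤ |(b : ℝ)| * |ζ - ((-a * b.sign : ℤ) : ℝ) / ((|b| : ℤ) : ℝ)| :=
            le_mul_of_one_le_left (abs_nonneg _) h3

/-- If all irreducible factors of degree at least two are not small at `ζ`, neither is `P`. -/
lemma factor_lower (ζ : ℝ) (μ : ℕ) (c τ : ℝ) (hc0 : 0 < c) (hc1 : c ≤ 1) (hτ0 : 0 < τ) (hτ1 : τ ≤ 1)
    (hlin : ∀ R : ℤ[X], R ≠ 0 → R.natDegree ≤ 1 → c / (MM R) ^ μ ≤ |aeval ζ R|) (P : ℤ[X]) :
    P ≠ 0 → (∀ F : ℤ[X], Irreducible F → F ∣ P → 2 ≤ F.natDegree → τ ≤ |aeval ζ F|) →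
      (c * Real.sqrt τ) ^ P.natDegree / (MM P) ^ μ ≤ |aeval ζ P| := by
  set s := Real.sqrt τ with hs
  have hs0 : 0 < s := Real.sqrt_pos.mpr hτ0
  have hs1 : s ≤ 1 := by rw [hs]; exact Real.sqrt_le_one.mpr hτ1
  have hss : s * s = τ := Real.mul_self_sqrt hτ0.le
  have hcs0 : 0 < c * s := mul_pos hc0 hs0
  have hcs1 : c * s ≤ 1 := mul_le_one₀ hc1 hs0.le hs1
  refine WfDvdMonoid.induction_on_irreducible P ?_ ?_ ?_
  · intro h; exact absurd rfl h
  · intro u hu _ _
    obtain ⟨r, hr, rfl⟩ := Polynomial.isUnit_iff.mp hu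
    rw [natDegree_C, pow_zero, MM_C]
    have hr1 : |(r : ℝ)| = 1 := by
      rcases Int.isUnit_iff.mp hr with h | h <;> rw [h] <;> simp
    simp [hr1]
  · intro A F hA hF ih _ hall
    have hF0 := hF.ne_zero
    have ih' := ih hA (fun G hG1 hG2 hG3 => hall G hG1 (hG2.mul_left F) hG3)
    have hFF : (c * s) ^ F.natDegree / (MM F) ^ μ ≤ |aeval ζ F| := by
      rcases Nat.lt_or_ge 1 F.natDegree with h2 | h2
      · have h3 := hall F hF (dvd_mul_right F A) h2
        calc (c * s) ^ F.natDegree / (MM F) ^ μ ≤ (c * s) ^ F.natDegree :=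
              div_le_self (by positivity) (one_le_pow₀ (one_le_MM hF0))
          _ ≤ (c * s) ^ 2 := pow_le_pow_of_le_one hcs0.le hcs1 h2
          _ ≤ s ^ 2 := by
              apply pow_le_pow_left₀ hcs0.le
              exact mul_le_of_le_one_left hs0.le hc1
          _ = τ := by rw [sq]; exact hss
          _ ≤ |aeval ζ F| := h3
      · have h3 := hlin F hF0 h2
        rcases Nat.eq_zero_or_pos F.natDegree with h0 | h0
        · rw [h0, pow_zero]
          -- F is a constant
          obtain ⟨k, hk⟩ : ∃ k : ℤ, F = C k := ⟨F.coeff 0, eq_C_of_natDegree_eq_zero h0⟩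
          have hne : k ≠ 0 := by
            intro h; apply hF0; rw [hk, h]; simp
          have h4 : (1 : ℝ) ≤ |(k : ℝ)| := by exact_mod_cast Int.one_le_abs hne
          have h5 : aeval ζ F = (k : ℝ) := by rw [hk]; simp
          rw [h5, hk, MM_C]
          calc (1 : ℝ) / |(k : ℝ)| ^ μ ≤ 1 := by
                rw [div_le_one (by positivity)]; exact one_le_pow₀ h4
            _ ≤ _ := h4
        · have h1 : F.natDegree = 1 := by omega
          rw [h1, pow_one]
          refine le_trans ?_ h3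
          exact div_le_div_of_nonneg_right (mul_le_of_le_one_right hc0.le hs1)
            (pow_nonneg (MM_nonneg F) μ)
    have e : (c * s) ^ (F.natDegree + A.natDegree) / (MM F * MM A) ^ μ =
        ((c * s) ^ F.natDegree / (MM F) ^ μ) * ((c * s) ^ A.natDegree / (MM A) ^ μ) := by
      rw [pow_add, mul_pow (MM F), mul_div_mul_comm]
    rw [natDegree_mul hF0 hA, MM_mul, e, map_mul, abs_mul]
    exact mul_le_mul hFF ih' (by
      have := one_le_MM hA
      positivity) (abs_nonneg _)

end Pool.Agent.H238R3
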