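import Mathlib
import Pool.Agent.H238R3.Mahler

set_option autoImplicit false

namespace Pool.Agent.H238R3

open Polynomial

lemma eval_bound (Q : ℝ[X]) (N : ℕ) (K L x : ℝ) (hN : Q.natDegree ≤ N)
    (hK : ∀ i, |Q.coeff i| ≤ K) (hL : 1 ≤ L) (hx : |x| ≤ L) :
    |Q.eval x| ≤ (N + 1) * K * L ^ N := by
  have hK0 : 0 ≤ K := (abs_nonneg _).trans (hK 0)
  rw [Polynomial.eval_eq_sum_range' (Nat.lt_succ_of_le hN)]
  calc |∑ i ∈ Finset.range (N + 1), Q.coeff i * x ^ i|
      ≤ ∑ i ∈ Finset.range (N + 1), |Q.coeff i * x ^ i| := Finset.abs_sum_le_sum_abs _ _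
    _ ≤ ∑ i ∈ Finset.range (N + 1), K * L ^ N := by
        apply Finset.sum_le_sum
        intro i hi
        rw [abs_mul, abs_pow]
        apply mul_le_mul (hK i) _ (by positivity) hK0
        calc |x| ^ i ≤ L ^ i := pow_le_pow_left₀ (abs_nonneg _) hx _
          _ ≤ L ^ N := pow_le_pow_right₀ hL (by simp at hi; omega)
    _ = (N + 1) * K * L ^ N := by
        rw [Finset.sum_const, Finset.card_range, nsmul_eq_mul]; push_cast; ring

lemma deriv_coeff_bound (Q : ℝ[X]) (N : ℕ) (K : ℝ) (hN : Q.natDegree ≤ N)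
    (hK : ∀ i, |Q.coeff i| ≤ K) (i : ℕ) : |(derivative Q).coeff i| ≤ N * K := by
  have hK0 : 0 ≤ K := (abs_nonneg _).trans (hK 0)
  rw [coeff_derivative]
  rcases Nat.lt_or_ge N (i + 1) with h | h
  · rw [coeff_eq_zero_of_natDegree_lt (by omega)]
    simp; positivity
  · rw [abs_mul, mul_comm]
    apply mul_le_mul _ (hK _) (abs_nonneg _) (by positivity)
    rw [abs_of_nonneg (by positivity)]
    exact_mod_cast h

lemma deriv_natDegree (Q : ℝ[X]) (N : ℕ) (hN : Q.natDegree ≤ N) :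
    (derivative Q).natDegree ≤ N := (natDegree_derivative_le Q).trans (by omega)

lemma mul_coeff_bound (P Q : ℝ[X]) (N1 N2 : ℕ) (K1 K2 : ℝ) (hN1 : P.natDegree ≤ N1)
    (hN2 : Q.natDegree ≤ N2) (hK1 : ∀ i, |P.coeff i| ≤ K1) (hK2 : ∀ i, |Q.coeff i| ≤ K2) (k : ℕ) :
    |(P * Q).coeff k| ≤ (N1 + N2 + 1) * (K1 * K2) := by
  have hK10 : 0 ≤ K1 := (abs_nonneg _).trans (hK1 0)
  have hK20 : 0 ≤ K2 := (abs_nonneg _).trans (hK2 0)
  rcases Nat.lt_or_ge (N1 + N2) k with h | h
  · rw [coeff_eq_zero_of_natDegree_lt (lt_of_le_of_lt (natDegree_mul_le) (by omega))]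
    simp; positivity
  · rw [coeff_mul]
    calc |∑ x ∈ Finset.HasAntidiagonal.antidiagonal k, P.coeff x.1 * Q.coeff x.2|
        ≤ ∑ x ∈ Finset.HasAntidiagonal.antidiagonal k, |P.coeff x.1 * Q.coeff x.2| := Finset.abs_sum_le_sum_abs _ _
      _ ≤ ∑ x ∈ Finset.HasAntidiagonal.antidiagonal k, K1 * K2 := by
          apply Finset.sum_le_sum
          intro x _
          rw [abs_mul]
          exact mul_le_mul (hK1 _) (hK2 _) (abs_nonneg _) hK10
      _ = (k + 1) * (K1 * K2) := by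
          rw [Finset.sum_const, Finset.Nat.card_antidiagonal, nsmul_eq_mul]; push_cast; ring
      _ ≤ (N1 + N2 + 1) * (K1 * K2) := by
          have : (k : ℝ) ≤ N1 + N2 := by exact_mod_cast h
          gcongr

/-- coefficientwise floor -/
noncomputable def fl (N : ℕ) (A : ℝ[X]) : ℤ[X] := ∑ i ∈ Finset.range (N + 1), C ⌊A.coeff i⌋ * X ^ i

lemma fl_coeff (N : ℕ) (A : ℝ[X]) (hA : A.natDegree ≤ N) (i : ℕ) :
    (fl N A).coeff i = ⌊A.coeff i⌋ := by
  unfold fl
  rw [finsetSum_coeff]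
  simp only [coeff_C_mul, coeff_X_pow]
  rcases Nat.lt_or_ge N i with h | h
  · rw [coeff_eq_zero_of_natDegree_lt (by omega : A.natDegree < i)]
    rw [Finset.sum_eq_zero]
    · simp
    · intro j hj
      simp at hj
      rw [if_neg (by omega)]; simp
  · rw [Finset.sum_eq_single i]
    · simp
    · intro j _ hj
      rw [if_neg (by omega)]; simp
    · intro h2; simp at h2; omega

lemma fl_natDegree (N : ℕ) (A : ℝ[X]) (hA : A.natDegree ≤ N) : (fl N A).natDegree ≤ N := by
  rw [natDegree_le_iff_coeff_eq_zero]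
  intro i hi
  rw [fl_coeff N A hA, coeff_eq_zero_of_natDegree_lt (by omega)]
  simp

lemma sub_fl (N : ℕ) (A : ℝ[X]) (hA : A.natDegree ≤ N) :
    ∀ i, |(A - (fl N A).map (Int.castRingHom ℝ)).coeff i| ≤ 1 := by
  intro i
  rw [coeff_sub, coeff_map, fl_coeff N A hA]
  simp only [eq_intCast]
  rw [Int.self_sub_floor, abs_of_nonneg (Int.fract_nonneg _)]
  exact (Int.fract_lt_one _).le

lemma aux_lin (x1 x2 x3 x4 c1 c2 B K : ℝ) (h1 : |x1| ≤ c1) (h2 : |x2| ≤ c2) (h3 : |x3| ≤ c1)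
    (h4 : |x4| ≤ c2) (hK : K = B + 2 * (c1 + c2)) : B ≤ |K - (x1 + x2) - (x3 + x4)| := by
  have l1 := abs_le.mp h1
  have l2 := abs_le.mp h2
  have l3 := abs_le.mp h3
  have l4 := abs_le.mp h4
  refine le_trans ?_ (le_abs_self _)
  linarith [l1.2, l2.2, l3.2, l4.2]

theorem pair (ζ : ℝ) (D : ℕ) : ∃ K : ℝ, 1 ≤ K ∧ ∀ F G : ℤ[X], F.natDegree ≤ D → G.natDegree ≤ D →
    G ≠ 0 → IsCoprime (F.map (Int.castRingHom ℝ)) (G.map (Int.castRingHom ℝ)) →
    ∀ B v : ℝ, 1 ≤ B → 0 ≤ v → v ≤ B → (∀ i, |(F.coeff i : ℝ)| ≤ B) →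
    (∀ i, |(G.coeff i : ℝ)| ≤ B) → |aeval ζ F| ≤ v → |aeval ζ G| ≤ v →
    ∃ P : ℤ[X], P.natDegree ≤ 4 * D + 1 ∧ (∀ i, |(P.coeff i : ℝ)| ≤ K * B) ∧
      |aeval ζ P| ≤ K * v ∧ B ≤ |(derivative (P.map (Int.castRingHom ℝ))).eval ζ| := by
  set L : ℝ := max 1 |ζ| with hL
  have hL1 : 1 ≤ L := le_max_left _ _
  have hxL : |ζ| ≤ L := le_max_right _ _
  set N : ℕ := 2 * D + 1 with hN
  set K0 : ℝ := 2 * ((N + 1) * (N * 1) * L ^ N + (N + 1) * 1 * L ^ N * ((D + 1) * (D * 1) * L ^ D)) + 1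
    with hK0
  have hK01 : 1 ≤ K0 := by
    have : 0 ≤ 2 * (((N : ℝ) + 1) * (N * 1) * L ^ N + (N + 1) * 1 * L ^ N * ((D + 1) * (D * 1) * L ^ D)) := by
      positivity
    linarith
  set K : ℝ := K0 * L + 2 * (N + D + 1) + 2 * ((N + 1) * 1 * L ^ N) with hK
  have hK1 : 1 ≤ K := by
    have h1 : 1 ≤ K0 * L := one_le_mul_of_one_le_of_one_le hK01 hL1
    have h2 : 0 ≤ 2 * ((N : ℝ) + D + 1) + 2 * ((N + 1) * 1 * L ^ N) := by positivity
    linarith
  refine ⟨K, hK1, ?_⟩
  intro F G hF hG hG0 hcop B v hB hv hvB hFB hGB hFv hGv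
  set f := F.map (Int.castRingHom ℝ) with hf
  set g := G.map (Int.castRingHom ℝ) with hg
  have hfD : f.natDegree ≤ D := (natDegree_map_le).trans hF
  have hgD : g.natDegree ≤ D := (natDegree_map_le).trans hG
  have hg0 : g ≠ 0 := (Polynomial.map_ne_zero_iff (RingHom.injective_int _)).mpr hG0
  have hfc : ∀ i, |f.coeff i| ≤ B := by intro i; rw [hf, coeff_map]; simpa using hFB i
  have hgc : ∀ i, |g.coeff i| ≤ B := by intro i; rw [hg, coeff_map]; simpa using hGB i
  have hfe : |f.eval ζ| ≤ v := by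
    have : aeval ζ F = f.eval ζ := by rw [aeval_def, eval₂_eq_eval_map]; rfl
    rw [← this]; exact hFv
  have hge : |g.eval ζ| ≤ v := by
    have : aeval ζ G = g.eval ζ := by rw [aeval_def, eval₂_eq_eval_map]; rfl
    rw [← this]; exact hGv
  obtain ⟨U, V, hUV⟩ := hcop
  set T0 : ℝ[X] := C (K0 * B) * (X - C ζ) with hT0
  set A : ℝ[X] := (U * T0) % g with hA
  set q : ℝ[X] := (U * T0) / g with hq
  set B1 : ℝ[X] := V * T0 + q * f with hB1
  have hAq : A = U * T0 - g * q := by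
    rw [hA, hq]; exact EuclideanDomain.mod_eq_sub_mul_div _ _
  have hsum : A * f + B1 * g = T0 := by
    calc A * f + B1 * g = T0 * (U * f + V * g) := by rw [hAq, hB1]; ring
      _ = T0 := by rw [hUV, mul_one]
  have hAdeg : A.natDegree ≤ D := by
    have h1 : A.degree < g.degree := by rw [hA]; exact degree_mod_lt _ hg0
    exact (natDegree_le_natDegree h1.le).trans hgD
  have hT0deg : T0.natDegree ≤ 1 := by
    rw [hT0]
    refine (natDegree_C_mul_le _ _).trans ?_
    rw [natDegree_X_sub_C]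
  have hB1deg : B1.natDegree ≤ N := by
    by_cases hB10 : B1 = 0
    · rw [hB10]; simp
    · have h1 : (B1 * g).natDegree = B1.natDegree + g.natDegree := natDegree_mul hB10 hg0
      have h2 : B1 * g = T0 - A * f := by rw [← hsum]; ring
      have h3 : (T0 - A * f).natDegree ≤ N := by
        refine (natDegree_sub_le _ _).trans ?_
        apply max_le
        · omega
        · refine (natDegree_mul_le).trans ?_
          omega
      rw [← h2, h1] at h3
      omega
  have hAN : A.natDegree ≤ N := by omega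
  set a' : ℝ[X] := A - (fl N A).map (Int.castRingHom ℝ) with ha'
  set b' : ℝ[X] := B1 - (fl N B1).map (Int.castRingHom ℝ) with hb'
  have ha'c : ∀ i, |a'.coeff i| ≤ 1 := sub_fl N A hAN
  have hb'c : ∀ i, |b'.coeff i| ≤ 1 := sub_fl N B1 hB1deg
  have ha'N : a'.natDegree ≤ N := by
    refine (natDegree_sub_le _ _).trans (max_le hAN ?_)
    exact (natDegree_map_le).trans (fl_natDegree N A hAN)
  have hb'N : b'.natDegree ≤ N := by
    refine (natDegree_sub_le _ _).trans (max_le hB1deg ?_)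
    exact (natDegree_map_le).trans (fl_natDegree N B1 hB1deg)
  set P : ℤ[X] := fl N A * F + fl N B1 * G with hP
  have hPmap : P.map (Int.castRingHom ℝ) = T0 - a' * f - b' * g := by
    rw [hP, Polynomial.map_add, Polynomial.map_mul, Polynomial.map_mul, ← hf, ← hg, ← hsum, ha', hb']
    ring
  have hPdeg : P.natDegree ≤ 4 * D + 1 := by
    rw [hP]
    refine (natDegree_add_le _ _).trans (max_le ?_ ?_)
    · refine (natDegree_mul_le).trans ?_
      have := fl_natDegree N A hAN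
      omega
    · refine (natDegree_mul_le).trans ?_
      have := fl_natDegree N B1 hB1deg
      omega
  have hvB' : v ≤ B := hvB
  have hea : |a'.eval ζ| ≤ (N + 1) * 1 * L ^ N := eval_bound a' N 1 L ζ ha'N ha'c hL1 hxL
  have heb : |b'.eval ζ| ≤ (N + 1) * 1 * L ^ N := eval_bound b' N 1 L ζ hb'N hb'c hL1 hxL
  have hK0L : K0 ≤ K0 * L := le_mul_of_one_le_right (by linarith) hL1
  have hT0e : T0.eval ζ = 0 := by rw [hT0]; simp
  have hT0d : (derivative T0).eval ζ = K0 * B := by rw [hT0]; simp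
  clear_value T0 a' b' f g
  refine ⟨P, hPdeg, ?_, ?_, ?_⟩
  · intro i
    have h1 : (P.coeff i : ℝ) = (P.map (Int.castRingHom ℝ)).coeff i := by rw [coeff_map]; simp
    rw [h1, hPmap, coeff_sub, coeff_sub]
    have h2 : |T0.coeff i| ≤ K0 * L * B := by
      rw [hT0, coeff_C_mul, abs_mul, abs_of_nonneg (by positivity)]
      have h3 : |(X - C ζ : ℝ[X]).coeff i| ≤ L := by
        rw [coeff_sub, coeff_X, coeff_C]
        split_ifs with h4 h5 h5
        · omega
        · simp; exact hL1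
        · simp; exact hxL
        · simp; linarith
      calc K0 * B * |(X - C ζ : ℝ[X]).coeff i| ≤ K0 * B * L := by gcongr
        _ = K0 * L * B := by ring
    have h3 := mul_coeff_bound a' f N D 1 B ha'N hfD ha'c hfc i
    have h4 := mul_coeff_bound b' g N D 1 B hb'N hgD hb'c hgc i
    calc |T0.coeff i - (a' * f).coeff i - (b' * g).coeff i|
        ≤ |T0.coeff i| + |(a' * f).coeff i| + |(b' * g).coeff i| := by
          have := abs_sub (T0.coeff i - (a' * f).coeff i) ((b' * g).coeff i)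
          have := abs_sub (T0.coeff i) ((a' * f).coeff i)
          linarith
      _ ≤ K0 * L * B + (N + D + 1) * (1 * B) + (N + D + 1) * (1 * B) := by linarith
      _ ≤ K * B := by
          rw [hK]
          have h5 : 0 ≤ 2 * (((N : ℝ) + 1) * 1 * L ^ N) * B := by positivity
          nlinarith
  · have h1 : aeval ζ P = (P.map (Int.castRingHom ℝ)).eval ζ := by
      rw [aeval_def, eval₂_eq_eval_map]; rfl
    rw [h1, hPmap, eval_sub, eval_sub, eval_mul, eval_mul]
    rw [hT0e]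
    calc |0 - a'.eval ζ * f.eval ζ - b'.eval ζ * g.eval ζ|
        ≤ |a'.eval ζ| * |f.eval ζ| + |b'.eval ζ| * |g.eval ζ| := by
          have := abs_sub (0 - a'.eval ζ * f.eval ζ) (b'.eval ζ * g.eval ζ)
          rw [zero_sub, abs_neg, abs_mul, abs_mul] at this
          rw [zero_sub]; exact this
      _ ≤ (N + 1) * 1 * L ^ N * v + (N + 1) * 1 * L ^ N * v := by gcongr
      _ ≤ K * v := by
          rw [hK]
          have h5 : 0 ≤ (K0 * L + 2 * ((N : ℝ) + D + 1)) * v := by positivity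
          nlinarith
  · rw [hPmap, derivative_sub, derivative_sub, derivative_mul, derivative_mul]
    simp only [eval_sub, eval_add, eval_mul]
    rw [hT0d]
    have hda := eval_bound (derivative a') N (N * 1) L ζ (deriv_natDegree a' N ha'N)
      (deriv_coeff_bound a' N 1 ha'N ha'c) hL1 hxL
    have hdb := eval_bound (derivative b') N (N * 1) L ζ (deriv_natDegree b' N hb'N)
      (deriv_coeff_bound b' N 1 hb'N hb'c) hL1 hxL
    have hdf := eval_bound (derivative f) D (D * B) L ζ (deriv_natDegree f D hfD)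
      (deriv_coeff_bound f D B hfD hfc) hL1 hxL
    have hdg := eval_bound (derivative g) D (D * B) L ζ (deriv_natDegree g D hgD)
      (deriv_coeff_bound g D B hgD hgc) hL1 hxL
    have e1 : |(derivative a').eval ζ * f.eval ζ| ≤ (N + 1) * (N * 1) * L ^ N * B := by
      rw [abs_mul]; exact mul_le_mul hda (hfe.trans hvB') (abs_nonneg _) (by positivity)
    have e2 : |a'.eval ζ * (derivative f).eval ζ| ≤ (N + 1) * 1 * L ^ N * ((D + 1) * (D * B) * L ^ D) := by
      rw [abs_mul]; exact mul_le_mul hea hdf (abs_nonneg _) (by positivity)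
    have e3 : |(derivative b').eval ζ * g.eval ζ| ≤ (N + 1) * (N * 1) * L ^ N * B := by
      rw [abs_mul]; exact mul_le_mul hdb (hge.trans hvB') (abs_nonneg _) (by positivity)
    have e4 : |b'.eval ζ * (derivative g).eval ζ| ≤ (N + 1) * 1 * L ^ N * ((D + 1) * (D * B) * L ^ D) := by
      rw [abs_mul]; exact mul_le_mul heb hdg (abs_nonneg _) (by positivity)
    have e5 : K0 * B = B + 2 * ((N + 1) * (N * 1) * L ^ N * B +
        (N + 1) * 1 * L ^ N * ((D + 1) * (D * B) * L ^ D)) := by rw [hK0]; ring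
    exact aux_lin _ _ _ _ _ _ _ _ e1 e2 e3 e4 e5

/-- a simple root close to `ζ` -/
theorem root_near (ζ : ℝ) (N : ℕ) (K : ℝ) (hK : 1 ≤ K) : ∃ c : ℝ, 0 < c ∧ ∀ p : ℝ[X],
    p.natDegree ≤ N → ∀ B v : ℝ, 0 < B → 0 ≤ v → v ≤ c * B → (∀ i, |p.coeff i| ≤ K * B) →
    |p.eval ζ| ≤ v → B ≤ |(derivative p).eval ζ| → ∃ β : ℝ, p.eval β = 0 ∧ |ζ - β| ≤ 2 * v / B := by
  set L : ℝ := |ζ| + 1 with hL
  have hL1 : 1 ≤ L := by rw [hL]; linarith [abs_nonneg ζ]
  set C2 : ℝ := (N + 1) * (N * (N * K)) * L ^ N + 1 with hC2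
  have hC21 : 1 ≤ C2 := by
    have : 0 ≤ ((N : ℝ) + 1) * (N * (N * K)) * L ^ N := by positivity
    linarith
  refine ⟨1 / (4 * C2), by positivity, ?_⟩
  -- reduce to positive derivative
  have key : ∀ p : ℝ[X],
    p.natDegree ≤ N → ∀ B v : ℝ, 0 < B → 0 ≤ v → v ≤ 1 / (4 * C2) * B → (∀ i, |p.coeff i| ≤ K * B) →
    |p.eval ζ| ≤ v → B ≤ (derivative p).eval ζ → ∃ β : ℝ, p.eval β = 0 ∧ |ζ - β| ≤ 2 * v / B := by
    intro p hp B v hB hv hvc hc hev hder
    set r : ℝ := 2 * v / B with hr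
    have hr0 : 0 ≤ r := by positivity
    have hrle : C2 * r ≤ 1 / 2 := by
      rw [hr]
      have : C2 * (2 * v / B) = (2 * C2 / B) * v := by ring
      rw [this]
      calc (2 * C2 / B) * v ≤ (2 * C2 / B) * (1 / (4 * C2) * B) := by gcongr
        _ = 1 / 2 := by field_simp; norm_num
    have hr1 : r ≤ 1 := by nlinarith
    have hder2 : ∀ x ∈ Set.Icc (ζ - r) (ζ + r), B / 2 ≤ (derivative p).eval x := by
      intro x hx
      have hcont : ∀ y ∈ Set.Icc (ζ - 1) (ζ + 1), ‖(derivative (derivative p)).eval y‖ ≤ C2 * B := by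
        intro y hy
        have hyL : |y| ≤ L := by
          rw [hL, abs_le]
          have h1 := neg_abs_le ζ
          have h2 := le_abs_self ζ
          constructor <;> linarith [hy.1, hy.2]
        have h := eval_bound (derivative (derivative p)) N (N * (N * (K * B))) L y
          (deriv_natDegree _ N (deriv_natDegree p N hp))
          (deriv_coeff_bound _ N _ (deriv_natDegree p N hp) (deriv_coeff_bound p N _ hp hc)) hL1 hyL
        rw [Real.norm_eq_abs]
        refine h.trans ?_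
        rw [hC2]
        nlinarith
      have hmem : x ∈ Set.Icc (ζ - 1) (ζ + 1) := ⟨by linarith [hx.1], by linarith [hx.2]⟩
      have hmem0 : ζ ∈ Set.Icc (ζ - 1) (ζ + 1) := ⟨by linarith, by linarith⟩
      have h := (convex_Icc (ζ - 1) (ζ + 1)).norm_image_sub_le_of_norm_hasDerivWithin_le
        (f := fun y => (derivative p).eval y) (f' := fun y => (derivative (derivative p)).eval y)
        (fun y _ => ((derivative p).hasDerivAt y).hasDerivWithinAt) hcont hmem0 hmem
      rw [Real.norm_eq_abs, Real.norm_eq_abs] at h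
      have hxr : |x - ζ| ≤ r := by rw [abs_le]; constructor <;> linarith [hx.1, hx.2]
      have h2 : C2 * B * |x - ζ| ≤ B / 2 := by
        calc C2 * B * |x - ζ| ≤ C2 * B * r := by gcongr
          _ = B * (C2 * r) := by ring
          _ ≤ B * (1 / 2) := by gcongr
          _ = B / 2 := by ring
      have h3 := (abs_le.mp (h.trans h2)).1
      linarith
    have hmvt : ∀ x ∈ Set.Icc (ζ - r) (ζ + r), ∀ y ∈ Set.Icc (ζ - r) (ζ + r), x ≤ y →
        B / 2 * (y - x) ≤ p.eval y - p.eval x := by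
      apply (convex_Icc (ζ - r) (ζ + r)).mul_sub_le_image_sub_of_le_deriv
      · exact p.continuous.continuousOn
      · exact p.differentiable.differentiableOn
      · intro x hx
        rw [interior_Icc] at hx
        rw [Polynomial.deriv]
        exact hder2 x ⟨hx.1.le, hx.2.le⟩
    have hb := abs_le.mp hev
    have hBr : B / 2 * r = v := by rw [hr]; field_simp
    have h1 := hmvt ζ ⟨by linarith, by linarith⟩ (ζ + r) ⟨by linarith, le_rfl⟩ (by linarith)
    have h2 := hmvt (ζ - r) ⟨le_rfl, by linarith⟩ ζ ⟨by linarith, by linarith⟩ (by linarith)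
    rw [show ζ + r - ζ = r by ring, hBr] at h1
    rw [show ζ - (ζ - r) = r by ring, hBr] at h2
    have hivt := intermediate_value_Icc (show ζ - r ≤ ζ + r by linarith)
      (f := fun y => p.eval y) p.continuous.continuousOn
    have h0 : (0 : ℝ) ∈ Set.Icc (p.eval (ζ - r)) (p.eval (ζ + r)) :=
      ⟨by linarith [hb.2], by linarith [hb.1]⟩
    obtain ⟨β, hβ1, hβ2⟩ := hivt h0
    refine ⟨β, hβ2, ?_⟩
    rw [abs_le]
    constructor <;> linarith [hβ1.1, hβ1.2]
  intro p hp B v hB hv hvc hc hev hder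
  rcases le_or_gt 0 ((derivative p).eval ζ) with h | h
  · rw [abs_of_nonneg h] at hder
    exact key p hp B v hB hv hvc hc hev hder
  · rw [abs_of_neg h] at hder
    obtain ⟨β, h1, h2⟩ := key (-p) (by rwa [natDegree_neg]) B v hB hv hvc
      (fun i => by rw [coeff_neg, abs_neg]; exact hc i) (by rw [eval_neg, abs_neg]; exact hev)
      (by rw [derivative_neg, eval_neg]; exact hder)
    refine ⟨β, ?_, h2⟩
    rw [eval_neg, neg_eq_zero] at h1
    exact h1

/-- irreducible factor vanishing at a root -/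
lemma exists_factor (β : ℝ) (P : ℤ[X]) : P ≠ 0 → aeval β P = 0 →
    ∃ F : ℤ[X], Irreducible F ∧ F ∣ P ∧ aeval β F = 0 := by
  refine WfDvdMonoid.induction_on_irreducible P ?_ ?_ ?_
  · intro h; exact absurd rfl h
  · intro u hu _ h0
    obtain ⟨r, hr, rfl⟩ := Polynomial.isUnit_iff.mp hu
    exfalso
    rcases Int.isUnit_iff.mp hr with h | h <;> rw [h] at h0 <;> simp at h0
  · intro A F hA hF ih _ h0
    rw [map_mul, mul_eq_zero] at h0
    rcases h0 with h | h
    · exact ⟨F, hF, dvd_mul_right F A, h⟩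
    · obtain ⟨G, h1, h2, h3⟩ := ih hA h
      exact ⟨G, h1, h2.mul_left F, h3⟩

/-- combined approximation lemma -/
theorem approx (ζ : ℝ) (D : ℕ) : ∃ K c : ℝ, 1 ≤ K ∧ 0 < c ∧ ∀ F G : ℤ[X], F.natDegree ≤ D →
    G.natDegree ≤ D →
    G ≠ 0 → IsCoprime (F.map (Int.castRingHom ℝ)) (G.map (Int.castRingHom ℝ)) →
    ∀ B v : ℝ, 1 ≤ B → 0 ≤ v → v ≤ c * B → (∀ i, |(F.coeff i : ℝ)| ≤ B) →
    (∀ i, |(G.coeff i : ℝ)| ≤ B) → |aeval ζ F| ≤ v → |aeval ζ G| ≤ v →
    ∃ β : ℝ, ∃ P : ℤ[X], Irreducible P ∧ P.natDegree ≤ 4 * D + 1 ∧ aeval β P = 0 ∧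
      (∀ i, |(P.coeff i : ℝ)| ≤ K * B) ∧ |ζ - β| ≤ K * v / B := by
  obtain ⟨K, hK, hpair⟩ := pair ζ D
  obtain ⟨c, hc, hroot⟩ := root_near ζ (4 * D + 1) K hK
  have hKpos : 0 < K := by linarith
  set K' : ℝ := 2 * K + 2 ^ (4 * D + 1) * ((4 * D + 1 + 1) * K) with hK'
  refine ⟨K', min 1 (c / K), ?_, lt_min one_pos (by positivity), ?_⟩
  · have : 0 ≤ (2 : ℝ) ^ (4 * D + 1) * ((4 * D + 1 + 1) * K) := by positivity
    rw [hK']; linarith
  intro F G hF hG hG0 hcop B v hB hv hvc hFB hGB hFv hGv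
  have hB0 : 0 < B := by linarith
  have hvB : v ≤ B := hvc.trans (by
    calc min 1 (c / K) * B ≤ 1 * B := by gcongr; exact min_le_left _ _
      _ = B := one_mul B)
  obtain ⟨P, h1, h2, h3, h4⟩ := hpair F G hF hG hG0 hcop B v hB hv hvB hFB hGB hFv hGv
  have hPe : aeval ζ P = (P.map (Int.castRingHom ℝ)).eval ζ := by
    rw [aeval_def, eval₂_eq_eval_map]; rfl
  obtain ⟨β, hβ1, hβ2⟩ := hroot (P.map (Int.castRingHom ℝ)) ((natDegree_map_le).trans h1) B (K * v) hB0
    (by positivity) (by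
      calc K * v ≤ K * (min 1 (c / K) * B) := by gcongr
        _ ≤ K * (c / K * B) := by gcongr; exact min_le_right _ _
        _ = c * B := by field_simp)
    (fun i => by rw [coeff_map]; simpa using h2 i) (by rw [← hPe]; exact h3) h4
  have hP0 : P ≠ 0 := by
    rintro rfl
    simp at h4
    linarith
  have hβ3 : aeval β P = 0 := by
    have : aeval β P = (P.map (Int.castRingHom ℝ)).eval β := by
      rw [aeval_def, eval₂_eq_eval_map]; rfl
    rw [this]; exact hβ1
  obtain ⟨Q, hQ1, hQ2, hQ3⟩ := exists_factor β P hP0 hβ3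
  have hQdeg : Q.natDegree ≤ 4 * D + 1 := (natDegree_le_of_dvd hQ2 hP0).trans h1
  refine ⟨β, Q, hQ1, hQdeg, hQ3, ?_, ?_⟩
  · intro i
    have e1 := coeff_le_MM Q i
    have e2 := MM_le_of_dvd hP0 hQ2
    have e3 := MM_le P (4 * D + 1) (K * B) h1 h2
    have e4 : (2 : ℝ) ^ Q.natDegree ≤ 2 ^ (4 * D + 1) := pow_le_pow_right₀ (by norm_num) hQdeg
    calc |(Q.coeff i : ℝ)| ≤ 2 ^ Q.natDegree * MM Q := e1
      _ ≤ 2 ^ (4 * D + 1) * (((4 * D + 1 : ℕ) + 1) * (K * B)) := by
          apply mul_le_mul e4 (e2.trans e3) (MM_nonneg _) (by positivity)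
      _ = (2 ^ (4 * D + 1) * ((4 * D + 1 + 1) * K)) * B := by push_cast; ring
      _ ≤ K' * B := by
          rw [hK']
          have : 0 ≤ 2 * K * B := by positivity
          nlinarith
  · refine hβ2.trans ?_
    apply div_le_div_of_nonneg_right _ hB0.le
    have : 0 ≤ (2 : ℝ) ^ (4 * D + 1) * ((4 * D + 1 + 1) * K) * v := by positivity
    rw [hK']; nlinarith

end Pool.Agent.H238R3
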