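import Mathlib
import Pool.Agent.H238R3.Dirichlet
import Pool.Agent.H238R3.Pair

set_option autoImplicit false

namespace Pool.Agent.H238R3

open Polynomial

lemma coprime_of (F G : ℤ[X]) (hF : Irreducible F) (hdeg : 1 ≤ F.natDegree) (hG : G ≠ 0)
    (hnd : ¬ F ∣ G) :
    IsCoprime (F.map (Int.castRingHom ℝ)) (G.map (Int.castRingHom ℝ)) := by
  have hprim : F.IsPrimitive := hF.isPrimitive (by omega)
  have hirr : Irreducible (F.map (Int.castRingHom ℚ)) :=
    (IsPrimitive.Int.irreducible_iff_irreducible_map_cast hprim).mp hF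
  have hnd2 : ¬ (F.map (Int.castRingHom ℚ)) ∣ (G.map (Int.castRingHom ℚ)) := by
    intro h
    apply hnd
    have h1 : G = C G.content * G.primPart := G.eq_C_content_mul_primPart
    have h2 : (F.map (Int.castRingHom ℚ)) ∣ (G.primPart.map (Int.castRingHom ℚ)) := by
      have h3 : G.map (Int.castRingHom ℚ) =
          C ((G.content : ℤ) : ℚ) * (G.primPart.map (Int.castRingHom ℚ)) := by
        conv_lhs => rw [h1]
        rw [Polynomial.map_mul, Polynomial.map_C]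
        simp
      rw [h3] at h
      have hc : ((G.content : ℤ) : ℚ) ≠ 0 := by
        have : G.content ≠ 0 := by
          rw [Ne, content_eq_zero_iff]; exact hG
        exact_mod_cast this
      have hu : IsUnit (C ((G.content : ℤ) : ℚ) : ℚ[X]) := isUnit_C.mpr (isUnit_iff_ne_zero.mpr hc)
      exact (hu.dvd_mul_left).mp h
    have h4 : F ∣ G.primPart :=
      (IsPrimitive.Int.dvd_iff_map_cast_dvd_map_cast _ _ hprim).mpr h2
    exact h4.trans G.primPart_dvd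
  have hcop : IsCoprime (F.map (Int.castRingHom ℚ)) (G.map (Int.castRingHom ℚ)) :=
    (hirr.coprime_iff_not_dvd).mpr hnd2
  have := hcop.map (mapRingHom (algebraMap ℚ ℝ))
  have e : (algebraMap ℚ ℝ).comp (Int.castRingHom ℚ) = Int.castRingHom ℝ := RingHom.ext_int _ _
  rw [coe_mapRingHom, Polynomial.map_map, Polynomial.map_map, e] at this
  exact this

/-- Dirichlet polynomials -/
lemma dirichlet_poly (n : ℕ) (hn : 1 ≤ n) (ζ : ℝ) : ∃ K : ℝ, 1 ≤ K ∧ ∀ H : ℕ, 1 ≤ H →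
    ∃ P : ℤ[X], P ≠ 0 ∧ P.natDegree ≤ n ∧ (∀ i, |(P.coeff i : ℝ)| ≤ K * H) ∧
      |aeval ζ P| ≤ 1 / (H : ℝ) ^ n := by
  refine ⟨n * (max 1 |ζ|) ^ n + 1, ?_, ?_⟩
  · have : 0 ≤ (n : ℝ) * (max 1 |ζ|) ^ n := by positivity
    linarith
  intro H hH
  obtain ⟨b, ⟨j0, hj0, hj0'⟩, hb2, hb3⟩ := dirichlet_form n hn ζ H hH
  set P : ℤ[X] := ∑ i ∈ Finset.range (n + 1), C (b i) * X ^ i with hP
  have hcoeff : ∀ i, P.coeff i = if i ≤ n then b i else 0 := by
    intro i
    rw [hP, finsetSum_coeff]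
    simp only [coeff_C_mul, coeff_X_pow]
    split_ifs with h
    · rw [Finset.sum_eq_single i]
      · simp
      · intro j _ hj
        rw [if_neg (by omega)]; simp
      · intro h2; simp at h2; omega
    · rw [Finset.sum_eq_zero]
      intro j hj
      simp at hj
      rw [if_neg (by omega)]; simp
  refine ⟨P, ?_, ?_, ?_, ?_⟩
  · intro h0
    apply hj0'
    have := hcoeff j0
    rw [h0, if_pos (by simp at hj0; omega)] at this
    simpa using this.symm
  · rw [natDegree_le_iff_coeff_eq_zero]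
    intro i hi
    rw [hcoeff, if_neg (by omega)]
  · intro i
    rw [hcoeff]
    split_ifs
    · exact hb2 i
    · simp; positivity
  · have : aeval ζ P = ∑ j ∈ Finset.range (n + 1), (b j : ℝ) * ζ ^ j := by
      rw [hP, map_sum]
      simp
    rw [this]; exact hb3

/-- the irreducible factor of degree at least two at level `Y ^ 16` -/
theorem level (ζ : ℝ) (hζ : Irrational ζ) (hL : ¬ Liouville ζ) :
    ∃ n : ℕ, 2 ≤ n ∧ ∃ K : ℝ, 1 ≤ K ∧ ∃ Y0 : ℕ, ∀ Y : ℕ, Y0 ≤ Y → ∃ F : ℤ[X], Irreducible F ∧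
      2 ≤ F.natDegree ∧ F.natDegree ≤ n ∧ MM F ≤ K * (Y : ℝ) ^ 16 ∧
      |aeval ζ F| ≤ K / (Y : ℝ) ^ 30 := by
  obtain ⟨μ, hμ, c, hc0, hc1, hlin⟩ := linear_lower ζ hζ hL
  set n : ℕ := 16 * μ with hn
  obtain ⟨K1, hK1, hdir⟩ := dirichlet_poly n (by omega) ζ
  set K2 : ℝ := (n + 1) * K1 with hK2
  have hK21 : 1 ≤ K2 := by
    have h1 : (1 : ℝ) ≤ n + 1 := by
      have : (0 : ℝ) ≤ n := Nat.cast_nonneg n
      linarith
    exact one_le_mul_of_one_le_of_one_le h1 hK1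
  set K3 : ℝ := 2 * K2 / c ^ 2 with hK3
  have hK3K2 : K2 ≤ K3 := by
    rw [hK3, le_div_iff₀ (by positivity)]
    have : c ^ 2 ≤ 1 := pow_le_one₀ hc0.le hc1
    nlinarith
  have hK31 : 1 ≤ K3 := hK21.trans hK3K2
  refine ⟨n, by omega, K3, hK31, ⌈K3⌉₊ + 1, ?_⟩
  intro Y hY
  have hYK : K3 ≤ (Y : ℝ) := by
    have h1 : K3 ≤ ⌈K3⌉₊ := Nat.le_ceil _
    have h2 : ((⌈K3⌉₊ + 1 : ℕ) : ℝ) ≤ Y := by exact_mod_cast hY
    push_cast at h2; linarith
  have hY1 : (1 : ℝ) ≤ Y := hK31.trans hYK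
  have hY0 : (0 : ℝ) < Y := by linarith
  have hYn : 1 ≤ Y := by exact_mod_cast hY1
  obtain ⟨P, hP0, hPn, hPc, hPv⟩ := hdir (Y ^ 16) (Nat.one_le_pow _ _ (by omega))
  push_cast at hPc hPv
  have hMM : MM P ≤ K2 * (Y : ℝ) ^ 16 := by
    refine (MM_le P n _ hPn hPc).trans ?_
    rw [hK2]; apply le_of_eq; ring
  set τ : ℝ := K3 / (Y : ℝ) ^ 30 with hτ
  have hτ0 : 0 < τ := by positivity
  have hτ1 : τ ≤ 1 := by
    rw [hτ, div_le_one (by positivity)]
    exact hYK.trans (le_self_pow₀ hY1 (by norm_num))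
  by_contra hcon
  push Not at hcon
  have hall : ∀ F : ℤ[X], Irreducible F → F ∣ P → 2 ≤ F.natDegree → τ ≤ |aeval ζ F| := by
    intro F hF1 hF2 hF3
    have h1 := hcon F hF1 hF3 ((natDegree_le_of_dvd hF2 hP0).trans hPn)
      ((MM_le_of_dvd hP0 hF2).trans (hMM.trans (by gcongr)))
    exact h1.le
  have hlow := factor_lower ζ μ c τ hc0 hc1 hτ0 hτ1 hlin P hP0 hall
  have hs : Real.sqrt τ = Real.sqrt K3 / (Y : ℝ) ^ 15 := by
    rw [hτ, Real.sqrt_div (by linarith)]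
    congr 1
    rw [show (Y : ℝ) ^ 30 = ((Y : ℝ) ^ 15) ^ 2 by ring]
    exact Real.sqrt_sq (by positivity)
  have hcs1 : c * Real.sqrt τ ≤ 1 := mul_le_one₀ hc1 (Real.sqrt_nonneg _) (Real.sqrt_le_one.mpr hτ1)
  have hcs0 : 0 ≤ c * Real.sqrt τ := by positivity
  have h1 : (c * Real.sqrt τ) ^ n / (K2 * (Y : ℝ) ^ 16) ^ μ ≤ 1 / ((Y : ℝ) ^ 16) ^ n := by
    calc (c * Real.sqrt τ) ^ n / (K2 * (Y : ℝ) ^ 16) ^ μ
        ≤ (c * Real.sqrt τ) ^ P.natDegree / (MM P) ^ μ := by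
          have hMP := one_le_MM hP0
          apply div_le_div₀ (by positivity) (pow_le_pow_of_le_one hcs0 hcs1 hPn) (by positivity)
          gcongr
      _ ≤ |aeval ζ P| := hlow
      _ ≤ _ := hPv
  rw [div_le_div_iff₀ (by positivity) (by positivity), one_mul] at h1
  -- (c √τ)^n * Y^(16 n) ≤ (K2 Y^16)^μ
  have h2 : (c * Real.sqrt τ) ^ n * ((Y : ℝ) ^ 16) ^ n = ((c ^ 2 * K3) ^ 8 * (Y : ℝ) ^ 16) ^ μ := by
    rw [hs, ← mul_pow, hn, pow_mul]
    congr 1
    have h3 : c * (Real.sqrt K3 / (Y : ℝ) ^ 15) * (Y : ℝ) ^ 16 = c * Real.sqrt K3 * Y := by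
      field_simp
    rw [h3]
    have h4 : Real.sqrt K3 ^ 2 = K3 := Real.sq_sqrt (by linarith)
    calc (c * Real.sqrt K3 * Y) ^ 16 = (c ^ 2 * (Real.sqrt K3 ^ 2)) ^ 8 * (Y : ℝ) ^ 16 := by ring
      _ = (c ^ 2 * K3) ^ 8 * (Y : ℝ) ^ 16 := by rw [h4]
  rw [h2] at h1
  have h5 : c ^ 2 * K3 = 2 * K2 := by rw [hK3]; field_simp
  rw [h5] at h1
  have h6 : (2 * K2) ^ 8 * (Y : ℝ) ^ 16 ≤ K2 * (Y : ℝ) ^ 16 := by
    by_contra hlt
    push Not at hlt
    have := pow_lt_pow_left₀ hlt (by positivity) (show μ ≠ 0 by omega)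
    linarith
  have h7 : K2 < (2 * K2) ^ 8 := by
    calc K2 < 2 * K2 := by linarith
      _ ≤ (2 * K2) ^ 8 := le_self_pow₀ (by linarith) (by norm_num)
  have h8 : K2 * (Y : ℝ) ^ 16 < (2 * K2) ^ 8 * (Y : ℝ) ^ 16 := by
    apply mul_lt_mul_of_pos_right h7 (by positivity)
  linarith

/-- a quadratic irreducible polynomial with a very small value has a root nearby -/
lemma quad_root (ζ : ℝ) (F : ℤ[X]) (hF : Irreducible F) (hdeg : F.natDegree = 2)
    (hsmall : 16 * |(F.coeff 2 : ℝ)| * |aeval ζ F| ≤ 1) :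
    ∃ α : ℝ, aeval α F = 0 ∧ |ζ - α| ≤ 4 * |aeval ζ F| := by
  set a : ℤ := F.coeff 2 with ha
  set b : ℤ := F.coeff 1 with hb
  set c : ℤ := F.coeff 0 with hc
  have ha0 : a ≠ 0 := by
    intro h
    have h1 : F.leadingCoeff = 0 := by rw [leadingCoeff, hdeg]; exact h
    exact hF.ne_zero (leadingCoeff_eq_zero.mp h1)
  have hFe : F = C a * X ^ 2 + C b * X + C c := by
    have := F.as_sum_range_C_mul_X_pow
    rw [hdeg] at this
    rw [this]
    simp [Finset.sum_range_succ, ← ha, ← hb, ← hc]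
    ring
  have hev : ∀ x : ℝ, aeval x F = (a : ℝ) * x ^ 2 + b * x + c := by
    intro x; rw [hFe]; simp
  set v0 : ℝ := aeval ζ F with hv0
  have hv0e : v0 = (a : ℝ) * ζ ^ 2 + b * ζ + c := hev ζ
  set s : ℝ := 2 * a * ζ + b with hs
  have hs2 : s ^ 2 = ((b ^ 2 - 4 * a * c : ℤ) : ℝ) + 4 * a * v0 := by
    rw [hv0e, hs]; push_cast; ring
  have h4 : |4 * (a : ℝ) * v0| ≤ 1 / 4 := by
    rw [abs_mul, abs_mul]
    rw [show |(4 : ℝ)| = 4 by norm_num]
    linarith
  have hdisc : (1 : ℤ) ≤ b ^ 2 - 4 * a * c := by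
    by_contra hlt
    push Not at hlt
    have hle : b ^ 2 - 4 * a * c ≤ 0 := by omega
    rcases lt_or_eq_of_le hle with h | h
    · have h5 : ((b ^ 2 - 4 * a * c : ℤ) : ℝ) ≤ -1 := by
        have : b ^ 2 - 4 * a * c ≤ -1 := by omega
        exact_mod_cast this
      have h6 := (abs_le.mp h4).2
      nlinarith [sq_nonneg s]
    · -- double root
      have h7 : (C (2 * a) * X + C b) ^ 2 = C (4 * a) * F := by
        have hbb : b ^ 2 = 4 * a * c := by linarith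
        calc (C (2 * a) * X + C b : ℤ[X]) ^ 2 = C (4 * a * a) * X ^ 2 + C (4 * a * b) * X + C (b ^ 2) := by
              simp only [map_mul, map_pow]
              have e2 : (C (2 : ℤ) : ℤ[X]) = 2 := by simp
              have e4 : (C (4 : ℤ) : ℤ[X]) = 4 := by simp
              rw [e2, e4]; ring
          _ = C (4 * a) * F := by
              rw [hbb]
              conv_rhs => rw [hFe]
              simp only [map_mul]
              ring
      have h8 : F ∣ (C (2 * a) * X + C b) ^ 2 := by rw [h7]; exact dvd_mul_left _ _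
      have h9 : F ∣ (C (2 * a) * X + C b) := hF.prime.dvd_of_dvd_pow h8
      have h10 : (C (2 * a) * X + C b : ℤ[X]).natDegree = 1 :=
        natDegree_linear (by simpa using ha0)
      have h11 : (C (2 * a) * X + C b : ℤ[X]) ≠ 0 := by
        intro h0; rw [h0] at h10; simp at h10
      have := natDegree_le_of_dvd h9 h11
      omega
  have hs4 : 1 / 2 ≤ |s| := by
    have h5 : (1 : ℝ) ≤ ((b ^ 2 - 4 * a * c : ℤ) : ℝ) := by exact_mod_cast hdisc
    have h6 := (abs_le.mp h4).1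
    have h7 : (1 / 2 : ℝ) ^ 2 ≤ s ^ 2 := by rw [hs2]; linarith
    have := sq_le_sq.mp h7
    rwa [abs_of_pos (by norm_num : (0 : ℝ) < 1 / 2)] at this
  set r : ℝ := 4 * |v0| with hr
  have hr0 : 0 ≤ r := by positivity
  have har : |(a : ℝ)| * r ^ 2 ≤ |v0| := by
    rw [hr]
    calc |(a : ℝ)| * (4 * |v0|) ^ 2 = (16 * |(a : ℝ)| * |v0|) * |v0| := by ring
      _ ≤ 1 * |v0| := by gcongr
      _ = |v0| := one_mul _
  have hexp : ∀ t : ℝ, aeval (ζ + t) F = v0 + s * t + a * t ^ 2 := by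
    intro t; rw [hev, hv0e, hs]; ring
  have hsr : 2 * |v0| ≤ |s| * r := by rw [hr]; nlinarith [abs_nonneg v0]
  have har2 : |(a : ℝ) * r ^ 2| ≤ |v0| := by
    rw [abs_mul, abs_of_nonneg (sq_nonneg r)]; exact har
  have b1 := abs_le.mp har2
  have b2 := neg_abs_le v0
  have b3 := le_abs_self v0
  have hcont : Continuous (fun x : ℝ => aeval x F) := by
    have : (fun x : ℝ => aeval x F) = fun x => (a : ℝ) * x ^ 2 + b * x + c := funext hev
    rw [this]; fun_prop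
  rcases le_or_gt 0 s with hs0 | hs0
  · rw [abs_of_nonneg hs0] at hsr
    have hivt := intermediate_value_Icc (show ζ + -r ≤ ζ + r by linarith)
      (f := fun x : ℝ => aeval x F) hcont.continuousOn
    have h0 : (0 : ℝ) ∈ Set.Icc (aeval (ζ + -r) F) (aeval (ζ + r) F) := by
      constructor
      · rw [hexp]; nlinarith
      · rw [hexp]; nlinarith
    obtain ⟨β, hβ1, hβ2⟩ := hivt h0
    exact ⟨β, hβ2, by rw [abs_le]; constructor <;> linarith [hβ1.1, hβ1.2]⟩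
  · rw [abs_of_neg hs0] at hsr
    have hivt := intermediate_value_Icc' (show ζ + -r ≤ ζ + r by linarith)
      (f := fun x : ℝ => aeval x F) hcont.continuousOn
    have h0 : (0 : ℝ) ∈ Set.Icc (aeval (ζ + r) F) (aeval (ζ + -r) F) := by
      constructor
      · rw [hexp]; nlinarith
      · rw [hexp]; nlinarith
    obtain ⟨β, hβ1, hβ2⟩ := hivt h0
    exact ⟨β, hβ2, by rw [abs_le]; constructor <;> linarith [hβ1.1, hβ1.2]⟩

end Pool.Agent.H238R3
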