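import Mathlib
import Pool.Agent.H238R3.Level

set_option autoImplicit false

namespace Pool.Agent.H238R3

open Polynomial

theorem level_approx (ζ : ℝ) (hζ : Irrational ζ) (hL : ¬ Liouville ζ) :
    ∃ N : ℕ, 1 ≤ N ∧ ∃ K : ℝ, 1 ≤ K ∧ ∃ Z0 : ℕ, ∀ Z : ℕ, Z0 ≤ Z → ∃ β : ℝ, ∃ P : ℤ[X],
      Irreducible P ∧ P.natDegree ≤ N ∧ aeval β P = 0 ∧ ∃ h : ℝ, 0 < h ∧
        (∀ i, |(P.coeff i : ℝ)| ≤ h) ∧ h ≤ K * (Z : ℝ) ^ 32 ∧ |ζ - β| * h ≤ K / (Z : ℝ) ^ 41 := by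
  classical
  obtain ⟨n, hn2, K1, hK1, Y0, hlev⟩ := level ζ hζ hL
  choose! Kd hKd1 hKd2 using fun (m : ℕ) (hm : 1 ≤ m) => dirichlet_poly m hm ζ
  set K2 : ℝ := ∑ m ∈ Finset.range (n + 1), |Kd m| with hK2
  have hK2m : ∀ m, 1 ≤ m → m ≤ n → Kd m ≤ K2 := by
    intro m hm1 hm2
    calc Kd m ≤ |Kd m| := le_abs_self _
      _ ≤ K2 := Finset.single_le_sum (f := fun m => |Kd m|) (fun i _ => abs_nonneg _)
          (Finset.mem_range.mpr (by omega))
  have hK20 : 0 ≤ K2 := Finset.sum_nonneg fun i _ => abs_nonneg _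
  obtain ⟨K3, c3, hK3, hc3, happ⟩ := approx ζ (2 * n)
  set K4 : ℝ := 2 ^ (2 * n) * K1 ^ 2 + 2 ^ n * K1 + K2 with hK4
  have e1 : (1 : ℝ) ≤ 2 ^ n := one_le_pow₀ (by norm_num)
  have e2 : (1 : ℝ) ≤ 2 ^ (2 * n) := one_le_pow₀ (by norm_num)
  have e3 : K1 ≤ 2 ^ n * K1 := le_mul_of_one_le_left (by linarith) e1
  have e4 : K1 ^ 2 ≤ 2 ^ (2 * n) * K1 ^ 2 := le_mul_of_one_le_left (by positivity) e2
  have e5 : 0 ≤ (2 : ℝ) ^ (2 * n) * K1 ^ 2 := by positivity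
  have hK41 : 1 ≤ K4 := by linarith
  set K : ℝ := K3 * K3 * K4 + 4 * K1 + 1 with hK
  have hKK : K3 * K4 ≤ K := by
    have : K3 * K4 ≤ K3 * (K3 * K4) := le_mul_of_one_le_left (by positivity) hK3
    rw [hK]; nlinarith
  have hK1' : 1 ≤ K := by
    have : 0 ≤ K3 * K3 * K4 := by positivity
    rw [hK]; linarith
  refine ⟨4 * (2 * n) + 1, by omega, K, hK1', Y0 + ⌈1 / c3⌉₊ + ⌈16 * K1⌉₊ + 1, ?_⟩
  intro Z hZ
  have hZ1n : 1 ≤ Z := by omega
  have hZ1 : (1 : ℝ) ≤ Z := by exact_mod_cast hZ1n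
  have hZ0 : (0 : ℝ) < Z := by linarith
  have hZc : 1 / c3 ≤ Z := by
    have h1 : 1 / c3 ≤ ⌈1 / c3⌉₊ := Nat.le_ceil _
    have h2 : ((⌈1 / c3⌉₊ : ℕ) : ℝ) ≤ Z := by exact_mod_cast (by omega)
    linarith
  have hZK : 16 * K1 ≤ Z := by
    have h1 : 16 * K1 ≤ ⌈16 * K1⌉₊ := Nat.le_ceil _
    have h2 : ((⌈16 * K1⌉₊ : ℕ) : ℝ) ≤ Z := by exact_mod_cast (by omega)
    linarith
  have hcZ : 1 ≤ c3 * Z := by
    rw [div_le_iff₀ hc3] at hZc; linarith
  have hmono : ∀ a b : ℕ, a ≤ b → (Z : ℝ) ^ a ≤ (Z : ℝ) ^ b := fun a b h =>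
    pow_le_pow_right₀ hZ1 h
  obtain ⟨F, hF1, hF2, hF3, hF4, hF5⟩ := hlev (Z ^ 2) (by nlinarith)
  push_cast at hF4 hF5
  rw [← pow_mul] at hF4 hF5
  norm_num at hF4 hF5
  have hFc : ∀ i, |(F.coeff i : ℝ)| ≤ 2 ^ n * K1 * (Z : ℝ) ^ 32 := by
    intro i
    calc |(F.coeff i : ℝ)| ≤ 2 ^ F.natDegree * MM F := coeff_le_MM F i
      _ ≤ 2 ^ n * (K1 * (Z : ℝ) ^ 32) := by
          apply mul_le_mul (pow_le_pow_right₀ (by norm_num) hF3) hF4 (MM_nonneg _) (by positivity)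
      _ = 2 ^ n * K1 * (Z : ℝ) ^ 32 := by ring
  -- the common end of the argument
  have hend : ∀ G : ℤ[X], G ≠ 0 → G.natDegree ≤ 2 * n →
      IsCoprime (F.map (Int.castRingHom ℝ)) (G.map (Int.castRingHom ℝ)) →
      (∀ i, |(G.coeff i : ℝ)| ≤ K4 * (Z : ℝ) ^ 32) → |aeval ζ G| ≤ K4 / (Z : ℝ) ^ 60 →
      ∃ β : ℝ, ∃ P : ℤ[X],
      Irreducible P ∧ P.natDegree ≤ 4 * (2 * n) + 1 ∧ aeval β P = 0 ∧ ∃ h : ℝ, 0 < h ∧
        (∀ i, |(P.coeff i : ℝ)| ≤ h) ∧ h ≤ K * (Z : ℝ) ^ 32 ∧ |ζ - β| * h ≤ K / (Z : ℝ) ^ 41 := by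
    intro G hG0 hGd hcop hGc hGv
    have hB1 : 1 ≤ K4 * (Z : ℝ) ^ 32 := one_le_mul_of_one_le_of_one_le hK41 (one_le_pow₀ hZ1)
    have hv : K4 / (Z : ℝ) ^ 60 ≤ c3 * (K4 * (Z : ℝ) ^ 32) := by
      rw [div_le_iff₀ (by positivity)]
      have : c3 * (K4 * (Z : ℝ) ^ 32) * (Z : ℝ) ^ 60 = K4 * ((c3 * Z) * (Z : ℝ) ^ 91) := by ring
      rw [this]
      have h1 : 1 ≤ (c3 * Z) * (Z : ℝ) ^ 91 := one_le_mul_of_one_le_of_one_le hcZ (one_le_pow₀ hZ1)
      exact le_mul_of_one_le_right (by linarith) h1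
    obtain ⟨β, P, h1, h2, h3, h4, h5⟩ := happ F G (by omega) hGd hG0 hcop (K4 * (Z : ℝ) ^ 32)
      (K4 / (Z : ℝ) ^ 60) hB1 (by positivity) hv
      (fun i => (hFc i).trans (by
        apply mul_le_mul_of_nonneg_right _ (by positivity)
        rw [hK4]; linarith)) hGc (hF5.trans (by
        apply div_le_div_of_nonneg_right _ (by positivity)
        rw [hK4]; linarith)) hGv
    refine ⟨β, P, h1, h2, h3, K3 * (K4 * (Z : ℝ) ^ 32), by positivity, h4, ?_, ?_⟩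
    · calc K3 * (K4 * (Z : ℝ) ^ 32) = (K3 * K4) * (Z : ℝ) ^ 32 := by ring
        _ ≤ K * (Z : ℝ) ^ 32 := by gcongr
    · calc |ζ - β| * (K3 * (K4 * (Z : ℝ) ^ 32))
          ≤ (K3 * (K4 / (Z : ℝ) ^ 60) / (K4 * (Z : ℝ) ^ 32)) * (K3 * (K4 * (Z : ℝ) ^ 32)) := by gcongr
        _ = K3 * K3 * K4 / (Z : ℝ) ^ 60 := by field_simp
        _ ≤ K / (Z : ℝ) ^ 41 := by
            apply div_le_div₀ (by linarith) _ (by positivity) (hmono 41 60 (by norm_num))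
            rw [hK]; linarith
  rcases Nat.lt_or_ge 2 F.natDegree with hd | hd
  · -- degree at least three
    set m : ℕ := F.natDegree - 1 with hm
    obtain ⟨G, hG1, hG2, hG3, hG4⟩ := hKd2 m (by omega) (Z ^ 32) (Nat.one_le_pow _ _ (by omega))
    push_cast at hG3 hG4
    refine hend G hG1 (by omega) ?_ ?_ ?_
    · refine coprime_of F G hF1 (by omega) hG1 ?_
      intro hdvd
      have := natDegree_le_of_dvd hdvd hG1
      omega
    · intro i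
      refine (hG3 i).trans ?_
      apply mul_le_mul_of_nonneg_right _ (by positivity)
      have := hK2m m (by omega) (by omega)
      rw [hK4]; linarith
    · refine hG4.trans ?_
      apply div_le_div₀ (by linarith) (by linarith) (by positivity)
      rw [← pow_mul]
      exact hmono 60 _ (by have : 2 ≤ m := by omega
                           nlinarith)
  · have hd2 : F.natDegree = 2 := by omega
    by_cases hsmall : ∀ i, |(F.coeff i : ℝ)| ≤ (Z : ℝ) ^ 19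
    · obtain ⟨α, hα1, hα2⟩ := quad_root ζ F hF1 hd2 (by
        calc 16 * |(F.coeff 2 : ℝ)| * |aeval ζ F| ≤ 16 * (Z : ℝ) ^ 19 * (K1 / (Z : ℝ) ^ 60) := by
              gcongr
              exact hsmall 2
          _ = (16 * K1) / (Z : ℝ) ^ 41 := by field_simp
          _ ≤ 1 := by
              rw [div_le_one (by positivity)]
              exact hZK.trans (le_self_pow₀ hZ1 (by norm_num)))
      refine ⟨α, F, hF1, by omega, hα1, (Z : ℝ) ^ 19, by positivity, hsmall, ?_, ?_⟩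
      · calc (Z : ℝ) ^ 19 ≤ (Z : ℝ) ^ 32 := hmono _ _ (by norm_num)
          _ ≤ K * (Z : ℝ) ^ 32 := le_mul_of_one_le_left (by positivity) hK1'
      · calc |ζ - α| * (Z : ℝ) ^ 19 ≤ (4 * (K1 / (Z : ℝ) ^ 60)) * (Z : ℝ) ^ 19 := by
              gcongr
              exact hα2.trans (by gcongr)
          _ = 4 * K1 / (Z : ℝ) ^ 41 := by field_simp
          _ ≤ K / (Z : ℝ) ^ 41 := by
              apply div_le_div_of_nonneg_right _ (by positivity)
              have : 0 ≤ K3 * K3 * K4 := by positivity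
              rw [hK]; linarith
    · push Not at hsmall
      obtain ⟨i, hi⟩ := hsmall
      obtain ⟨F1, hF11, hF12, hF13, hF14, hF15⟩ := hlev Z (by omega)
      have hndvd : ¬ F ∣ F1 := by
        intro hdvd
        have h1 := MM_le_of_dvd hF11.ne_zero hdvd
        have h2 := coeff_le_MM F i
        rw [hd2] at h2
        have h3 : |(F.coeff i : ℝ)| ≤ 4 * K1 * (Z : ℝ) ^ 16 := by
          calc |(F.coeff i : ℝ)| ≤ 2 ^ 2 * MM F := h2
            _ ≤ 2 ^ 2 * (K1 * (Z : ℝ) ^ 16) := by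
                have := h1.trans hF14
                gcongr
            _ = 4 * K1 * (Z : ℝ) ^ 16 := by ring
        have h4 : 4 * K1 * (Z : ℝ) ^ 16 ≤ (Z : ℝ) ^ 19 := by
          calc 4 * K1 * (Z : ℝ) ^ 16 ≤ (Z : ℝ) * (Z : ℝ) ^ 16 := by
                gcongr; linarith
            _ = (Z : ℝ) ^ 17 := by ring
            _ ≤ (Z : ℝ) ^ 19 := hmono _ _ (by norm_num)
        linarith
      have hcop1 := coprime_of F F1 hF1 (by omega) hF11.ne_zero hndvd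
      refine hend (F1 ^ 2) (pow_ne_zero 2 hF11.ne_zero) ?_ ?_ ?_ ?_
      · refine (natDegree_pow_le).trans ?_
        omega
      · rw [Polynomial.map_pow]
        exact hcop1.pow_right
      · intro j
        have hdeg : (F1 ^ 2).natDegree ≤ 2 * n := (natDegree_pow_le).trans (by omega)
        calc |((F1 ^ 2).coeff j : ℝ)| ≤ 2 ^ (F1 ^ 2).natDegree * MM (F1 ^ 2) := coeff_le_MM _ _
          _ ≤ 2 ^ (2 * n) * ((K1 * (Z : ℝ) ^ 16) * (K1 * (Z : ℝ) ^ 16)) := by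
              apply mul_le_mul (pow_le_pow_right₀ (by norm_num) hdeg) _ (MM_nonneg _) (by positivity)
              rw [sq, MM_mul]
              exact mul_le_mul hF14 hF14 (MM_nonneg _) (by positivity)
          _ = (2 ^ (2 * n) * K1 ^ 2) * (Z : ℝ) ^ 32 := by ring
          _ ≤ K4 * (Z : ℝ) ^ 32 := by
              apply mul_le_mul_of_nonneg_right _ (by positivity)
              rw [hK4]; linarith
      · rw [map_pow, abs_pow]
        calc |aeval ζ F1| ^ 2 ≤ (K1 / (Z : ℝ) ^ 30) ^ 2 := by gcongr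
          _ = K1 ^ 2 / (Z : ℝ) ^ 60 := by rw [div_pow, ← pow_mul]
          _ ≤ K4 / (Z : ℝ) ^ 60 := by
              apply div_le_div_of_nonneg_right _ (by positivity)
              rw [hK4]; linarith

end Pool.Agent.H238R3
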